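import Pool.Agent.H12.Eng.Core

/-! Certificate data. -/

set_option autoImplicit false

namespace Pool.Agent.H12.Eng

def tG1 : LC := [(1, 0, (.m (.m (.m (.m (.v 1) (.v 0)) (.v 0)) (.m (.v 2) (.v 0))) (.v 0)))]

def cG1 : List It := [⟨0, 24, 0, (.v 0), (.v 0), (.v 2), (.m (.m (.v 1) (.v 0)) (.v 0)), (.v 0), (.v 0), []⟩,
  ⟨0, 4, 0, (.v 1), (.v 0), (.v 0), (.v 0), (.v 0), (.v 0), [(.v 0), (.v 2)]⟩,
  ⟨0, 4, 0, (.v 1), (.v 0), (.v 0), (.v 0), (.v 0), (.v 0), [(.v 2), (.v 0)]⟩,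
  ⟨0, 1, 1, (.v 2), (.v 1), (.v 0), (.v 0), (.v 0), (.v 0), []⟩]

end Pool.Agent.H12.Eng
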