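import Pool.Agent.H12.Eng.Core

/-! Certificate data. -/

set_option autoImplicit false

namespace Pool.Agent.H12.Eng

def tL1 : LC := [(1, 0, (.m (.m (.v 3) (.m (.m (.m (.v 1) (.v 0)) (.v 0)) (.m (.m (.v 2) (.v 0)) (.v 0)))) (.v 0)))]

def cL1 : List It := [⟨3, 0, 0, (.v 0), (.v 0), (.v 0), (.m (.m (.v 2) (.v 0)) (.v 3)), (.v 0), (.v 0), [(.v 1), (.v 0)]⟩,
  ⟨0, 3, 0, (.v 0), (.v 0), (.v 0), (.m (.m (.v 1) (.v 0)) (.v 3)), (.v 0), (.v 0), [(.m (.v 2) (.v 0))]⟩,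
  ⟨3, 0, 0, (.v 0), (.v 0), (.v 0), (.m (.m (.v 2) (.v 0)) (.v 1)), (.v 0), (.v 0), [(.v 3), (.v 0)]⟩,
  ⟨6, 0, 0, (.v 0), (.v 0), (.v 0), (.m (.m (.m (.v 1) (.v 0)) (.v 2)) (.v 3)), (.v 0), (.v 0), [(.v 0)]⟩,
  ⟨0, 6, 0, (.v 0), (.v 0), (.v 0), (.m (.m (.m (.v 2) (.v 1)) (.v 0)) (.v 3)), (.v 0), (.v 0), [(.v 0)]⟩,
  ⟨0, 3, 0, (.v 0), (.v 0), (.v 0), (.m (.m (.m (.m (.v 1) (.v 0)) (.v 0)) (.v 2)) (.v 3)), (.v 0), (.v 0), []⟩,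
  ⟨0, 3, 0, (.v 0), (.v 0), (.v 0), (.m (.m (.m (.v 2) (.v 0)) (.m (.v 1) (.v 0))) (.v 3)), (.v 0), (.v 0), []⟩,
  ⟨0, 6, 0, (.v 0), (.v 0), (.v 1), (.m (.v 3) (.v 2)), (.v 0), (.v 0), [(.v 0), (.v 0), (.v 0)]⟩,
  ⟨6, 0, 0, (.v 0), (.v 0), (.v 1), (.m (.v 2) (.v 0)), (.v 0), (.v 0), [(.v 0), (.v 3), (.v 0)]⟩,
  ⟨6, 0, 0, (.v 0), (.v 0), (.v 1), (.m (.m (.v 2) (.v 0)) (.v 3)), (.v 0), (.v 0), [(.v 0), (.v 0)]⟩,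
  ⟨6, 0, 0, (.v 0), (.v 0), (.v 2), (.m (.m (.v 1) (.v 0)) (.v 0)), (.v 0), (.v 0), [(.v 3), (.v 0)]⟩,
  ⟨6, 0, 0, (.v 0), (.v 2), (.v 3), (.m (.m (.v 1) (.v 0)) (.v 0)), (.v 0), (.v 0), [(.v 0), (.v 0)]⟩,
  ⟨1, 0, 0, (.v 1), (.v 0), (.v 0), (.v 0), (.v 0), (.v 0), [(.v 0), (.v 2), (.v 3), (.v 0)]⟩,
  ⟨1, 0, 0, (.v 1), (.v 0), (.v 0), (.v 0), (.v 0), (.v 0), [(.v 2), (.v 0), (.v 3), (.v 0)]⟩,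
  ⟨0, 3, 0, (.v 1), (.v 0), (.v 0), (.v 2), (.v 0), (.v 0), [(.v 0), (.v 3), (.v 0), (.v 0)]⟩,
  ⟨0, 6, 0, (.v 1), (.v 0), (.v 0), (.v 2), (.v 0), (.v 0), [(.v 3), (.v 0), (.v 0), (.v 0)]⟩,
  ⟨0, 3, 0, (.v 1), (.v 0), (.v 0), (.v 3), (.v 0), (.v 0), [(.v 0), (.v 0), (.m (.v 2) (.v 0))]⟩,
  ⟨0, 3, 0, (.v 1), (.v 0), (.v 0), (.v 3), (.v 0), (.v 0), [(.v 0), (.m (.v 2) (.v 0)), (.v 0)]⟩,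
  ⟨3, 0, 0, (.v 1), (.v 0), (.v 0), (.m (.m (.v 3) (.v 2)) (.v 0)), (.v 0), (.v 0), [(.v 0), (.v 0)]⟩,
  ⟨1, 0, 0, (.v 2), (.v 0), (.v 0), (.v 0), (.v 0), (.v 0), [(.v 1), (.v 0), (.v 3), (.v 0)]⟩,
  ⟨3, 0, 0, (.v 2), (.v 0), (.v 0), (.v 1), (.v 0), (.v 0), [(.v 0), (.v 0), (.v 3), (.v 0)]⟩,
  ⟨3, 0, 0, (.v 2), (.v 0), (.v 0), (.v 3), (.v 0), (.v 0), [(.v 0), (.v 0), (.v 1), (.v 0)]⟩,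
  ⟨3, 0, 0, (.v 2), (.v 0), (.v 0), (.v 3), (.v 0), (.v 0), [(.v 0), (.v 1), (.v 0), (.v 0)]⟩,
  ⟨3, 0, 0, (.v 2), (.v 0), (.v 0), (.v 3), (.v 0), (.v 0), [(.v 1), (.v 0), (.v 0), (.v 0)]⟩,
  ⟨0, 6, 0, (.v 2), (.v 0), (.v 3), (.m (.v 1) (.v 0)), (.v 0), (.v 0), [(.v 0), (.v 0), (.v 0)]⟩,
  ⟨6, 0, 0, (.v 3), (.v 0), (.v 2), (.m (.m (.v 1) (.v 0)) (.v 0)), (.v 0), (.v 0), [(.v 0), (.v 0)]⟩,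
  ⟨1, 0, 0, (.m (.v 3) (.v 2)), (.v 0), (.v 0), (.v 0), (.v 0), (.v 0), [(.v 0), (.v 1), (.v 0)]⟩,
  ⟨1, 0, 0, (.m (.v 3) (.v 2)), (.v 0), (.v 0), (.v 0), (.v 0), (.v 0), [(.v 1), (.v 0), (.v 0)]⟩,
  ⟨0, 1, 0, (.m (.v 3) (.v 1)), (.v 0), (.v 0), (.v 0), (.v 0), (.v 0), [(.v 0), (.m (.v 2) (.v 0))]⟩,
  ⟨0, 1, 0, (.m (.v 3) (.v 1)), (.v 0), (.v 0), (.v 0), (.v 0), (.v 0), [(.m (.v 2) (.v 0)), (.v 0)]⟩,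
  ⟨0, 1, 0, (.m (.v 2) (.v 1)), (.v 0), (.v 0), (.v 0), (.v 0), (.v 0), [(.v 0), (.v 3), (.v 0)]⟩,
  ⟨0, 1, 0, (.m (.v 2) (.v 1)), (.v 0), (.v 0), (.v 0), (.v 0), (.v 0), [(.v 3), (.v 0), (.v 0)]⟩,
  ⟨0, 6, 0, (.m (.v 2) (.v 1)), (.v 0), (.v 0), (.v 3), (.v 0), (.v 0), [(.v 0), (.v 0), (.v 0)]⟩,
  ⟨0, 6, 0, (.m (.v 1) (.v 0)), (.v 0), (.v 3), (.m (.v 2) (.v 0)), (.v 0), (.v 0), [(.v 0), (.v 0)]⟩,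
  ⟨2, 0, 0, (.m (.m (.v 2) (.v 1)) (.v 3)), (.v 0), (.v 0), (.v 0), (.v 0), (.v 0), [(.v 0), (.v 0)]⟩,
  ⟨3, 0, 0, (.m (.m (.v 1) (.v 0)) (.v 3)), (.v 0), (.v 0), (.m (.v 2) (.v 0)), (.v 0), (.v 0), [(.v 0)]⟩,
  ⟨3, 0, 0, (.m (.m (.v 1) (.v 0)) (.v 2)), (.v 0), (.v 0), (.v 3), (.v 0), (.v 0), [(.v 0), (.v 0)]⟩,
  ⟨6, 0, 0, (.m (.m (.v 1) (.v 0)) (.v 0)), (.v 0), (.v 2), (.v 3), (.v 0), (.v 0), [(.v 0), (.v 0)]⟩,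
  ⟨0, 3, 0, (.m (.m (.m (.v 2) (.v 0)) (.v 0)) (.v 3)), (.v 0), (.v 0), (.v 1), (.v 0), (.v 0), [(.v 0)]⟩,
  ⟨3, 0, 0, (.m (.m (.m (.v 1) (.v 0)) (.v 0)) (.v 3)), (.v 0), (.v 0), (.m (.v 2) (.v 0)), (.v 0), (.v 0), []⟩,
  ⟨0, 3, 0, (.m (.m (.v 2) (.v 0)) (.m (.v 1) (.v 0))), (.v 0), (.v 0), (.v 3), (.v 0), (.v 0), [(.v 0)]⟩]

end Pool.Agent.H12.Eng
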