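import Pool.Agent.H12.Eng.Core

/-! Certificate data. -/

set_option autoImplicit false

namespace Pool.Agent.H12.Eng

def tL4 : LC := [(1, 0, (.m (.m (.v 3) (.m (.m (.m (.v 1) (.v 0)) (.v 0)) (.m (.m (.v 2) (.v 0)) (.v 0)))) (.m (.m (.v 4) (.v 0)) (.v 0))))]

def cL4 : List It := [⟨1, 0, 0, (.v 4), (.v 0), (.v 0), (.m (.v 3) (.m (.m (.m (.v 1) (.v 0)) (.v 0)) (.m (.m (.v 2) (.v 0)) (.v 0)))), (.v 0), (.v 0), []⟩,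
  ⟨1, 0, 0, (.m (.v 3) (.m (.m (.m (.v 1) (.v 0)) (.v 0)) (.m (.m (.v 2) (.v 0)) (.v 0)))), (.v 4), (.v 0), (.v 0), (.v 0), (.v 0), []⟩,
  ⟨0, 2, 2, (.v 0), (.v 1), (.v 2), (.v 3), (.v 0), (.v 0), [(.v 4), (.v 0)]⟩,
  ⟨0, 2, 2, (.v 0), (.v 1), (.v 2), (.v 3), (.v 0), (.v 0), [(.v 0), (.v 4)]⟩,
  ⟨0, 2, 0, (.m (.m (.m (.v 1) (.v 0)) (.v 0)) (.m (.m (.v 2) (.v 0)) (.v 0))), (.v 3), (.m (.v 4) (.v 0)), (.v 0), (.v 0), (.v 0), []⟩,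
  ⟨0, 2, 0, (.m (.v 4) (.v 0)), (.v 3), (.m (.m (.m (.v 1) (.v 0)) (.v 0)) (.m (.m (.v 2) (.v 0)) (.v 0))), (.v 0), (.v 0), (.v 0), []⟩,
  ⟨0, 2, 2, (.v 0), (.v 1), (.v 2), (.v 3), (.v 0), (.v 0), [(.m (.v 4) (.v 0))]⟩,
  ⟨2, 0, 1, (.v 0), (.v 1), (.v 2), (.v 0), (.v 0), (.v 0), [(.v 3), (.m (.v 4) (.v 0))]⟩,
  ⟨2, 0, 1, (.v 0), (.v 1), (.v 2), (.v 0), (.v 0), (.v 0), [(.m (.v 4) (.v 0)), (.v 3)]⟩,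
  ⟨2, 0, 2, (.v 0), (.v 1), (.v 2), (.m (.m (.v 4) (.v 0)) (.v 3)), (.v 0), (.v 0), []⟩,
  ⟨1, 0, 0, (.v 4), (.v 0), (.v 0), (.v 3), (.v 0), (.v 0), [(.m (.m (.m (.v 1) (.v 0)) (.v 0)) (.m (.m (.v 2) (.v 0)) (.v 0)))]⟩,
  ⟨0, 2, 3, (.v 0), (.v 1), (.v 2), (.m (.v 4) (.v 3)), (.v 0), (.v 0), []⟩,
  ⟨2, 0, 3, (.v 0), (.v 1), (.v 2), (.v 4), (.v 0), (.v 0), [(.v 3)]⟩]

end Pool.Agent.H12.Eng
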