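import Pool.Agent.H12.Eng.Core

/-! Certificate data. -/

set_option autoImplicit false

namespace Pool.Agent.H12.Eng

def tW2 : LC := [(1, 0, (.m (.m (.v 3) (.v 0)) (.m (.m (.m (.v 1) (.v 0)) (.v 0)) (.m (.v 2) (.v 0))))), (1, 0, (.m (.m (.v 3) (.v 0)) (.m (.m (.v 1) (.v 0)) (.m (.m (.v 2) (.v 0)) (.v 0)))))]

def cW2 : List It := [⟨0, 24, 0, (.v 0), (.v 1), (.m (.v 3) (.v 0)), (.m (.m (.v 2) (.v 0)) (.v 0)), (.v 0), (.v 0), []⟩,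
  ⟨24, 0, 0, (.v 0), (.v 2), (.m (.v 3) (.v 0)), (.m (.m (.v 1) (.v 0)) (.v 0)), (.v 0), (.v 0), []⟩,
  ⟨4, 0, 0, (.v 1), (.v 0), (.v 0), (.v 0), (.v 0), (.v 0), [(.v 2), (.m (.v 3) (.v 0))]⟩,
  ⟨4, 0, 0, (.v 1), (.v 0), (.v 0), (.v 0), (.v 0), (.v 0), [(.m (.v 3) (.v 0)), (.v 2)]⟩,
  ⟨0, 24, 0, (.v 1), (.v 0), (.v 2), (.v 3), (.v 0), (.v 0), [(.m (.m (.v 0) (.v 0)) (.v 0))]⟩,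
  ⟨0, 4, 0, (.v 2), (.v 0), (.v 0), (.v 0), (.v 0), (.v 0), [(.v 1), (.m (.v 3) (.v 0))]⟩,
  ⟨0, 4, 0, (.v 2), (.v 0), (.v 0), (.v 0), (.v 0), (.v 0), [(.m (.v 3) (.v 0)), (.v 1)]⟩,
  ⟨0, 12, 0, (.v 2), (.v 0), (.v 0), (.v 3), (.v 0), (.v 0), [(.m (.m (.v 1) (.v 0)) (.v 0))]⟩,
  ⟨0, 12, 0, (.v 2), (.v 0), (.v 0), (.v 3), (.v 0), (.v 0), [(.m (.m (.v 0) (.v 0)) (.v 1))]⟩,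
  ⟨0, 12, 0, (.v 2), (.v 0), (.v 0), (.v 3), (.v 0), (.v 0), [(.m (.m (.v 0) (.v 1)) (.v 0))]⟩,
  ⟨0, 24, 0, (.v 2), (.v 0), (.v 1), (.v 3), (.v 0), (.v 0), [(.m (.m (.v 0) (.v 0)) (.v 0))]⟩,
  ⟨4, 0, 0, (.v 3), (.v 0), (.v 0), (.v 0), (.v 0), (.v 0), [(.m (.m (.v 2) (.v 0)) (.v 1))]⟩,
  ⟨4, 0, 0, (.v 3), (.v 0), (.v 0), (.v 0), (.v 0), (.v 0), [(.m (.m (.v 2) (.v 1)) (.v 0))]⟩,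
  ⟨0, 12, 0, (.v 3), (.v 0), (.v 0), (.v 2), (.v 0), (.v 0), [(.m (.m (.v 0) (.v 0)) (.v 1))]⟩,
  ⟨0, 12, 0, (.v 3), (.v 0), (.v 0), (.v 2), (.v 0), (.v 0), [(.m (.m (.v 0) (.v 1)) (.v 0))]⟩,
  ⟨0, 24, 0, (.v 3), (.v 0), (.v 1), (.v 2), (.v 0), (.v 0), [(.m (.m (.v 0) (.v 0)) (.v 0))]⟩,
  ⟨0, 12, 1, (.v 2), (.v 0), (.v 0), (.v 0), (.v 1), (.m (.v 3) (.v 0)), []⟩,
  ⟨1, 0, 1, (.v 3), (.v 1), (.v 0), (.v 0), (.v 0), (.v 0), [(.v 2)]⟩,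
  ⟨0, 1, 1, (.v 3), (.v 2), (.v 0), (.v 0), (.v 0), (.v 0), [(.v 1)]⟩,
  ⟨0, 1, 1, (.m (.v 3) (.v 2)), (.v 1), (.v 0), (.v 0), (.v 0), (.v 0), []⟩]

end Pool.Agent.H12.Eng
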