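import Pool.Agent.H12.Eng.Ids
import Pool.Agent.H12.Eng.DatL0
import Pool.Agent.H12.Eng.DatL1
import Pool.Agent.H12.Eng.DatL2
import Pool.Agent.H12.Eng.DatL3
import Pool.Agent.H12.Eng.DatL4
import Pool.Agent.H12.Eng.DatW2
import Pool.Agent.H12.Eng.DatG1

/-! Kernel evaluations of the short certificates. -/

namespace Pool.Agent.H12.Eng
set_option maxRecDepth 1000000

def idsL : ℕ → LC
  | 0 => rE
  | 1 => tL0
  | 2 => tL1
  | _ => tL2

theorem kL0 : chk idsE 6 tL0 cL0 = true := by decide +kernel
theorem kL4 : chk idsL 2 tL4 cL4 = true := by decide +kernel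
theorem kL1 : chk idsE 6 tL1 cL1 = true := by decide +kernel
theorem kL2 : chk idsE 6 tL2 cL2 = true := by decide +kernel
theorem kL3 : chk idsE 6 tL3 cL3 = true := by decide +kernel
theorem kG1 : chk idsV 24 tG1 cG1 = true := by decide +kernel
theorem kW2 : chk idsV 24 tW2 cW2 = true := by decide +kernel

end Pool.Agent.H12.Eng
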