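import Pool.Agent.H12.Eng.Core

/-! Certificate data. -/

set_option autoImplicit false

namespace Pool.Agent.H12.Eng

def tPsi : LC := [(1, 0, (.m (.m (.m (.v 3) (.v 0)) (.m (.m (.m (.v 1) (.v 0)) (.v 0)) (.m (.v 2) (.v 0)))) (.v 1)))]

def cPsi : List It := [⟨0, 300, 0, (.v 0), (.v 0), (.v 0), (.m (.m (.v 2) (.v 0)) (.v 3)), (.v 0), (.v 0), [(.v 1), (.v 1)]⟩,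
  ⟨264, 0, 0, (.v 0), (.v 0), (.v 0), (.m (.m (.v 3) (.v 0)) (.v 2)), (.v 0), (.v 0), [(.v 1), (.v 1)]⟩,
  ⟨156, 0, 0, (.v 0), (.v 0), (.v 0), (.m (.m (.v 1) (.v 0)) (.v 3)), (.v 0), (.v 0), [(.v 1), (.v 2)]⟩,
  ⟨0, 60, 0, (.v 0), (.v 0), (.v 0), (.m (.m (.v 1) (.v 0)) (.v 3)), (.v 0), (.v 0), [(.v 2), (.v 1)]⟩,
  ⟨228, 0, 0, (.v 0), (.v 0), (.v 0), (.m (.m (.v 3) (.v 0)) (.v 1)), (.v 0), (.v 0), [(.v 1), (.v 2)]⟩,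
  ⟨240, 0, 0, (.v 0), (.v 0), (.v 0), (.m (.m (.v 3) (.v 0)) (.v 1)), (.v 0), (.v 0), [(.v 2), (.v 1)]⟩,
  ⟨132, 0, 0, (.v 0), (.v 0), (.v 0), (.m (.m (.v 1) (.v 0)) (.v 2)), (.v 0), (.v 0), [(.v 1), (.v 3)]⟩,
  ⟨132, 0, 0, (.v 0), (.v 0), (.v 0), (.m (.m (.v 1) (.v 0)) (.v 2)), (.v 0), (.v 0), [(.v 3), (.v 1)]⟩,
  ⟨0, 156, 0, (.v 0), (.v 0), (.v 0), (.m (.m (.v 2) (.v 0)) (.v 1)), (.v 0), (.v 0), [(.v 1), (.v 3)]⟩,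
  ⟨0, 168, 0, (.v 0), (.v 0), (.v 0), (.m (.m (.v 2) (.v 0)) (.v 1)), (.v 0), (.v 0), [(.v 3), (.v 1)]⟩,
  ⟨96, 0, 0, (.v 0), (.v 0), (.v 0), (.m (.m (.v 2) (.v 0)) (.v 1)), (.v 0), (.v 0), [(.m (.v 3) (.v 1))]⟩,
  ⟨0, 672, 0, (.v 0), (.v 0), (.v 0), (.m (.m (.m (.v 1) (.v 0)) (.v 2)) (.v 3)), (.v 0), (.v 0), [(.v 1)]⟩,
  ⟨576, 0, 0, (.v 0), (.v 0), (.v 0), (.m (.m (.m (.v 2) (.v 1)) (.v 0)) (.v 3)), (.v 0), (.v 0), [(.v 1)]⟩,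
  ⟨216, 0, 0, (.v 0), (.v 0), (.v 0), (.m (.m (.m (.v 1) (.v 0)) (.v 3)) (.v 2)), (.v 0), (.v 0), [(.v 1)]⟩,
  ⟨240, 0, 0, (.v 0), (.v 0), (.v 0), (.m (.m (.m (.v 2) (.v 0)) (.v 3)) (.v 1)), (.v 0), (.v 0), [(.v 1)]⟩,
  ⟨0, 96, 0, (.v 0), (.v 0), (.v 0), (.m (.m (.m (.v 1) (.v 0)) (.v 1)) (.v 3)), (.v 0), (.v 0), [(.v 2)]⟩,
  ⟨120, 0, 0, (.v 0), (.v 0), (.v 0), (.m (.m (.m (.v 1) (.v 0)) (.v 3)) (.v 1)), (.v 0), (.v 0), [(.v 2)]⟩,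
  ⟨24, 0, 0, (.v 0), (.v 0), (.v 0), (.m (.m (.v 3) (.v 1)) (.m (.v 1) (.v 0))), (.v 0), (.v 0), [(.v 2)]⟩,
  ⟨384, 0, 0, (.v 0), (.v 0), (.v 0), (.m (.m (.m (.v 1) (.v 0)) (.v 1)) (.v 2)), (.v 0), (.v 0), [(.v 3)]⟩,
  ⟨0, 72, 0, (.v 0), (.v 0), (.v 0), (.m (.m (.m (.v 1) (.v 0)) (.v 2)) (.v 1)), (.v 0), (.v 0), [(.v 3)]⟩,
  ⟨0, 96, 0, (.v 0), (.v 0), (.v 0), (.m (.m (.v 2) (.v 1)) (.m (.v 1) (.v 0))), (.v 0), (.v 0), [(.v 3)]⟩,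
  ⟨0, 120, 0, (.v 0), (.v 0), (.v 0), (.m (.m (.m (.m (.v 1) (.v 0)) (.v 1)) (.v 3)) (.v 2)), (.v 0), (.v 0), []⟩,
  ⟨0, 168, 0, (.v 0), (.v 0), (.v 0), (.m (.m (.m (.v 3) (.v 1)) (.m (.v 1) (.v 0))) (.v 2)), (.v 0), (.v 0), []⟩,
  ⟨96, 0, 0, (.v 0), (.v 0), (.v 0), (.m (.m (.m (.m (.v 1) (.v 0)) (.v 2)) (.v 3)) (.v 1)), (.v 0), (.v 0), []⟩,
  ⟨96, 0, 0, (.v 0), (.v 0), (.v 0), (.m (.m (.m (.v 3) (.v 2)) (.m (.v 1) (.v 0))) (.v 1)), (.v 0), (.v 0), []⟩,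
  ⟨48, 0, 0, (.v 0), (.v 0), (.v 0), (.m (.m (.m (.v 1) (.v 0)) (.v 2)) (.m (.v 3) (.v 1))), (.v 0), (.v 0), []⟩,
  ⟨96, 0, 0, (.v 0), (.v 0), (.v 0), (.m (.m (.m (.v 1) (.v 0)) (.v 3)) (.m (.v 2) (.v 1))), (.v 0), (.v 0), []⟩,
  ⟨696, 0, 0, (.v 0), (.v 0), (.v 1), (.m (.v 3) (.v 2)), (.v 0), (.v 0), [(.v 0), (.v 0), (.v 1)]⟩,
  ⟨48, 0, 0, (.v 0), (.v 0), (.v 1), (.m (.v 3) (.v 2)), (.v 0), (.v 0), [(.v 0), (.v 1), (.v 0)]⟩,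
  ⟨288, 0, 0, (.v 0), (.v 0), (.v 1), (.m (.v 3) (.v 2)), (.v 0), (.v 0), [(.v 1), (.v 0), (.v 0)]⟩,
  ⟨0, 96, 0, (.v 0), (.v 0), (.v 1), (.m (.v 3) (.v 2)), (.v 0), (.v 0), [(.m (.m (.v 1) (.v 0)) (.v 0))]⟩,
  ⟨192, 0, 0, (.v 0), (.v 0), (.v 1), (.m (.v 3) (.v 0)), (.v 0), (.v 0), [(.v 0), (.v 1), (.v 2)]⟩,
  ⟨216, 0, 0, (.v 0), (.v 0), (.v 1), (.m (.v 3) (.v 0)), (.v 0), (.v 0), [(.v 0), (.v 2), (.v 1)]⟩,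
  ⟨216, 0, 0, (.v 0), (.v 0), (.v 1), (.m (.v 3) (.v 0)), (.v 0), (.v 0), [(.v 2), (.v 0), (.v 1)]⟩,
  ⟨0, 48, 0, (.v 0), (.v 0), (.v 1), (.m (.v 3) (.v 0)), (.v 0), (.v 0), [(.v 2), (.v 1), (.v 0)]⟩,
  ⟨264, 0, 0, (.v 0), (.v 0), (.v 1), (.m (.v 3) (.v 0)), (.v 0), (.v 0), [(.m (.v 2) (.v 0)), (.v 1)]⟩,
  ⟨264, 0, 0, (.v 0), (.v 0), (.v 1), (.m (.v 3) (.v 0)), (.v 0), (.v 0), [(.m (.v 1) (.v 0)), (.v 2)]⟩,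
  ⟨144, 0, 0, (.v 0), (.v 0), (.v 1), (.m (.v 3) (.v 0)), (.v 0), (.v 0), [(.m (.m (.v 1) (.v 0)) (.v 2))]⟩,
  ⟨264, 0, 0, (.v 0), (.v 0), (.v 1), (.m (.v 3) (.v 0)), (.v 0), (.v 0), [(.m (.m (.v 2) (.v 0)) (.v 1))]⟩,
  ⟨120, 0, 0, (.v 0), (.v 0), (.v 1), (.m (.v 3) (.v 0)), (.v 0), (.v 0), [(.m (.m (.v 2) (.v 1)) (.v 0))]⟩,
  ⟨0, 528, 0, (.v 0), (.v 0), (.v 1), (.m (.v 2) (.v 0)), (.v 0), (.v 0), [(.v 0), (.v 1), (.v 3)]⟩,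
  ⟨0, 552, 0, (.v 0), (.v 0), (.v 1), (.m (.v 2) (.v 0)), (.v 0), (.v 0), [(.v 0), (.v 3), (.v 1)]⟩,
  ⟨192, 0, 0, (.v 0), (.v 0), (.v 1), (.m (.v 2) (.v 0)), (.v 0), (.v 0), [(.v 0), (.m (.v 3) (.v 1))]⟩,
  ⟨0, 192, 0, (.v 0), (.v 0), (.v 1), (.m (.v 2) (.v 0)), (.v 0), (.v 0), [(.v 1), (.v 3), (.v 0)]⟩,
  ⟨0, 192, 0, (.v 0), (.v 0), (.v 1), (.m (.v 2) (.v 0)), (.v 0), (.v 0), [(.v 3), (.v 1), (.v 0)]⟩,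
  ⟨216, 0, 0, (.v 0), (.v 0), (.v 1), (.m (.v 2) (.v 0)), (.v 0), (.v 0), [(.m (.v 3) (.v 0)), (.v 1)]⟩,
  ⟨216, 0, 0, (.v 0), (.v 0), (.v 1), (.m (.v 2) (.v 0)), (.v 0), (.v 0), [(.m (.v 1) (.v 0)), (.v 3)]⟩,
  ⟨192, 0, 0, (.v 0), (.v 0), (.v 1), (.m (.v 2) (.v 0)), (.v 0), (.v 0), [(.m (.m (.v 1) (.v 0)) (.v 3))]⟩,
  ⟨216, 0, 0, (.v 0), (.v 0), (.v 1), (.m (.v 2) (.v 0)), (.v 0), (.v 0), [(.m (.m (.v 3) (.v 0)) (.v 1))]⟩,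
  ⟨120, 0, 0, (.v 0), (.v 0), (.v 1), (.m (.v 2) (.v 0)), (.v 0), (.v 0), [(.m (.m (.v 3) (.v 1)) (.v 0))]⟩,
  ⟨0, 240, 0, (.v 0), (.v 0), (.v 1), (.m (.m (.v 2) (.v 1)) (.v 3)), (.v 0), (.v 0), [(.v 0), (.v 0)]⟩,
  ⟨0, 216, 0, (.v 0), (.v 0), (.v 1), (.m (.m (.v 2) (.v 0)) (.v 3)), (.v 0), (.v 0), [(.v 0), (.v 1)]⟩,
  ⟨144, 0, 0, (.v 0), (.v 0), (.v 1), (.m (.m (.v 2) (.v 0)) (.v 3)), (.v 0), (.v 0), [(.v 1), (.v 0)]⟩,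
  ⟨0, 48, 0, (.v 0), (.v 0), (.v 1), (.m (.m (.v 2) (.v 0)) (.v 3)), (.v 0), (.v 0), [(.m (.v 1) (.v 0))]⟩,
  ⟨96, 0, 0, (.v 0), (.v 0), (.v 1), (.m (.m (.v 1) (.v 0)) (.v 3)), (.v 0), (.v 0), [(.v 2), (.v 0)]⟩,
  ⟨144, 0, 0, (.v 0), (.v 0), (.v 1), (.m (.m (.v 1) (.v 0)) (.v 3)), (.v 0), (.v 0), [(.m (.v 2) (.v 0))]⟩,
  ⟨0, 144, 0, (.v 0), (.v 0), (.v 1), (.m (.m (.v 1) (.v 0)) (.v 2)), (.v 0), (.v 0), [(.v 3), (.v 0)]⟩,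
  ⟨144, 0, 0, (.v 0), (.v 0), (.v 1), (.m (.m (.v 1) (.v 0)) (.v 2)), (.v 0), (.v 0), [(.m (.v 3) (.v 0))]⟩,
  ⟨0, 72, 0, (.v 0), (.v 0), (.v 1), (.m (.m (.v 1) (.v 0)) (.v 0)), (.v 0), (.v 0), [(.v 2), (.v 3)]⟩,
  ⟨0, 72, 0, (.v 0), (.v 0), (.v 1), (.m (.m (.v 1) (.v 0)) (.v 0)), (.v 0), (.v 0), [(.v 3), (.v 2)]⟩,
  ⟨336, 0, 0, (.v 0), (.v 0), (.v 1), (.m (.m (.m (.v 1) (.v 0)) (.v 2)) (.v 3)), (.v 0), (.v 0), [(.v 0)]⟩,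
  ⟨192, 0, 0, (.v 0), (.v 0), (.v 1), (.m (.m (.v 3) (.v 2)) (.m (.v 1) (.v 0))), (.v 0), (.v 0), [(.v 0)]⟩,
  ⟨96, 0, 0, (.v 0), (.v 0), (.v 1), (.m (.m (.m (.v 2) (.v 0)) (.m (.v 1) (.v 0))) (.v 3)), (.v 0), (.v 0), []⟩,
  ⟨144, 0, 0, (.v 0), (.v 0), (.v 1), (.m (.m (.m (.m (.v 1) (.v 0)) (.v 3)) (.v 0)) (.v 2)), (.v 0), (.v 0), []⟩,
  ⟨0, 96, 0, (.v 0), (.v 0), (.v 2), (.m (.v 3) (.v 1)), (.v 0), (.v 0), [(.v 1), (.v 0), (.v 0)]⟩,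
  ⟨144, 0, 0, (.v 0), (.v 0), (.v 2), (.m (.v 3) (.v 1)), (.v 0), (.v 0), [(.m (.m (.v 1) (.v 0)) (.v 0))]⟩,
  ⟨96, 0, 0, (.v 0), (.v 0), (.v 2), (.m (.v 3) (.v 1)), (.v 0), (.v 0), [(.m (.m (.v 0) (.v 0)) (.v 1))]⟩,
  ⟨96, 0, 0, (.v 0), (.v 0), (.v 2), (.m (.v 3) (.v 1)), (.v 0), (.v 0), [(.m (.m (.v 0) (.v 1)) (.v 0))]⟩,
  ⟨72, 0, 0, (.v 0), (.v 0), (.v 2), (.m (.v 3) (.v 0)), (.v 0), (.v 0), [(.v 0), (.v 1), (.v 1)]⟩,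
  ⟨216, 0, 0, (.v 0), (.v 0), (.v 2), (.m (.v 3) (.v 0)), (.v 0), (.v 0), [(.v 1), (.v 0), (.v 1)]⟩,
  ⟨192, 0, 0, (.v 0), (.v 0), (.v 2), (.m (.v 3) (.v 0)), (.v 0), (.v 0), [(.v 1), (.v 1), (.v 0)]⟩,
  ⟨456, 0, 0, (.v 0), (.v 0), (.v 2), (.m (.v 3) (.v 0)), (.v 0), (.v 0), [(.m (.v 1) (.v 0)), (.v 1)]⟩,
  ⟨456, 0, 0, (.v 0), (.v 0), (.v 2), (.m (.v 3) (.v 0)), (.v 0), (.v 0), [(.m (.m (.v 1) (.v 0)) (.v 1))]⟩,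
  ⟨96, 0, 0, (.v 0), (.v 0), (.v 2), (.m (.v 3) (.v 0)), (.v 0), (.v 0), [(.m (.m (.v 0) (.v 1)) (.v 1))]⟩,
  ⟨240, 0, 0, (.v 0), (.v 0), (.v 2), (.m (.m (.v 1) (.v 0)) (.v 3)), (.v 0), (.v 0), [(.v 1), (.v 0)]⟩,
  ⟨0, 96, 0, (.v 0), (.v 0), (.v 2), (.m (.m (.v 1) (.v 0)) (.v 3)), (.v 0), (.v 0), [(.m (.v 1) (.v 0))]⟩,
  ⟨0, 528, 0, (.v 0), (.v 0), (.v 2), (.m (.m (.v 1) (.v 0)) (.v 0)), (.v 0), (.v 0), [(.v 1), (.v 3)]⟩,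
  ⟨0, 552, 0, (.v 0), (.v 0), (.v 2), (.m (.m (.v 1) (.v 0)) (.v 0)), (.v 0), (.v 0), [(.v 3), (.v 1)]⟩,
  ⟨192, 0, 0, (.v 0), (.v 0), (.v 2), (.m (.m (.v 1) (.v 0)) (.v 0)), (.v 0), (.v 0), [(.m (.v 3) (.v 1))]⟩,
  ⟨0, 96, 0, (.v 0), (.v 0), (.v 2), (.m (.m (.m (.v 1) (.v 0)) (.v 1)) (.v 3)), (.v 0), (.v 0), [(.v 0)]⟩,
  ⟨0, 432, 0, (.v 0), (.v 0), (.v 2), (.m (.m (.m (.v 1) (.v 0)) (.v 0)) (.v 3)), (.v 0), (.v 0), [(.v 1)]⟩,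
  ⟨144, 0, 0, (.v 0), (.v 0), (.v 2), (.m (.m (.m (.m (.v 1) (.v 0)) (.v 3)) (.v 0)) (.v 1)), (.v 0), (.v 0), []⟩,
  ⟨0, 144, 0, (.v 0), (.v 0), (.v 2), (.m (.m (.m (.m (.v 1) (.v 0)) (.v 1)) (.v 3)) (.v 0)), (.v 0), (.v 0), []⟩,
  ⟨0, 240, 0, (.v 0), (.v 0), (.v 2), (.m (.m (.m (.v 3) (.v 1)) (.m (.v 1) (.v 0))) (.v 0)), (.v 0), (.v 0), []⟩,
  ⟨72, 0, 0, (.v 0), (.v 0), (.v 3), (.m (.m (.v 2) (.v 0)) (.v 0)), (.v 0), (.v 0), [(.v 1), (.v 1)]⟩,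
  ⟨192, 0, 0, (.v 0), (.v 0), (.v 3), (.m (.m (.v 1) (.v 0)) (.v 0)), (.v 0), (.v 0), [(.v 1), (.v 2)]⟩,
  ⟨264, 0, 0, (.v 0), (.v 0), (.v 3), (.m (.m (.v 1) (.v 0)) (.v 0)), (.v 0), (.v 0), [(.v 2), (.v 1)]⟩,
  ⟨144, 0, 0, (.v 0), (.v 0), (.v 3), (.m (.m (.m (.m (.v 1) (.v 0)) (.v 2)) (.v 0)) (.v 1)), (.v 0), (.v 0), []⟩,
  ⟨96, 0, 0, (.v 0), (.v 0), (.m (.v 2) (.v 0)), (.m (.m (.v 3) (.v 1)) (.v 1)), (.v 0), (.v 0), [(.v 0)]⟩,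
  ⟨0, 624, 0, (.v 0), (.v 0), (.m (.m (.v 3) (.v 2)) (.v 0)), (.m (.m (.v 1) (.v 0)) (.v 1)), (.v 0), (.v 0), []⟩,
  ⟨96, 0, 0, (.v 0), (.v 0), (.m (.m (.v 3) (.v 1)) (.v 0)), (.m (.m (.v 2) (.v 0)) (.v 1)), (.v 0), (.v 0), []⟩,
  ⟨0, 252, 0, (.v 0), (.v 1), (.v 1), (.v 2), (.v 0), (.v 0), [(.v 0), (.v 0), (.v 0), (.v 3)]⟩,
  ⟨144, 0, 0, (.v 0), (.v 1), (.v 1), (.v 2), (.v 0), (.v 0), [(.v 0), (.v 0), (.v 3), (.v 0)]⟩,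
  ⟨48, 0, 0, (.v 0), (.v 1), (.v 1), (.v 2), (.v 0), (.v 0), [(.v 0), (.v 3), (.v 0), (.v 0)]⟩,
  ⟨108, 0, 0, (.v 0), (.v 1), (.v 1), (.v 2), (.v 0), (.v 0), [(.v 0), (.m (.m (.v 3) (.v 0)) (.v 0))]⟩,
  ⟨168, 0, 0, (.v 0), (.v 1), (.v 1), (.v 2), (.v 0), (.v 0), [(.v 3), (.v 0), (.v 0), (.v 0)]⟩,
  ⟨0, 12, 0, (.v 0), (.v 1), (.v 1), (.v 2), (.v 0), (.v 0), [(.v 3), (.m (.m (.v 0) (.v 0)) (.v 0))]⟩,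
  ⟨96, 0, 0, (.v 0), (.v 1), (.v 1), (.v 2), (.v 0), (.v 0), [(.m (.m (.v 3) (.v 0)) (.v 0)), (.v 0)]⟩,
  ⟨0, 180, 0, (.v 0), (.v 1), (.v 1), (.v 3), (.v 0), (.v 0), [(.v 0), (.v 0), (.v 0), (.v 2)]⟩,
  ⟨24, 0, 0, (.v 0), (.v 1), (.v 1), (.v 3), (.v 0), (.v 0), [(.v 0), (.v 2), (.v 0), (.v 0)]⟩,
  ⟨144, 0, 0, (.v 0), (.v 1), (.v 1), (.v 3), (.v 0), (.v 0), [(.v 0), (.m (.v 2) (.v 0)), (.v 0)]⟩,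
  ⟨144, 0, 0, (.v 0), (.v 1), (.v 1), (.v 3), (.v 0), (.v 0), [(.v 0), (.m (.m (.v 2) (.v 0)) (.v 0))]⟩,
  ⟨96, 0, 0, (.v 0), (.v 1), (.v 1), (.v 3), (.v 0), (.v 0), [(.v 2), (.v 0), (.v 0), (.v 0)]⟩,
  ⟨48, 0, 0, (.v 0), (.v 1), (.v 1), (.v 3), (.v 0), (.v 0), [(.m (.v 2) (.v 0)), (.v 0), (.v 0)]⟩,
  ⟨144, 0, 0, (.v 0), (.v 1), (.v 1), (.m (.v 3) (.v 2)), (.v 0), (.v 0), [(.v 0), (.v 0), (.v 0)]⟩,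
  ⟨0, 252, 0, (.v 0), (.v 1), (.v 1), (.m (.v 3) (.v 0)), (.v 0), (.v 0), [(.v 0), (.v 0), (.v 2)]⟩,
  ⟨0, 192, 0, (.v 0), (.v 1), (.v 1), (.m (.v 3) (.v 0)), (.v 0), (.v 0), [(.v 0), (.v 2), (.v 0)]⟩,
  ⟨96, 0, 0, (.v 0), (.v 1), (.v 1), (.m (.v 3) (.v 0)), (.v 0), (.v 0), [(.m (.v 2) (.v 0)), (.v 0)]⟩,
  ⟨96, 0, 0, (.v 0), (.v 1), (.v 1), (.m (.v 3) (.v 0)), (.v 0), (.v 0), [(.m (.m (.v 2) (.v 0)) (.v 0))]⟩,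
  ⟨204, 0, 0, (.v 0), (.v 1), (.v 1), (.m (.v 2) (.v 0)), (.v 0), (.v 0), [(.v 0), (.v 0), (.v 3)]⟩,
  ⟨168, 0, 0, (.v 0), (.v 1), (.v 1), (.m (.v 2) (.v 0)), (.v 0), (.v 0), [(.v 0), (.v 3), (.v 0)]⟩,
  ⟨216, 0, 0, (.v 0), (.v 1), (.v 1), (.m (.v 2) (.v 0)), (.v 0), (.v 0), [(.v 3), (.v 0), (.v 0)]⟩,
  ⟨0, 96, 0, (.v 0), (.v 1), (.v 1), (.m (.v 2) (.v 0)), (.v 0), (.v 0), [(.m (.v 3) (.v 0)), (.v 0)]⟩,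
  ⟨72, 0, 0, (.v 0), (.v 1), (.v 1), (.m (.m (.v 2) (.v 0)) (.v 3)), (.v 0), (.v 0), [(.v 0), (.v 0)]⟩,
  ⟨120, 0, 0, (.v 0), (.v 1), (.v 1), (.m (.m (.v 3) (.v 0)) (.v 2)), (.v 0), (.v 0), [(.v 0), (.v 0)]⟩,
  ⟨0, 96, 0, (.v 0), (.v 1), (.v 1), (.m (.m (.v 3) (.v 0)) (.v 0)), (.v 0), (.v 0), [(.v 0), (.v 2)]⟩,
  ⟨0, 168, 0, (.v 0), (.v 1), (.v 1), (.m (.m (.v 3) (.v 0)) (.v 0)), (.v 0), (.v 0), [(.v 2), (.v 0)]⟩,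
  ⟨0, 24, 0, (.v 0), (.v 1), (.v 1), (.m (.m (.v 3) (.v 0)) (.v 0)), (.v 0), (.v 0), [(.m (.v 2) (.v 0))]⟩,
  ⟨336, 0, 0, (.v 0), (.v 1), (.v 1), (.m (.m (.v 2) (.v 0)) (.v 0)), (.v 0), (.v 0), [(.v 0), (.v 3)]⟩,
  ⟨408, 0, 0, (.v 0), (.v 1), (.v 1), (.m (.m (.v 2) (.v 0)) (.v 0)), (.v 0), (.v 0), [(.v 3), (.v 0)]⟩,
  ⟨0, 168, 0, (.v 0), (.v 1), (.v 1), (.m (.m (.v 2) (.v 0)) (.v 0)), (.v 0), (.v 0), [(.m (.v 3) (.v 0))]⟩,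
  ⟨0, 96, 0, (.v 0), (.v 1), (.v 1), (.m (.m (.m (.v 2) (.v 0)) (.v 3)) (.v 0)), (.v 0), (.v 0), [(.v 0)]⟩,
  ⟨96, 0, 0, (.v 0), (.v 1), (.v 1), (.m (.m (.v 3) (.v 0)) (.m (.v 2) (.v 0))), (.v 0), (.v 0), [(.v 0)]⟩,
  ⟨156, 0, 0, (.v 0), (.v 1), (.v 1), (.m (.m (.m (.m (.v 2) (.v 0)) (.v 0)) (.v 3)) (.v 0)), (.v 0), (.v 0), []⟩,
  ⟨228, 0, 0, (.v 0), (.v 1), (.v 1), (.m (.m (.m (.m (.v 3) (.v 0)) (.v 0)) (.v 2)) (.v 0)), (.v 0), (.v 0), []⟩,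
  ⟨0, 72, 0, (.v 0), (.v 1), (.v 1), (.m (.m (.m (.v 3) (.v 0)) (.m (.v 2) (.v 0))) (.v 0)), (.v 0), (.v 0), []⟩,
  ⟨0, 48, 0, (.v 0), (.v 1), (.v 2), (.m (.v 3) (.v 1)), (.v 0), (.v 0), [(.v 0), (.v 0), (.v 0)]⟩,
  ⟨216, 0, 0, (.v 0), (.v 1), (.v 2), (.m (.v 3) (.v 0)), (.v 0), (.v 0), [(.v 0), (.v 0), (.v 1)]⟩,
  ⟨192, 0, 0, (.v 0), (.v 1), (.v 2), (.m (.v 3) (.v 0)), (.v 0), (.v 0), [(.v 0), (.v 1), (.v 0)]⟩,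
  ⟨192, 0, 0, (.v 0), (.v 1), (.v 2), (.m (.v 3) (.v 0)), (.v 0), (.v 0), [(.v 1), (.v 0), (.v 0)]⟩,
  ⟨336, 0, 0, (.v 0), (.v 1), (.v 2), (.m (.v 1) (.v 0)), (.v 0), (.v 0), [(.v 0), (.v 0), (.v 3)]⟩,
  ⟨480, 0, 0, (.v 0), (.v 1), (.v 2), (.m (.v 1) (.v 0)), (.v 0), (.v 0), [(.v 0), (.v 3), (.v 0)]⟩,
  ⟨144, 0, 0, (.v 0), (.v 1), (.v 2), (.m (.v 1) (.v 0)), (.v 0), (.v 0), [(.v 0), (.m (.v 3) (.v 0))]⟩,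
  ⟨624, 0, 0, (.v 0), (.v 1), (.v 2), (.m (.v 1) (.v 0)), (.v 0), (.v 0), [(.v 3), (.v 0), (.v 0)]⟩,
  ⟨0, 24, 0, (.v 0), (.v 1), (.v 2), (.m (.v 1) (.v 0)), (.v 0), (.v 0), [(.m (.m (.v 3) (.v 0)) (.v 0))]⟩,
  ⟨384, 0, 0, (.v 0), (.v 1), (.v 2), (.m (.m (.v 1) (.v 0)) (.v 3)), (.v 0), (.v 0), [(.v 0), (.v 0)]⟩,
  ⟨0, 192, 0, (.v 0), (.v 1), (.v 2), (.m (.m (.v 3) (.v 0)) (.v 0)), (.v 0), (.v 0), [(.v 1), (.v 0)]⟩,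
  ⟨144, 0, 0, (.v 0), (.v 1), (.v 2), (.m (.m (.m (.v 1) (.v 0)) (.v 0)) (.v 3)), (.v 0), (.v 0), [(.v 0)]⟩,
  ⟨96, 0, 0, (.v 0), (.v 1), (.v 2), (.m (.m (.m (.v 1) (.v 0)) (.v 3)) (.v 0)), (.v 0), (.v 0), [(.v 0)]⟩,
  ⟨144, 0, 0, (.v 0), (.v 1), (.v 2), (.m (.m (.v 3) (.v 0)) (.m (.v 1) (.v 0))), (.v 0), (.v 0), [(.v 0)]⟩,
  ⟨312, 0, 0, (.v 0), (.v 1), (.v 2), (.m (.m (.m (.m (.v 1) (.v 0)) (.v 0)) (.v 3)) (.v 0)), (.v 0), (.v 0), []⟩,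
  ⟨264, 0, 0, (.v 0), (.v 1), (.v 2), (.m (.m (.m (.m (.v 3) (.v 0)) (.v 0)) (.v 1)) (.v 0)), (.v 0), (.v 0), []⟩,
  ⟨0, 240, 0, (.v 0), (.v 1), (.v 3), (.m (.v 2) (.v 1)), (.v 0), (.v 0), [(.v 0), (.v 0), (.v 0)]⟩,
  ⟨96, 0, 0, (.v 0), (.v 1), (.v 3), (.m (.v 2) (.v 0)), (.v 0), (.v 0), [(.v 1), (.v 0), (.v 0)]⟩,
  ⟨0, 48, 0, (.v 0), (.v 1), (.v 3), (.m (.v 2) (.v 0)), (.v 0), (.v 0), [(.m (.m (.v 1) (.v 0)) (.v 0))]⟩,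
  ⟨192, 0, 0, (.v 0), (.v 1), (.v 3), (.m (.v 1) (.v 0)), (.v 0), (.v 0), [(.v 0), (.v 0), (.v 2)]⟩,
  ⟨48, 0, 0, (.v 0), (.v 1), (.v 3), (.m (.v 1) (.v 0)), (.v 0), (.v 0), [(.v 0), (.v 2), (.v 0)]⟩,
  ⟨144, 0, 0, (.v 0), (.v 1), (.v 3), (.m (.v 1) (.v 0)), (.v 0), (.v 0), [(.v 0), (.m (.v 2) (.v 0))]⟩,
  ⟨240, 0, 0, (.v 0), (.v 1), (.v 3), (.m (.v 1) (.v 0)), (.v 0), (.v 0), [(.v 2), (.v 0), (.v 0)]⟩,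
  ⟨0, 48, 0, (.v 0), (.v 1), (.v 3), (.m (.v 1) (.v 0)), (.v 0), (.v 0), [(.m (.v 2) (.v 0)), (.v 0)]⟩,
  ⟨240, 0, 0, (.v 0), (.v 1), (.v 3), (.m (.m (.v 1) (.v 0)) (.v 2)), (.v 0), (.v 0), [(.v 0), (.v 0)]⟩,
  ⟨216, 0, 0, (.v 0), (.v 1), (.v 3), (.m (.m (.v 2) (.v 0)) (.v 0)), (.v 0), (.v 0), [(.v 0), (.v 1)]⟩,
  ⟨864, 0, 0, (.v 0), (.v 1), (.v 3), (.m (.m (.v 2) (.v 0)) (.v 0)), (.v 0), (.v 0), [(.v 1), (.v 0)]⟩,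
  ⟨192, 0, 0, (.v 0), (.v 1), (.v 3), (.m (.m (.m (.v 2) (.v 0)) (.v 0)) (.v 1)), (.v 0), (.v 0), [(.v 0)]⟩,
  ⟨192, 0, 0, (.v 0), (.v 1), (.v 3), (.m (.m (.m (.v 1) (.v 0)) (.v 2)) (.v 0)), (.v 0), (.v 0), [(.v 0)]⟩,
  ⟨0, 48, 0, (.v 0), (.v 1), (.v 3), (.m (.m (.v 2) (.v 0)) (.m (.v 1) (.v 0))), (.v 0), (.v 0), [(.v 0)]⟩,
  ⟨264, 0, 0, (.v 0), (.v 1), (.v 3), (.m (.m (.m (.m (.v 1) (.v 0)) (.v 0)) (.v 2)) (.v 0)), (.v 0), (.v 0), []⟩,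
  ⟨216, 0, 0, (.v 0), (.v 1), (.v 3), (.m (.m (.m (.m (.v 2) (.v 0)) (.v 0)) (.v 1)) (.v 0)), (.v 0), (.v 0), []⟩,
  ⟨144, 0, 0, (.v 0), (.v 1), (.v 3), (.m (.m (.m (.v 2) (.v 0)) (.m (.v 1) (.v 0))) (.v 0)), (.v 0), (.v 0), []⟩,
  ⟨96, 0, 0, (.v 0), (.v 1), (.m (.v 3) (.v 1)), (.m (.v 2) (.v 0)), (.v 0), (.v 0), [(.v 0), (.v 0)]⟩,
  ⟨0, 96, 0, (.v 0), (.v 1), (.m (.v 3) (.v 1)), (.m (.m (.v 2) (.v 0)) (.v 0)), (.v 0), (.v 0), [(.v 0)]⟩,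
  ⟨0, 120, 0, (.v 0), (.v 1), (.m (.v 3) (.v 0)), (.m (.v 1) (.v 0)), (.v 0), (.v 0), [(.v 0), (.v 2)]⟩,
  ⟨0, 216, 0, (.v 0), (.v 1), (.m (.v 3) (.v 0)), (.m (.m (.v 2) (.v 0)) (.v 0)), (.v 0), (.v 0), [(.v 1)]⟩,
  ⟨24, 0, 0, (.v 0), (.v 1), (.m (.v 2) (.v 0)), (.m (.v 1) (.v 0)), (.v 0), (.v 0), [(.v 0), (.v 3)]⟩,
  ⟨144, 0, 0, (.v 0), (.v 1), (.m (.v 2) (.v 0)), (.m (.v 1) (.v 0)), (.v 0), (.v 0), [(.v 3), (.v 0)]⟩,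
  ⟨144, 0, 0, (.v 0), (.v 1), (.m (.v 2) (.v 0)), (.m (.m (.v 1) (.v 0)) (.v 3)), (.v 0), (.v 0), [(.v 0)]⟩,
  ⟨24, 0, 0, (.v 0), (.v 1), (.m (.v 2) (.v 0)), (.m (.m (.v 3) (.v 0)) (.v 0)), (.v 0), (.v 0), [(.v 1)]⟩,
  ⟨48, 0, 0, (.v 0), (.v 1), (.m (.v 2) (.v 0)), (.m (.m (.m (.v 1) (.v 0)) (.v 0)) (.v 3)), (.v 0), (.v 0), []⟩,
  ⟨48, 0, 0, (.v 0), (.v 1), (.m (.v 2) (.v 0)), (.m (.m (.m (.v 1) (.v 0)) (.v 3)) (.v 0)), (.v 0), (.v 0), []⟩,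
  ⟨0, 48, 0, (.v 0), (.v 1), (.m (.v 1) (.v 0)), (.m (.m (.v 2) (.v 0)) (.v 3)), (.v 0), (.v 0), [(.v 0)]⟩,
  ⟨144, 0, 0, (.v 0), (.v 1), (.m (.v 1) (.v 0)), (.m (.m (.v 3) (.v 0)) (.v 0)), (.v 0), (.v 0), [(.v 2)]⟩,
  ⟨288, 0, 0, (.v 0), (.v 1), (.m (.v 1) (.v 0)), (.m (.m (.v 2) (.v 0)) (.v 0)), (.v 0), (.v 0), [(.v 3)]⟩,
  ⟨144, 0, 0, (.v 0), (.v 1), (.m (.v 1) (.v 0)), (.m (.m (.m (.v 2) (.v 0)) (.v 0)) (.v 3)), (.v 0), (.v 0), []⟩,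
  ⟨144, 0, 0, (.v 0), (.v 1), (.m (.v 1) (.v 0)), (.m (.m (.m (.v 2) (.v 0)) (.v 3)) (.v 0)), (.v 0), (.v 0), []⟩,
  ⟨96, 0, 0, (.v 0), (.v 1), (.m (.m (.v 2) (.v 0)) (.v 3)), (.m (.m (.v 1) (.v 0)) (.v 0)), (.v 0), (.v 0), []⟩,
  ⟨0, 96, 0, (.v 0), (.v 1), (.m (.m (.v 3) (.v 2)) (.v 0)), (.m (.m (.v 1) (.v 0)) (.v 0)), (.v 0), (.v 0), []⟩,
  ⟨384, 0, 0, (.v 0), (.v 1), (.m (.m (.v 1) (.v 0)) (.v 3)), (.m (.m (.v 2) (.v 0)) (.v 0)), (.v 0), (.v 0), []⟩,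
  ⟨0, 240, 0, (.v 0), (.v 1), (.m (.m (.v 3) (.v 1)) (.v 0)), (.m (.m (.v 2) (.v 0)) (.v 0)), (.v 0), (.v 0), []⟩,
  ⟨0, 432, 0, (.v 0), (.v 2), (.v 3), (.m (.m (.v 1) (.v 0)) (.v 0)), (.v 0), (.v 0), [(.v 0), (.v 1)]⟩,
  ⟨96, 0, 0, (.v 0), (.v 2), (.v 3), (.m (.m (.v 1) (.v 0)) (.v 0)), (.v 0), (.v 0), [(.v 1), (.v 0)]⟩,
  ⟨0, 144, 0, (.v 0), (.v 2), (.v 3), (.m (.m (.v 1) (.v 0)) (.v 0)), (.v 0), (.v 0), [(.m (.v 1) (.v 0))]⟩,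
  ⟨0, 192, 0, (.v 0), (.v 2), (.v 3), (.m (.m (.m (.v 1) (.v 0)) (.v 0)) (.v 1)), (.v 0), (.v 0), [(.v 0)]⟩,
  ⟨264, 0, 0, (.v 0), (.v 2), (.v 3), (.m (.m (.m (.m (.v 1) (.v 0)) (.v 0)) (.v 1)) (.v 0)), (.v 0), (.v 0), []⟩,
  ⟨48, 0, 0, (.v 0), (.v 2), (.m (.v 3) (.v 1)), (.m (.v 1) (.v 0)), (.v 0), (.v 0), [(.v 0), (.v 0)]⟩,
  ⟨144, 0, 0, (.v 0), (.v 2), (.m (.v 3) (.v 1)), (.m (.m (.v 1) (.v 0)) (.v 0)), (.v 0), (.v 0), [(.v 0)]⟩,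
  ⟨312, 0, 0, (.v 0), (.v 2), (.m (.v 3) (.v 0)), (.m (.m (.v 1) (.v 0)) (.v 0)), (.v 0), (.v 0), [(.v 1)]⟩,
  ⟨0, 60, 0, (.v 0), (.v 2), (.m (.v 1) (.v 0)), (.m (.v 1) (.v 0)), (.v 0), (.v 0), [(.v 0), (.v 3)]⟩,
  ⟨120, 0, 0, (.v 0), (.v 2), (.m (.v 1) (.v 0)), (.m (.v 1) (.v 0)), (.v 0), (.v 0), [(.v 3), (.v 0)]⟩,
  ⟨48, 0, 0, (.v 0), (.v 2), (.m (.v 1) (.v 0)), (.m (.m (.v 1) (.v 0)) (.v 3)), (.v 0), (.v 0), [(.v 0)]⟩,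
  ⟨72, 0, 0, (.v 0), (.v 2), (.m (.v 1) (.v 0)), (.m (.m (.v 3) (.v 0)) (.v 0)), (.v 0), (.v 0), [(.v 1)]⟩,
  ⟨48, 0, 0, (.v 0), (.v 2), (.m (.v 1) (.v 0)), (.m (.m (.m (.v 1) (.v 0)) (.v 3)) (.v 0)), (.v 0), (.v 0), []⟩,
  ⟨0, 48, 0, (.v 0), (.v 2), (.m (.v 1) (.v 0)), (.m (.m (.v 3) (.v 0)) (.m (.v 1) (.v 0))), (.v 0), (.v 0), []⟩,
  ⟨240, 0, 0, (.v 0), (.v 2), (.m (.m (.v 1) (.v 0)) (.v 3)), (.m (.m (.v 1) (.v 0)) (.v 0)), (.v 0), (.v 0), []⟩,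
  ⟨0, 96, 0, (.v 0), (.v 2), (.m (.m (.v 3) (.v 1)) (.v 0)), (.m (.m (.v 1) (.v 0)) (.v 0)), (.v 0), (.v 0), []⟩,
  ⟨48, 0, 0, (.v 0), (.v 2), (.m (.m (.v 1) (.v 0)) (.v 1)), (.m (.m (.v 3) (.v 0)) (.v 0)), (.v 0), (.v 0), []⟩,
  ⟨72, 0, 0, (.v 0), (.v 3), (.m (.v 2) (.v 0)), (.m (.m (.v 1) (.v 0)) (.v 0)), (.v 0), (.v 0), [(.v 1)]⟩,
  ⟨0, 156, 0, (.v 0), (.v 3), (.m (.v 1) (.v 0)), (.m (.v 1) (.v 0)), (.v 0), (.v 0), [(.v 0), (.v 2)]⟩,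
  ⟨144, 0, 0, (.v 0), (.v 3), (.m (.v 1) (.v 0)), (.m (.v 1) (.v 0)), (.v 0), (.v 0), [(.v 2), (.v 0)]⟩,
  ⟨24, 0, 0, (.v 0), (.v 3), (.m (.v 1) (.v 0)), (.m (.v 1) (.v 0)), (.v 0), (.v 0), [(.m (.v 2) (.v 0))]⟩,
  ⟨216, 0, 0, (.v 0), (.v 3), (.m (.v 1) (.v 0)), (.m (.m (.v 2) (.v 0)) (.v 0)), (.v 0), (.v 0), [(.v 1)]⟩,
  ⟨48, 0, 0, (.v 0), (.v 3), (.m (.v 1) (.v 0)), (.m (.m (.m (.v 1) (.v 0)) (.v 2)) (.v 0)), (.v 0), (.v 0), []⟩,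
  ⟨0, 48, 0, (.v 0), (.v 3), (.m (.v 1) (.v 0)), (.m (.m (.v 2) (.v 0)) (.m (.v 1) (.v 0))), (.v 0), (.v 0), []⟩,
  ⟨0, 24, 0, (.v 0), (.v 3), (.m (.m (.v 2) (.v 0)) (.v 1)), (.m (.m (.v 1) (.v 0)) (.v 0)), (.v 0), (.v 0), []⟩,
  ⟨0, 24, 0, (.v 0), (.v 3), (.m (.m (.v 2) (.v 1)) (.v 0)), (.m (.m (.v 1) (.v 0)) (.v 0)), (.v 0), (.v 0), []⟩,
  ⟨312, 0, 0, (.v 0), (.v 3), (.m (.m (.v 1) (.v 0)) (.v 1)), (.m (.m (.v 2) (.v 0)) (.v 0)), (.v 0), (.v 0), []⟩,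
  ⟨0, 144, 0, (.v 0), (.m (.v 3) (.v 1)), (.m (.v 2) (.v 0)), (.m (.m (.v 1) (.v 0)) (.v 0)), (.v 0), (.v 0), []⟩,
  ⟨0, 144, 0, (.v 0), (.m (.v 3) (.v 0)), (.m (.v 2) (.v 0)), (.m (.m (.v 1) (.v 0)) (.v 1)), (.v 0), (.v 0), []⟩,
  ⟨0, 60, 0, (.v 0), (.m (.v 3) (.v 0)), (.m (.v 1) (.v 0)), (.m (.v 1) (.v 0)), (.v 0), (.v 0), [(.v 2)]⟩,
  ⟨144, 0, 0, (.v 0), (.m (.v 3) (.v 0)), (.m (.v 1) (.v 0)), (.m (.m (.v 2) (.v 1)) (.v 0)), (.v 0), (.v 0), []⟩,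
  ⟨0, 36, 0, (.v 0), (.m (.v 2) (.v 0)), (.m (.v 1) (.v 0)), (.m (.v 1) (.v 0)), (.v 0), (.v 0), [(.v 3)]⟩,
  ⟨72, 0, 0, (.v 0), (.m (.v 1) (.v 0)), (.m (.v 1) (.v 0)), (.m (.m (.v 3) (.v 2)) (.v 0)), (.v 0), (.v 0), []⟩,
  ⟨0, 12, 0, (.v 1), (.v 0), (.v 0), (.v 0), (.v 0), (.v 0), [(.v 0), (.v 1), (.v 2), (.v 3)]⟩,
  ⟨0, 12, 0, (.v 1), (.v 0), (.v 0), (.v 0), (.v 0), (.v 0), [(.v 0), (.v 1), (.v 3), (.v 2)]⟩,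
  ⟨0, 88, 0, (.v 1), (.v 0), (.v 0), (.v 0), (.v 0), (.v 0), [(.v 0), (.v 2), (.v 1), (.v 3)]⟩,
  ⟨0, 92, 0, (.v 1), (.v 0), (.v 0), (.v 0), (.v 0), (.v 0), [(.v 0), (.v 2), (.v 3), (.v 1)]⟩,
  ⟨32, 0, 0, (.v 1), (.v 0), (.v 0), (.v 0), (.v 0), (.v 0), [(.v 0), (.v 2), (.m (.v 3) (.v 1))]⟩,
  ⟨32, 0, 0, (.v 1), (.v 0), (.v 0), (.v 0), (.v 0), (.v 0), [(.v 0), (.v 3), (.v 1), (.v 2)]⟩,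
  ⟨44, 0, 0, (.v 1), (.v 0), (.v 0), (.v 0), (.v 0), (.v 0), [(.v 0), (.v 3), (.v 2), (.v 1)]⟩,
  ⟨0, 12, 0, (.v 1), (.v 0), (.v 0), (.v 0), (.v 0), (.v 0), [(.v 1), (.v 0), (.v 2), (.v 3)]⟩,
  ⟨0, 12, 0, (.v 1), (.v 0), (.v 0), (.v 0), (.v 0), (.v 0), [(.v 1), (.v 0), (.v 3), (.v 2)]⟩,
  ⟨16, 0, 0, (.v 1), (.v 0), (.v 0), (.v 0), (.v 0), (.v 0), [(.v 1), (.m (.m (.v 2) (.v 0)) (.v 3))]⟩,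
  ⟨0, 88, 0, (.v 1), (.v 0), (.v 0), (.v 0), (.v 0), (.v 0), [(.v 1), (.m (.m (.v 3) (.v 2)) (.v 0))]⟩,
  ⟨0, 88, 0, (.v 1), (.v 0), (.v 0), (.v 0), (.v 0), (.v 0), [(.v 2), (.v 0), (.v 1), (.v 3)]⟩,
  ⟨0, 92, 0, (.v 1), (.v 0), (.v 0), (.v 0), (.v 0), (.v 0), [(.v 2), (.v 0), (.v 3), (.v 1)]⟩,
  ⟨32, 0, 0, (.v 1), (.v 0), (.v 0), (.v 0), (.v 0), (.v 0), [(.v 2), (.v 0), (.m (.v 3) (.v 1))]⟩,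
  ⟨116, 0, 0, (.v 1), (.v 0), (.v 0), (.v 0), (.v 0), (.v 0), [(.v 2), (.v 3), (.v 0), (.v 1)]⟩,
  ⟨88, 0, 0, (.v 1), (.v 0), (.v 0), (.v 0), (.v 0), (.v 0), [(.v 2), (.v 3), (.v 1), (.v 0)]⟩,
  ⟨0, 40, 0, (.v 1), (.v 0), (.v 0), (.v 0), (.v 0), (.v 0), [(.v 2), (.v 3), (.m (.v 1) (.v 0))]⟩,
  ⟨24, 0, 0, (.v 1), (.v 0), (.v 0), (.v 0), (.v 0), (.v 0), [(.v 2), (.m (.v 3) (.v 1)), (.v 0)]⟩,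
  ⟨52, 0, 0, (.v 1), (.v 0), (.v 0), (.v 0), (.v 0), (.v 0), [(.v 2), (.m (.v 3) (.v 0)), (.v 1)]⟩,
  ⟨40, 0, 0, (.v 1), (.v 0), (.v 0), (.v 0), (.v 0), (.v 0), [(.v 2), (.m (.m (.v 1) (.v 0)) (.v 3))]⟩,
  ⟨0, 16, 0, (.v 1), (.v 0), (.v 0), (.v 0), (.v 0), (.v 0), [(.v 2), (.m (.m (.v 3) (.v 1)) (.v 0))]⟩,
  ⟨32, 0, 0, (.v 1), (.v 0), (.v 0), (.v 0), (.v 0), (.v 0), [(.v 3), (.v 0), (.v 1), (.v 2)]⟩,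
  ⟨44, 0, 0, (.v 1), (.v 0), (.v 0), (.v 0), (.v 0), (.v 0), [(.v 3), (.v 0), (.v 2), (.v 1)]⟩,
  ⟨116, 0, 0, (.v 1), (.v 0), (.v 0), (.v 0), (.v 0), (.v 0), [(.v 3), (.v 2), (.v 0), (.v 1)]⟩,
  ⟨88, 0, 0, (.v 1), (.v 0), (.v 0), (.v 0), (.v 0), (.v 0), [(.v 3), (.v 2), (.v 1), (.v 0)]⟩,
  ⟨0, 40, 0, (.v 1), (.v 0), (.v 0), (.v 0), (.v 0), (.v 0), [(.v 3), (.v 2), (.m (.v 1) (.v 0))]⟩,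
  ⟨12, 0, 0, (.v 1), (.v 0), (.v 0), (.v 0), (.v 0), (.v 0), [(.v 3), (.m (.v 2) (.v 0)), (.v 1)]⟩,
  ⟨4, 0, 0, (.v 1), (.v 0), (.v 0), (.v 0), (.v 0), (.v 0), [(.v 3), (.m (.m (.v 2) (.v 0)) (.v 1))]⟩,
  ⟨28, 0, 0, (.v 1), (.v 0), (.v 0), (.v 0), (.v 0), (.v 0), [(.v 3), (.m (.m (.v 2) (.v 1)) (.v 0))]⟩,
  ⟨24, 0, 0, (.v 1), (.v 0), (.v 0), (.v 0), (.v 0), (.v 0), [(.m (.v 3) (.v 1)), (.v 2), (.v 0)]⟩,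
  ⟨0, 24, 0, (.v 1), (.v 0), (.v 0), (.v 0), (.v 0), (.v 0), [(.m (.v 3) (.v 1)), (.m (.v 2) (.v 0))]⟩,
  ⟨52, 0, 0, (.v 1), (.v 0), (.v 0), (.v 0), (.v 0), (.v 0), [(.m (.v 3) (.v 0)), (.v 2), (.v 1)]⟩,
  ⟨12, 0, 0, (.v 1), (.v 0), (.v 0), (.v 0), (.v 0), (.v 0), [(.m (.v 2) (.v 0)), (.v 3), (.v 1)]⟩,
  ⟨0, 24, 0, (.v 1), (.v 0), (.v 0), (.v 0), (.v 0), (.v 0), [(.m (.v 2) (.v 0)), (.m (.v 3) (.v 1))]⟩,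
  ⟨16, 0, 0, (.v 1), (.v 0), (.v 0), (.v 0), (.v 0), (.v 0), [(.m (.m (.v 2) (.v 0)) (.v 3)), (.v 1)]⟩,
  ⟨0, 88, 0, (.v 1), (.v 0), (.v 0), (.v 0), (.v 0), (.v 0), [(.m (.m (.v 3) (.v 2)) (.v 0)), (.v 1)]⟩,
  ⟨40, 0, 0, (.v 1), (.v 0), (.v 0), (.v 0), (.v 0), (.v 0), [(.m (.m (.v 1) (.v 0)) (.v 3)), (.v 2)]⟩,
  ⟨0, 16, 0, (.v 1), (.v 0), (.v 0), (.v 0), (.v 0), (.v 0), [(.m (.m (.v 3) (.v 1)) (.v 0)), (.v 2)]⟩,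
  ⟨4, 0, 0, (.v 1), (.v 0), (.v 0), (.v 0), (.v 0), (.v 0), [(.m (.m (.v 2) (.v 0)) (.v 1)), (.v 3)]⟩,
  ⟨28, 0, 0, (.v 1), (.v 0), (.v 0), (.v 0), (.v 0), (.v 0), [(.m (.m (.v 2) (.v 1)) (.v 0)), (.v 3)]⟩,
  ⟨0, 48, 0, (.v 1), (.v 0), (.v 0), (.v 0), (.v 0), (.v 0), [(.m (.m (.m (.v 1) (.v 0)) (.v 2)) (.v 3))]⟩,
  ⟨0, 48, 0, (.v 1), (.v 0), (.v 0), (.v 0), (.v 0), (.v 0), [(.m (.m (.m (.v 2) (.v 0)) (.v 1)) (.v 3))]⟩,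
  ⟨0, 48, 0, (.v 1), (.v 0), (.v 0), (.v 0), (.v 0), (.v 0), [(.m (.m (.m (.v 1) (.v 0)) (.v 3)) (.v 2))]⟩,
  ⟨0, 48, 0, (.v 1), (.v 0), (.v 0), (.v 0), (.v 0), (.v 0), [(.m (.m (.m (.v 3) (.v 0)) (.v 1)) (.v 2))]⟩,
  ⟨0, 12, 0, (.v 1), (.v 0), (.v 0), (.v 0), (.v 0), (.v 0), [(.m (.m (.m (.v 2) (.v 0)) (.v 3)) (.v 1))]⟩,
  ⟨0, 36, 0, (.v 1), (.v 0), (.v 0), (.v 0), (.v 0), (.v 0), [(.m (.m (.v 3) (.v 1)) (.m (.v 2) (.v 0)))]⟩,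
  ⟨48, 0, 0, (.v 1), (.v 0), (.v 0), (.v 0), (.v 0), (.v 0), [(.m (.m (.v 3) (.v 0)) (.m (.v 2) (.v 1)))]⟩,
  ⟨36, 0, 0, (.v 1), (.v 0), (.v 0), (.v 1), (.v 0), (.v 0), [(.v 0), (.v 0), (.v 2), (.v 3)]⟩,
  ⟨36, 0, 0, (.v 1), (.v 0), (.v 0), (.v 1), (.v 0), (.v 0), [(.v 0), (.v 0), (.v 3), (.v 2)]⟩,
  ⟨0, 96, 0, (.v 1), (.v 0), (.v 0), (.v 1), (.v 0), (.v 0), [(.v 0), (.v 2), (.v 0), (.v 3)]⟩,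
  ⟨0, 192, 0, (.v 1), (.v 0), (.v 0), (.v 1), (.v 0), (.v 0), [(.v 0), (.v 2), (.v 3), (.v 0)]⟩,
  ⟨0, 96, 0, (.v 1), (.v 0), (.v 0), (.v 1), (.v 0), (.v 0), [(.v 0), (.v 3), (.v 0), (.v 2)]⟩,
  ⟨0, 192, 0, (.v 1), (.v 0), (.v 0), (.v 1), (.v 0), (.v 0), [(.v 0), (.v 3), (.v 2), (.v 0)]⟩,
  ⟨0, 132, 0, (.v 1), (.v 0), (.v 0), (.v 1), (.v 0), (.v 0), [(.v 0), (.m (.v 3) (.v 0)), (.v 2)]⟩,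
  ⟨0, 132, 0, (.v 1), (.v 0), (.v 0), (.v 1), (.v 0), (.v 0), [(.v 0), (.m (.v 2) (.v 0)), (.v 3)]⟩,
  ⟨0, 132, 0, (.v 1), (.v 0), (.v 0), (.v 1), (.v 0), (.v 0), [(.v 0), (.m (.m (.v 2) (.v 0)) (.v 3))]⟩,
  ⟨0, 132, 0, (.v 1), (.v 0), (.v 0), (.v 1), (.v 0), (.v 0), [(.v 0), (.m (.m (.v 3) (.v 0)) (.v 2))]⟩,
  ⟨0, 216, 0, (.v 1), (.v 0), (.v 0), (.v 1), (.v 0), (.v 0), [(.v 0), (.m (.m (.v 3) (.v 2)) (.v 0))]⟩,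
  ⟨60, 0, 0, (.v 1), (.v 0), (.v 0), (.v 1), (.v 0), (.v 0), [(.v 2), (.v 0), (.v 0), (.v 3)]⟩,
  ⟨0, 24, 0, (.v 1), (.v 0), (.v 0), (.v 1), (.v 0), (.v 0), [(.v 2), (.v 0), (.v 3), (.v 0)]⟩,
  ⟨72, 0, 0, (.v 1), (.v 0), (.v 0), (.v 1), (.v 0), (.v 0), [(.v 2), (.v 0), (.m (.v 3) (.v 0))]⟩,
  ⟨144, 0, 0, (.v 1), (.v 0), (.v 0), (.v 1), (.v 0), (.v 0), [(.v 2), (.v 3), (.v 0), (.v 0)]⟩,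
  ⟨0, 120, 0, (.v 1), (.v 0), (.v 0), (.v 1), (.v 0), (.v 0), [(.v 2), (.m (.m (.v 3) (.v 0)) (.v 0))]⟩,
  ⟨156, 0, 0, (.v 1), (.v 0), (.v 0), (.v 1), (.v 0), (.v 0), [(.v 3), (.v 0), (.v 0), (.v 2)]⟩,
  ⟨0, 72, 0, (.v 1), (.v 0), (.v 0), (.v 1), (.v 0), (.v 0), [(.v 3), (.v 0), (.v 2), (.v 0)]⟩,
  ⟨72, 0, 0, (.v 1), (.v 0), (.v 0), (.v 1), (.v 0), (.v 0), [(.v 3), (.v 0), (.m (.v 2) (.v 0))]⟩,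
  ⟨120, 0, 0, (.v 1), (.v 0), (.v 0), (.v 1), (.v 0), (.v 0), [(.v 3), (.v 2), (.v 0), (.v 0)]⟩,
  ⟨0, 24, 0, (.v 1), (.v 0), (.v 0), (.v 1), (.v 0), (.v 0), [(.v 3), (.m (.v 2) (.v 0)), (.v 0)]⟩,
  ⟨0, 24, 0, (.v 1), (.v 0), (.v 0), (.v 1), (.v 0), (.v 0), [(.v 3), (.m (.m (.v 2) (.v 0)) (.v 0))]⟩,
  ⟨60, 0, 0, (.v 1), (.v 0), (.v 0), (.v 1), (.v 0), (.v 0), [(.m (.v 3) (.v 0)), (.v 0), (.v 2)]⟩,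
  ⟨0, 12, 0, (.v 1), (.v 0), (.v 0), (.v 1), (.v 0), (.v 0), [(.m (.v 2) (.v 0)), (.v 0), (.v 3)]⟩,
  ⟨72, 0, 0, (.v 1), (.v 0), (.v 0), (.v 1), (.v 0), (.v 0), [(.m (.v 2) (.v 0)), (.v 3), (.v 0)]⟩,
  ⟨72, 0, 0, (.v 1), (.v 0), (.v 0), (.v 1), (.v 0), (.v 0), [(.m (.m (.v 2) (.v 0)) (.v 3)), (.v 0)]⟩,
  ⟨0, 216, 0, (.v 1), (.v 0), (.v 0), (.v 1), (.v 0), (.v 0), [(.m (.m (.v 3) (.v 2)) (.v 0)), (.v 0)]⟩,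
  ⟨24, 0, 0, (.v 1), (.v 0), (.v 0), (.v 1), (.v 0), (.v 0), [(.m (.m (.v 3) (.v 0)) (.v 0)), (.v 2)]⟩,
  ⟨108, 0, 0, (.v 1), (.v 0), (.v 0), (.v 1), (.v 0), (.v 0), [(.m (.m (.v 2) (.v 0)) (.v 0)), (.v 3)]⟩,
  ⟨0, 144, 0, (.v 1), (.v 0), (.v 0), (.v 1), (.v 0), (.v 0), [(.m (.m (.m (.v 2) (.v 0)) (.v 0)) (.v 3))]⟩,
  ⟨0, 144, 0, (.v 1), (.v 0), (.v 0), (.v 1), (.v 0), (.v 0), [(.m (.m (.m (.v 3) (.v 0)) (.v 0)) (.v 2))]⟩,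
  ⟨0, 36, 0, (.v 1), (.v 0), (.v 0), (.v 1), (.v 0), (.v 0), [(.m (.m (.m (.v 2) (.v 0)) (.v 3)) (.v 0))]⟩,
  ⟨36, 0, 0, (.v 1), (.v 0), (.v 0), (.v 1), (.v 0), (.v 0), [(.m (.m (.v 3) (.v 0)) (.m (.v 2) (.v 0)))]⟩,
  ⟨132, 0, 0, (.v 1), (.v 0), (.v 0), (.v 2), (.v 0), (.v 0), [(.v 0), (.v 0), (.v 1), (.v 3)]⟩,
  ⟨132, 0, 0, (.v 1), (.v 0), (.v 0), (.v 2), (.v 0), (.v 0), [(.v 0), (.v 0), (.v 3), (.v 1)]⟩,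
  ⟨0, 288, 0, (.v 1), (.v 0), (.v 0), (.v 2), (.v 0), (.v 0), [(.v 0), (.v 1), (.v 3), (.v 0)]⟩,
  ⟨540, 0, 0, (.v 1), (.v 0), (.v 0), (.v 2), (.v 0), (.v 0), [(.v 0), (.v 3), (.v 0), (.v 1)]⟩,
  ⟨0, 96, 0, (.v 1), (.v 0), (.v 0), (.v 2), (.v 0), (.v 0), [(.v 0), (.v 3), (.v 1), (.v 0)]⟩,
  ⟨0, 48, 0, (.v 1), (.v 0), (.v 0), (.v 2), (.v 0), (.v 0), [(.v 0), (.v 3), (.m (.v 1) (.v 0))]⟩,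
  ⟨0, 24, 0, (.v 1), (.v 0), (.v 0), (.v 2), (.v 0), (.v 0), [(.v 0), (.m (.v 3) (.v 1)), (.v 0)]⟩,
  ⟨0, 156, 0, (.v 1), (.v 0), (.v 0), (.v 2), (.v 0), (.v 0), [(.v 0), (.m (.v 3) (.v 0)), (.v 1)]⟩,
  ⟨0, 132, 0, (.v 1), (.v 0), (.v 0), (.v 2), (.v 0), (.v 0), [(.v 0), (.m (.v 1) (.v 0)), (.v 3)]⟩,
  ⟨0, 132, 0, (.v 1), (.v 0), (.v 0), (.v 2), (.v 0), (.v 0), [(.v 0), (.m (.m (.v 1) (.v 0)) (.v 3))]⟩,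
  ⟨0, 156, 0, (.v 1), (.v 0), (.v 0), (.v 2), (.v 0), (.v 0), [(.v 0), (.m (.m (.v 3) (.v 0)) (.v 1))]⟩,
  ⟨0, 24, 0, (.v 1), (.v 0), (.v 0), (.v 2), (.v 0), (.v 0), [(.v 0), (.m (.m (.v 3) (.v 1)) (.v 0))]⟩,
  ⟨324, 0, 0, (.v 1), (.v 0), (.v 0), (.v 2), (.v 0), (.v 0), [(.v 1), (.v 0), (.v 0), (.v 3)]⟩,
  ⟨0, 24, 0, (.v 1), (.v 0), (.v 0), (.v 2), (.v 0), (.v 0), [(.v 1), (.v 0), (.v 3), (.v 0)]⟩,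
  ⟨72, 0, 0, (.v 1), (.v 0), (.v 0), (.v 2), (.v 0), (.v 0), [(.v 1), (.v 0), (.m (.v 3) (.v 0))]⟩,
  ⟨264, 0, 0, (.v 1), (.v 0), (.v 0), (.v 2), (.v 0), (.v 0), [(.v 1), (.v 3), (.v 0), (.v 0)]⟩,
  ⟨0, 108, 0, (.v 1), (.v 0), (.v 0), (.v 2), (.v 0), (.v 0), [(.v 1), (.m (.m (.v 3) (.v 0)) (.v 0))]⟩,
  ⟨900, 0, 0, (.v 1), (.v 0), (.v 0), (.v 2), (.v 0), (.v 0), [(.v 3), (.v 0), (.v 0), (.v 1)]⟩,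
  ⟨168, 0, 0, (.v 1), (.v 0), (.v 0), (.v 2), (.v 0), (.v 0), [(.v 3), (.v 0), (.v 1), (.v 0)]⟩,
  ⟨0, 48, 0, (.v 1), (.v 0), (.v 0), (.v 2), (.v 0), (.v 0), [(.v 3), (.v 0), (.m (.v 1) (.v 0))]⟩,
  ⟨168, 0, 0, (.v 1), (.v 0), (.v 0), (.v 2), (.v 0), (.v 0), [(.v 3), (.v 1), (.v 0), (.v 0)]⟩,
  ⟨0, 48, 0, (.v 1), (.v 0), (.v 0), (.v 2), (.v 0), (.v 0), [(.v 3), (.m (.v 1) (.v 0)), (.v 0)]⟩,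
  ⟨0, 36, 0, (.v 1), (.v 0), (.v 0), (.v 2), (.v 0), (.v 0), [(.v 3), (.m (.m (.v 1) (.v 0)) (.v 0))]⟩,
  ⟨24, 0, 0, (.v 1), (.v 0), (.v 0), (.v 2), (.v 0), (.v 0), [(.v 3), (.m (.m (.v 0) (.v 0)) (.v 1))]⟩,
  ⟨24, 0, 0, (.v 1), (.v 0), (.v 0), (.v 2), (.v 0), (.v 0), [(.v 3), (.m (.m (.v 0) (.v 1)) (.v 0))]⟩,
  ⟨0, 72, 0, (.v 1), (.v 0), (.v 0), (.v 2), (.v 0), (.v 0), [(.m (.v 3) (.v 0)), (.m (.v 1) (.v 0))]⟩,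
  ⟨0, 72, 0, (.v 1), (.v 0), (.v 0), (.v 2), (.v 0), (.v 0), [(.m (.v 1) (.v 0)), (.m (.v 3) (.v 0))]⟩,
  ⟨0, 96, 0, (.v 1), (.v 0), (.v 0), (.v 2), (.v 0), (.v 0), [(.m (.m (.v 3) (.v 0)) (.v 1)), (.v 0)]⟩,
  ⟨0, 48, 0, (.v 1), (.v 0), (.v 0), (.v 2), (.v 0), (.v 0), [(.m (.m (.v 3) (.v 1)) (.v 0)), (.v 0)]⟩,
  ⟨0, 60, 0, (.v 1), (.v 0), (.v 0), (.v 2), (.v 0), (.v 0), [(.m (.m (.v 3) (.v 0)) (.v 0)), (.v 1)]⟩,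
  ⟨156, 0, 0, (.v 1), (.v 0), (.v 0), (.v 3), (.v 0), (.v 0), [(.v 0), (.v 0), (.v 1), (.v 2)]⟩,
  ⟨0, 60, 0, (.v 1), (.v 0), (.v 0), (.v 3), (.v 0), (.v 0), [(.v 0), (.v 0), (.v 2), (.v 1)]⟩,
  ⟨96, 0, 0, (.v 1), (.v 0), (.v 0), (.v 3), (.v 0), (.v 0), [(.v 0), (.v 1), (.v 0), (.v 2)]⟩,
  ⟨168, 0, 0, (.v 1), (.v 0), (.v 0), (.v 3), (.v 0), (.v 0), [(.v 0), (.v 1), (.v 2), (.v 0)]⟩,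
  ⟨24, 0, 0, (.v 1), (.v 0), (.v 0), (.v 3), (.v 0), (.v 0), [(.v 0), (.v 1), (.m (.v 2) (.v 0))]⟩,
  ⟨264, 0, 0, (.v 1), (.v 0), (.v 0), (.v 3), (.v 0), (.v 0), [(.v 0), (.v 2), (.v 1), (.v 0)]⟩,
  ⟨0, 48, 0, (.v 1), (.v 0), (.v 0), (.v 3), (.v 0), (.v 0), [(.v 0), (.v 2), (.m (.v 1) (.v 0))]⟩,
  ⟨0, 96, 0, (.v 1), (.v 0), (.v 0), (.v 3), (.v 0), (.v 0), [(.v 0), (.m (.v 2) (.v 1)), (.v 0)]⟩,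
  ⟨0, 132, 0, (.v 1), (.v 0), (.v 0), (.v 3), (.v 0), (.v 0), [(.v 0), (.m (.v 2) (.v 0)), (.v 1)]⟩,
  ⟨0, 60, 0, (.v 1), (.v 0), (.v 0), (.v 3), (.v 0), (.v 0), [(.v 0), (.m (.v 1) (.v 0)), (.v 2)]⟩,
  ⟨0, 60, 0, (.v 1), (.v 0), (.v 0), (.v 3), (.v 0), (.v 0), [(.v 0), (.m (.m (.v 1) (.v 0)) (.v 2))]⟩,
  ⟨0, 132, 0, (.v 1), (.v 0), (.v 0), (.v 3), (.v 0), (.v 0), [(.v 0), (.m (.m (.v 2) (.v 0)) (.v 1))]⟩,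
  ⟨180, 0, 0, (.v 1), (.v 0), (.v 0), (.v 3), (.v 0), (.v 0), [(.v 1), (.v 0), (.v 0), (.v 2)]⟩,
  ⟨0, 72, 0, (.v 1), (.v 0), (.v 0), (.v 3), (.v 0), (.v 0), [(.v 1), (.v 0), (.v 2), (.v 0)]⟩,
  ⟨72, 0, 0, (.v 1), (.v 0), (.v 0), (.v 3), (.v 0), (.v 0), [(.v 1), (.v 0), (.m (.v 2) (.v 0))]⟩,
  ⟨96, 0, 0, (.v 1), (.v 0), (.v 0), (.v 3), (.v 0), (.v 0), [(.v 1), (.v 2), (.v 0), (.v 0)]⟩,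
  ⟨0, 144, 0, (.v 1), (.v 0), (.v 0), (.v 3), (.v 0), (.v 0), [(.v 1), (.m (.v 2) (.v 0)), (.v 0)]⟩,
  ⟨0, 24, 0, (.v 1), (.v 0), (.v 0), (.v 3), (.v 0), (.v 0), [(.v 1), (.m (.m (.v 2) (.v 0)) (.v 0))]⟩,
  ⟨216, 0, 0, (.v 1), (.v 0), (.v 0), (.v 3), (.v 0), (.v 0), [(.v 2), (.v 0), (.v 0), (.v 1)]⟩,
  ⟨192, 0, 0, (.v 1), (.v 0), (.v 0), (.v 3), (.v 0), (.v 0), [(.v 2), (.v 0), (.v 1), (.v 0)]⟩,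
  ⟨0, 48, 0, (.v 1), (.v 0), (.v 0), (.v 3), (.v 0), (.v 0), [(.v 2), (.v 0), (.m (.v 1) (.v 0))]⟩,
  ⟨72, 0, 0, (.v 1), (.v 0), (.v 0), (.v 3), (.v 0), (.v 0), [(.v 2), (.v 1), (.v 0), (.v 0)]⟩,
  ⟨0, 48, 0, (.v 1), (.v 0), (.v 0), (.v 3), (.v 0), (.v 0), [(.v 2), (.m (.v 1) (.v 0)), (.v 0)]⟩,
  ⟨0, 60, 0, (.v 1), (.v 0), (.v 0), (.v 3), (.v 0), (.v 0), [(.v 2), (.m (.m (.v 1) (.v 0)) (.v 0))]⟩,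
  ⟨0, 48, 0, (.v 1), (.v 0), (.v 0), (.v 3), (.v 0), (.v 0), [(.v 2), (.m (.m (.v 0) (.v 0)) (.v 1))]⟩,
  ⟨0, 48, 0, (.v 1), (.v 0), (.v 0), (.v 3), (.v 0), (.v 0), [(.v 2), (.m (.m (.v 0) (.v 1)) (.v 0))]⟩,
  ⟨96, 0, 0, (.v 1), (.v 0), (.v 0), (.v 3), (.v 0), (.v 0), [(.m (.m (.v 1) (.v 0)) (.v 2)), (.v 0)]⟩,
  ⟨0, 48, 0, (.v 1), (.v 0), (.v 0), (.v 3), (.v 0), (.v 0), [(.m (.m (.v 2) (.v 0)) (.v 1)), (.v 0)]⟩,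
  ⟨96, 0, 0, (.v 1), (.v 0), (.v 0), (.v 3), (.v 0), (.v 0), [(.m (.m (.v 2) (.v 1)) (.v 0)), (.v 0)]⟩,
  ⟨276, 0, 0, (.v 1), (.v 0), (.v 0), (.v 3), (.v 0), (.v 0), [(.m (.m (.v 2) (.v 0)) (.v 0)), (.v 1)]⟩,
  ⟨144, 0, 0, (.v 1), (.v 0), (.v 0), (.v 3), (.v 0), (.v 0), [(.m (.m (.v 1) (.v 0)) (.v 0)), (.v 2)]⟩,
  ⟨0, 24, 0, (.v 1), (.v 0), (.v 0), (.v 3), (.v 0), (.v 0), [(.m (.m (.m (.v 1) (.v 0)) (.v 0)) (.v 2))]⟩,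
  ⟨0, 24, 0, (.v 1), (.v 0), (.v 0), (.v 3), (.v 0), (.v 0), [(.m (.m (.m (.v 2) (.v 0)) (.v 0)) (.v 1))]⟩,
  ⟨24, 0, 0, (.v 1), (.v 0), (.v 0), (.m (.v 3) (.v 1)), (.v 0), (.v 0), [(.v 2), (.v 0), (.v 0)]⟩,
  ⟨0, 48, 0, (.v 1), (.v 0), (.v 0), (.m (.v 3) (.v 1)), (.v 0), (.v 0), [(.m (.v 2) (.v 0)), (.v 0)]⟩,
  ⟨120, 0, 0, (.v 1), (.v 0), (.v 0), (.m (.v 2) (.v 1)), (.v 0), (.v 0), [(.v 3), (.v 0), (.v 0)]⟩,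
  ⟨12, 0, 0, (.v 1), (.v 0), (.v 0), (.m (.v 2) (.v 1)), (.v 0), (.v 0), [(.m (.m (.v 3) (.v 0)) (.v 0))]⟩,
  ⟨36, 0, 0, (.v 1), (.v 0), (.v 0), (.m (.v 1) (.v 0)), (.v 0), (.v 0), [(.v 0), (.v 2), (.v 3)]⟩,
  ⟨36, 0, 0, (.v 1), (.v 0), (.v 0), (.m (.v 1) (.v 0)), (.v 0), (.v 0), [(.v 0), (.v 3), (.v 2)]⟩,
  ⟨0, 60, 0, (.v 1), (.v 0), (.v 0), (.m (.v 1) (.v 0)), (.v 0), (.v 0), [(.v 2), (.v 0), (.v 3)]⟩,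
  ⟨0, 48, 0, (.v 1), (.v 0), (.v 0), (.m (.v 1) (.v 0)), (.v 0), (.v 0), [(.v 2), (.v 3), (.v 0)]⟩,
  ⟨0, 72, 0, (.v 1), (.v 0), (.v 0), (.m (.v 1) (.v 0)), (.v 0), (.v 0), [(.v 2), (.m (.v 3) (.v 0))]⟩,
  ⟨0, 156, 0, (.v 1), (.v 0), (.v 0), (.m (.v 1) (.v 0)), (.v 0), (.v 0), [(.v 3), (.v 0), (.v 2)]⟩,
  ⟨0, 24, 0, (.v 1), (.v 0), (.v 0), (.m (.v 1) (.v 0)), (.v 0), (.v 0), [(.v 3), (.v 2), (.v 0)]⟩,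
  ⟨0, 72, 0, (.v 1), (.v 0), (.v 0), (.m (.v 1) (.v 0)), (.v 0), (.v 0), [(.v 3), (.m (.v 2) (.v 0))]⟩,
  ⟨0, 132, 0, (.v 1), (.v 0), (.v 0), (.m (.v 1) (.v 0)), (.v 0), (.v 0), [(.m (.v 3) (.v 0)), (.v 2)]⟩,
  ⟨0, 132, 0, (.v 1), (.v 0), (.v 0), (.m (.v 1) (.v 0)), (.v 0), (.v 0), [(.m (.v 2) (.v 0)), (.v 3)]⟩,
  ⟨0, 24, 0, (.v 1), (.v 0), (.v 0), (.m (.v 1) (.v 0)), (.v 0), (.v 0), [(.m (.m (.v 2) (.v 0)) (.v 3))]⟩,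
  ⟨120, 0, 0, (.v 1), (.v 0), (.v 0), (.m (.v 1) (.v 0)), (.v 0), (.v 0), [(.m (.m (.v 3) (.v 2)) (.v 0))]⟩,
  ⟨0, 120, 0, (.v 1), (.v 0), (.v 0), (.m (.m (.v 2) (.v 1)) (.v 3)), (.v 0), (.v 0), [(.v 0), (.v 0)]⟩,
  ⟨0, 48, 0, (.v 1), (.v 0), (.v 0), (.m (.m (.v 3) (.v 1)) (.v 2)), (.v 0), (.v 0), [(.v 0), (.v 0)]⟩,
  ⟨0, 48, 0, (.v 1), (.v 0), (.v 0), (.m (.m (.v 3) (.v 2)) (.v 1)), (.v 0), (.v 0), [(.v 0), (.v 0)]⟩,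
  ⟨0, 348, 0, (.v 1), (.v 0), (.v 0), (.m (.m (.v 3) (.v 2)) (.v 0)), (.v 0), (.v 0), [(.v 0), (.v 1)]⟩,
  ⟨72, 0, 0, (.v 1), (.v 0), (.v 0), (.m (.m (.v 3) (.v 2)) (.v 0)), (.v 0), (.v 0), [(.v 1), (.v 0)]⟩,
  ⟨0, 96, 0, (.v 1), (.v 0), (.v 0), (.m (.m (.v 3) (.v 0)) (.v 1)), (.v 0), (.v 0), [(.v 0), (.v 2)]⟩,
  ⟨0, 24, 0, (.v 1), (.v 0), (.v 0), (.m (.m (.v 3) (.v 0)) (.v 1)), (.v 0), (.v 0), [(.v 2), (.v 0)]⟩,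
  ⟨0, 72, 0, (.v 1), (.v 0), (.v 0), (.m (.m (.v 3) (.v 0)) (.v 1)), (.v 0), (.v 0), [(.m (.v 2) (.v 0))]⟩,
  ⟨0, 96, 0, (.v 1), (.v 0), (.v 0), (.m (.m (.v 3) (.v 1)) (.v 0)), (.v 0), (.v 0), [(.v 0), (.v 2)]⟩,
  ⟨0, 96, 0, (.v 1), (.v 0), (.v 0), (.m (.m (.v 3) (.v 1)) (.v 0)), (.v 0), (.v 0), [(.v 2), (.v 0)]⟩,
  ⟨0, 168, 0, (.v 1), (.v 0), (.v 0), (.m (.m (.v 2) (.v 0)) (.v 1)), (.v 0), (.v 0), [(.v 0), (.v 3)]⟩,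
  ⟨0, 240, 0, (.v 1), (.v 0), (.v 0), (.m (.m (.v 2) (.v 0)) (.v 1)), (.v 0), (.v 0), [(.v 3), (.v 0)]⟩,
  ⟨0, 72, 0, (.v 1), (.v 0), (.v 0), (.m (.m (.v 2) (.v 0)) (.v 1)), (.v 0), (.v 0), [(.m (.v 3) (.v 0))]⟩,
  ⟨0, 96, 0, (.v 1), (.v 0), (.v 0), (.m (.m (.v 2) (.v 1)) (.v 0)), (.v 0), (.v 0), [(.v 0), (.v 3)]⟩,
  ⟨0, 120, 0, (.v 1), (.v 0), (.v 0), (.m (.m (.v 2) (.v 1)) (.v 0)), (.v 0), (.v 0), [(.v 3), (.v 0)]⟩,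
  ⟨0, 72, 0, (.v 1), (.v 0), (.v 0), (.m (.m (.m (.v 1) (.v 0)) (.v 3)) (.v 2)), (.v 0), (.v 0), [(.v 0)]⟩,
  ⟨0, 24, 0, (.v 1), (.v 0), (.v 0), (.m (.m (.m (.v 3) (.v 1)) (.v 0)) (.v 2)), (.v 0), (.v 0), [(.v 0)]⟩,
  ⟨24, 0, 0, (.v 1), (.v 0), (.v 0), (.m (.m (.m (.v 2) (.v 0)) (.v 3)) (.v 1)), (.v 0), (.v 0), [(.v 0)]⟩,
  ⟨180, 0, 0, (.v 1), (.v 0), (.v 0), (.m (.m (.m (.v 1) (.v 0)) (.v 0)) (.v 3)), (.v 0), (.v 0), [(.v 2)]⟩,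
  ⟨60, 0, 0, (.v 1), (.v 0), (.v 0), (.m (.m (.m (.v 3) (.v 0)) (.v 0)) (.v 1)), (.v 0), (.v 0), [(.v 2)]⟩,
  ⟨48, 0, 0, (.v 1), (.v 0), (.v 0), (.m (.m (.m (.v 1) (.v 0)) (.v 3)) (.v 0)), (.v 0), (.v 0), [(.v 2)]⟩,
  ⟨60, 0, 0, (.v 1), (.v 0), (.v 0), (.m (.m (.m (.v 1) (.v 0)) (.v 0)) (.v 2)), (.v 0), (.v 0), [(.v 3)]⟩,
  ⟨0, 12, 0, (.v 1), (.v 0), (.v 0), (.m (.m (.m (.v 2) (.v 0)) (.v 0)) (.v 1)), (.v 0), (.v 0), [(.v 3)]⟩,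
  ⟨0, 72, 0, (.v 1), (.v 0), (.v 0), (.m (.m (.m (.v 1) (.v 0)) (.v 2)) (.v 0)), (.v 0), (.v 0), [(.v 3)]⟩,
  ⟨96, 0, 0, (.v 1), (.v 0), (.v 0), (.m (.m (.v 2) (.v 0)) (.m (.v 1) (.v 0))), (.v 0), (.v 0), [(.v 3)]⟩,
  ⟨48, 0, 0, (.v 1), (.v 0), (.v 0), (.m (.m (.m (.v 1) (.v 0)) (.v 3)) (.m (.v 2) (.v 0))), (.v 0), (.v 0), []⟩,
  ⟨0, 72, 0, (.v 1), (.v 0), (.v 0), (.m (.m (.m (.v 2) (.v 0)) (.v 3)) (.m (.v 1) (.v 0))), (.v 0), (.v 0), []⟩,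
  ⟨0, 96, 0, (.v 1), (.v 0), (.v 1), (.m (.m (.v 3) (.v 2)) (.v 0)), (.v 0), (.v 0), [(.v 0), (.v 0)]⟩,
  ⟨432, 0, 0, (.v 1), (.v 0), (.v 2), (.v 3), (.v 0), (.v 0), [(.v 0), (.v 0), (.v 0), (.v 1)]⟩,
  ⟨384, 0, 0, (.v 1), (.v 0), (.v 2), (.v 3), (.v 0), (.v 0), [(.v 0), (.v 0), (.v 1), (.v 0)]⟩,
  ⟨0, 96, 0, (.v 1), (.v 0), (.v 2), (.v 3), (.v 0), (.v 0), [(.v 0), (.v 0), (.m (.v 1) (.v 0))]⟩,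
  ⟨144, 0, 0, (.v 1), (.v 0), (.v 2), (.v 3), (.v 0), (.v 0), [(.v 0), (.v 1), (.v 0), (.v 0)]⟩,
  ⟨0, 96, 0, (.v 1), (.v 0), (.v 2), (.v 3), (.v 0), (.v 0), [(.v 0), (.m (.v 1) (.v 0)), (.v 0)]⟩,
  ⟨0, 120, 0, (.v 1), (.v 0), (.v 2), (.v 3), (.v 0), (.v 0), [(.v 0), (.m (.m (.v 1) (.v 0)) (.v 0))]⟩,
  ⟨96, 0, 0, (.v 1), (.v 0), (.v 2), (.v 3), (.v 0), (.v 0), [(.v 1), (.v 0), (.v 0), (.v 0)]⟩,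
  ⟨96, 0, 0, (.v 1), (.v 0), (.v 2), (.v 3), (.v 0), (.v 0), [(.m (.m (.v 1) (.v 0)) (.v 0)), (.v 0)]⟩,
  ⟨0, 288, 0, (.v 1), (.v 0), (.v 2), (.v 3), (.v 0), (.v 0), [(.m (.m (.m (.v 1) (.v 0)) (.v 0)) (.v 0))]⟩,
  ⟨0, 216, 0, (.v 1), (.v 0), (.v 2), (.v 3), (.v 0), (.v 0), [(.m (.m (.v 0) (.v 0)) (.v 0)), (.v 1)]⟩,
  ⟨240, 0, 0, (.v 1), (.v 0), (.v 2), (.m (.v 3) (.v 0)), (.v 0), (.v 0), [(.v 0), (.v 1), (.v 0)]⟩,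
  ⟨192, 0, 0, (.v 1), (.v 0), (.v 2), (.m (.v 1) (.v 0)), (.v 0), (.v 0), [(.v 0), (.v 0), (.v 3)]⟩,
  ⟨240, 0, 0, (.v 1), (.v 0), (.v 2), (.m (.v 1) (.v 0)), (.v 0), (.v 0), [(.v 0), (.v 3), (.v 0)]⟩,
  ⟨0, 24, 0, (.v 1), (.v 0), (.v 2), (.m (.v 1) (.v 0)), (.v 0), (.v 0), [(.m (.m (.v 3) (.v 0)) (.v 0))]⟩,
  ⟨0, 240, 0, (.v 1), (.v 0), (.v 2), (.m (.m (.v 1) (.v 0)) (.v 3)), (.v 0), (.v 0), [(.v 0), (.v 0)]⟩,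
  ⟨0, 240, 0, (.v 1), (.v 0), (.v 2), (.m (.m (.v 3) (.v 0)) (.v 1)), (.v 0), (.v 0), [(.v 0), (.v 0)]⟩,
  ⟨0, 192, 0, (.v 1), (.v 0), (.v 2), (.m (.m (.m (.v 1) (.v 0)) (.v 3)) (.v 0)), (.v 0), (.v 0), [(.v 0)]⟩,
  ⟨144, 0, 0, (.v 1), (.v 0), (.v 2), (.m (.m (.v 3) (.v 0)) (.m (.v 1) (.v 0))), (.v 0), (.v 0), [(.v 0)]⟩,
  ⟨192, 0, 0, (.v 1), (.v 0), (.v 2), (.m (.m (.m (.m (.v 1) (.v 0)) (.v 0)) (.v 3)) (.v 0)), (.v 0), (.v 0), []⟩,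
  ⟨192, 0, 0, (.v 1), (.v 0), (.v 3), (.m (.v 1) (.v 0)), (.v 0), (.v 0), [(.v 0), (.v 0), (.v 2)]⟩,
  ⟨192, 0, 0, (.v 1), (.v 0), (.v 3), (.m (.v 1) (.v 0)), (.v 0), (.v 0), [(.v 0), (.v 2), (.v 0)]⟩,
  ⟨0, 48, 0, (.v 1), (.v 0), (.v 3), (.m (.v 1) (.v 0)), (.v 0), (.v 0), [(.v 2), (.v 0), (.v 0)]⟩,
  ⟨0, 48, 0, (.v 1), (.v 0), (.v 3), (.m (.v 1) (.v 0)), (.v 0), (.v 0), [(.m (.v 2) (.v 0)), (.v 0)]⟩,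
  ⟨0, 240, 0, (.v 1), (.v 0), (.v 3), (.m (.v 1) (.v 0)), (.v 0), (.v 0), [(.m (.m (.v 2) (.v 0)) (.v 0))]⟩,
  ⟨0, 624, 0, (.v 1), (.v 0), (.v 3), (.m (.m (.v 2) (.v 0)) (.v 1)), (.v 0), (.v 0), [(.v 0), (.v 0)]⟩,
  ⟨0, 144, 0, (.v 1), (.v 0), (.v 3), (.m (.m (.m (.v 1) (.v 0)) (.v 0)) (.v 2)), (.v 0), (.v 0), [(.v 0)]⟩,
  ⟨48, 0, 0, (.v 1), (.v 0), (.v 3), (.m (.m (.m (.v 2) (.v 0)) (.v 0)) (.v 1)), (.v 0), (.v 0), [(.v 0)]⟩,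
  ⟨0, 96, 0, (.v 1), (.v 0), (.v 3), (.m (.m (.m (.v 1) (.v 0)) (.v 2)) (.v 0)), (.v 0), (.v 0), [(.v 0)]⟩,
  ⟨144, 0, 0, (.v 1), (.v 0), (.v 3), (.m (.m (.v 2) (.v 0)) (.m (.v 1) (.v 0))), (.v 0), (.v 0), [(.v 0)]⟩,
  ⟨0, 48, 0, (.v 1), (.v 2), (.v 3), (.m (.v 1) (.v 0)), (.v 0), (.v 0), [(.v 0), (.v 0), (.v 0)]⟩,
  ⟨0, 24, 0, (.v 1), (.v 2), (.m (.m (.v 3) (.v 0)) (.v 0)), (.m (.m (.v 1) (.v 0)) (.v 0)), (.v 0), (.v 0), []⟩,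
  ⟨12, 0, 0, (.v 2), (.v 0), (.v 0), (.v 0), (.v 0), (.v 0), [(.v 0), (.v 3), (.v 1), (.v 1)]⟩,
  ⟨12, 0, 0, (.v 2), (.v 0), (.v 0), (.v 0), (.v 0), (.v 0), [(.v 0), (.m (.m (.v 3) (.v 1)) (.v 1))]⟩,
  ⟨0, 88, 0, (.v 2), (.v 0), (.v 0), (.v 0), (.v 0), (.v 0), [(.v 1), (.v 0), (.v 1), (.v 3)]⟩,
  ⟨0, 92, 0, (.v 2), (.v 0), (.v 0), (.v 0), (.v 0), (.v 0), [(.v 1), (.v 0), (.v 3), (.v 1)]⟩,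
  ⟨32, 0, 0, (.v 2), (.v 0), (.v 0), (.v 0), (.v 0), (.v 0), [(.v 1), (.v 0), (.m (.v 3) (.v 1))]⟩,
  ⟨112, 0, 0, (.v 2), (.v 0), (.v 0), (.v 0), (.v 0), (.v 0), [(.v 1), (.v 1), (.v 0), (.v 3)]⟩,
  ⟨104, 0, 0, (.v 2), (.v 0), (.v 0), (.v 0), (.v 0), (.v 0), [(.v 1), (.v 1), (.v 3), (.v 0)]⟩,
  ⟨0, 56, 0, (.v 2), (.v 0), (.v 0), (.v 0), (.v 0), (.v 0), [(.v 1), (.v 1), (.m (.v 3) (.v 0))]⟩,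
  ⟨36, 0, 0, (.v 2), (.v 0), (.v 0), (.v 0), (.v 0), (.v 0), [(.v 1), (.v 3), (.v 0), (.v 1)]⟩,
  ⟨112, 0, 0, (.v 2), (.v 0), (.v 0), (.v 0), (.v 0), (.v 0), [(.v 1), (.v 3), (.v 1), (.v 0)]⟩,
  ⟨0, 16, 0, (.v 2), (.v 0), (.v 0), (.v 0), (.v 0), (.v 0), [(.v 1), (.m (.v 3) (.v 1)), (.v 0)]⟩,
  ⟨84, 0, 0, (.v 2), (.v 0), (.v 0), (.v 0), (.v 0), (.v 0), [(.v 1), (.m (.v 1) (.v 0)), (.v 3)]⟩,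
  ⟨100, 0, 0, (.v 2), (.v 0), (.v 0), (.v 0), (.v 0), (.v 0), [(.v 1), (.m (.m (.v 1) (.v 0)) (.v 3))]⟩,
  ⟨52, 0, 0, (.v 2), (.v 0), (.v 0), (.v 0), (.v 0), (.v 0), [(.v 1), (.m (.m (.v 3) (.v 0)) (.v 1))]⟩,
  ⟨0, 8, 0, (.v 2), (.v 0), (.v 0), (.v 0), (.v 0), (.v 0), [(.v 1), (.m (.m (.v 3) (.v 1)) (.v 0))]⟩,
  ⟨12, 0, 0, (.v 2), (.v 0), (.v 0), (.v 0), (.v 0), (.v 0), [(.v 3), (.v 0), (.v 1), (.v 1)]⟩,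
  ⟨36, 0, 0, (.v 2), (.v 0), (.v 0), (.v 0), (.v 0), (.v 0), [(.v 3), (.v 1), (.v 0), (.v 1)]⟩,
  ⟨144, 0, 0, (.v 2), (.v 0), (.v 0), (.v 0), (.v 0), (.v 0), [(.v 3), (.v 1), (.v 1), (.v 0)]⟩,
  ⟨36, 0, 0, (.v 2), (.v 0), (.v 0), (.v 0), (.v 0), (.v 0), [(.v 3), (.m (.v 1) (.v 0)), (.v 1)]⟩,
  ⟨56, 0, 0, (.v 2), (.v 0), (.v 0), (.v 0), (.v 0), (.v 0), [(.v 3), (.m (.m (.v 1) (.v 0)) (.v 1))]⟩,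
  ⟨0, 16, 0, (.v 2), (.v 0), (.v 0), (.v 0), (.v 0), (.v 0), [(.m (.v 3) (.v 1)), (.v 1), (.v 0)]⟩,
  ⟨0, 36, 0, (.v 2), (.v 0), (.v 0), (.v 0), (.v 0), (.v 0), [(.m (.v 3) (.v 0)), (.v 1), (.v 1)]⟩,
  ⟨48, 0, 0, (.v 2), (.v 0), (.v 0), (.v 0), (.v 0), (.v 0), [(.m (.v 1) (.v 0)), (.v 1), (.v 3)]⟩,
  ⟨36, 0, 0, (.v 2), (.v 0), (.v 0), (.v 0), (.v 0), (.v 0), [(.m (.v 1) (.v 0)), (.v 3), (.v 1)]⟩,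
  ⟨48, 0, 0, (.v 2), (.v 0), (.v 0), (.v 0), (.v 0), (.v 0), [(.m (.m (.v 3) (.v 1)) (.v 1)), (.v 0)]⟩,
  ⟨64, 0, 0, (.v 2), (.v 0), (.v 0), (.v 0), (.v 0), (.v 0), [(.m (.m (.v 1) (.v 0)) (.v 3)), (.v 1)]⟩,
  ⟨0, 4, 0, (.v 2), (.v 0), (.v 0), (.v 0), (.v 0), (.v 0), [(.m (.m (.v 3) (.v 0)) (.v 1)), (.v 1)]⟩,
  ⟨0, 44, 0, (.v 2), (.v 0), (.v 0), (.v 0), (.v 0), (.v 0), [(.m (.m (.v 3) (.v 1)) (.v 0)), (.v 1)]⟩,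
  ⟨52, 0, 0, (.v 2), (.v 0), (.v 0), (.v 0), (.v 0), (.v 0), [(.m (.m (.v 1) (.v 0)) (.v 1)), (.v 3)]⟩,
  ⟨0, 156, 0, (.v 2), (.v 0), (.v 0), (.v 1), (.v 0), (.v 0), [(.v 0), (.v 0), (.v 1), (.v 3)]⟩,
  ⟨0, 168, 0, (.v 2), (.v 0), (.v 0), (.v 1), (.v 0), (.v 0), [(.v 0), (.v 0), (.v 3), (.v 1)]⟩,
  ⟨96, 0, 0, (.v 2), (.v 0), (.v 0), (.v 1), (.v 0), (.v 0), [(.v 0), (.v 0), (.m (.v 3) (.v 1))]⟩,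
  ⟨48, 0, 0, (.v 2), (.v 0), (.v 0), (.v 1), (.v 0), (.v 0), [(.v 0), (.m (.m (.v 3) (.v 1)) (.v 0))]⟩,
  ⟨0, 12, 0, (.v 2), (.v 0), (.v 0), (.v 1), (.v 0), (.v 0), [(.v 3), (.m (.m (.v 1) (.v 0)) (.v 0))]⟩,
  ⟨48, 0, 0, (.v 2), (.v 0), (.v 0), (.v 1), (.v 0), (.v 0), [(.m (.m (.v 3) (.v 1)) (.v 0)), (.v 0)]⟩,
  ⟨0, 12, 0, (.v 2), (.v 0), (.v 0), (.v 1), (.v 0), (.v 0), [(.m (.m (.v 1) (.v 0)) (.v 0)), (.v 3)]⟩,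
  ⟨0, 300, 0, (.v 2), (.v 0), (.v 0), (.v 3), (.v 0), (.v 0), [(.v 0), (.v 0), (.v 1), (.v 1)]⟩,
  ⟨0, 456, 0, (.v 2), (.v 0), (.v 0), (.v 3), (.v 0), (.v 0), [(.v 0), (.v 1), (.v 0), (.v 1)]⟩,
  ⟨0, 24, 0, (.v 2), (.v 0), (.v 0), (.v 3), (.v 0), (.v 0), [(.v 0), (.v 1), (.v 1), (.v 0)]⟩,
  ⟨72, 0, 0, (.v 2), (.v 0), (.v 0), (.v 3), (.v 0), (.v 0), [(.v 0), (.v 1), (.m (.v 1) (.v 0))]⟩,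
  ⟨0, 84, 0, (.v 2), (.v 0), (.v 0), (.v 3), (.v 0), (.v 0), [(.v 0), (.m (.v 1) (.v 0)), (.v 1)]⟩,
  ⟨0, 84, 0, (.v 2), (.v 0), (.v 0), (.v 3), (.v 0), (.v 0), [(.v 0), (.m (.m (.v 1) (.v 0)) (.v 1))]⟩,
  ⟨12, 0, 0, (.v 2), (.v 0), (.v 0), (.v 3), (.v 0), (.v 0), [(.v 0), (.m (.m (.v 0) (.v 1)) (.v 1))]⟩,
  ⟨0, 456, 0, (.v 2), (.v 0), (.v 0), (.v 3), (.v 0), (.v 0), [(.v 1), (.v 0), (.v 0), (.v 1)]⟩,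
  ⟨0, 24, 0, (.v 2), (.v 0), (.v 0), (.v 3), (.v 0), (.v 0), [(.v 1), (.v 0), (.v 1), (.v 0)]⟩,
  ⟨0, 24, 0, (.v 2), (.v 0), (.v 0), (.v 3), (.v 0), (.v 0), [(.v 1), (.v 1), (.v 0), (.v 0)]⟩,
  ⟨24, 0, 0, (.v 2), (.v 0), (.v 0), (.v 3), (.v 0), (.v 0), [(.v 1), (.m (.m (.v 1) (.v 0)) (.v 0))]⟩,
  ⟨0, 12, 0, (.v 2), (.v 0), (.v 0), (.v 3), (.v 0), (.v 0), [(.v 1), (.m (.m (.v 0) (.v 0)) (.v 1))]⟩,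
  ⟨0, 12, 0, (.v 2), (.v 0), (.v 0), (.v 3), (.v 0), (.v 0), [(.v 1), (.m (.m (.v 0) (.v 1)) (.v 0))]⟩,
  ⟨0, 72, 0, (.v 2), (.v 0), (.v 0), (.v 3), (.v 0), (.v 0), [(.m (.v 1) (.v 0)), (.m (.v 1) (.v 0))]⟩,
  ⟨0, 144, 0, (.v 2), (.v 0), (.v 0), (.v 3), (.v 0), (.v 0), [(.m (.m (.v 1) (.v 0)) (.v 0)), (.v 1)]⟩,
  ⟨0, 216, 0, (.v 2), (.v 0), (.v 0), (.v 3), (.v 0), (.v 0), [(.m (.m (.m (.v 1) (.v 0)) (.v 0)) (.v 1))]⟩,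
  ⟨0, 144, 0, (.v 2), (.v 0), (.v 0), (.v 3), (.v 0), (.v 0), [(.m (.m (.m (.v 1) (.v 0)) (.v 1)) (.v 0))]⟩,
  ⟨0, 108, 0, (.v 2), (.v 0), (.v 0), (.v 3), (.v 0), (.v 0), [(.m (.m (.v 0) (.v 0)) (.v 1)), (.v 1)]⟩,
  ⟨0, 108, 0, (.v 2), (.v 0), (.v 0), (.v 3), (.v 0), (.v 0), [(.m (.m (.v 0) (.v 1)) (.v 0)), (.v 1)]⟩,
  ⟨48, 0, 0, (.v 2), (.v 0), (.v 0), (.v 3), (.v 0), (.v 0), [(.m (.m (.v 1) (.v 1)) (.v 0)), (.v 0)]⟩,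
  ⟨0, 324, 0, (.v 2), (.v 0), (.v 0), (.m (.v 1) (.v 0)), (.v 0), (.v 0), [(.v 1), (.v 0), (.v 3)]⟩,
  ⟨0, 336, 0, (.v 2), (.v 0), (.v 0), (.m (.v 1) (.v 0)), (.v 0), (.v 0), [(.v 1), (.v 3), (.v 0)]⟩,
  ⟨0, 72, 0, (.v 2), (.v 0), (.v 0), (.m (.v 1) (.v 0)), (.v 0), (.v 0), [(.v 1), (.m (.v 3) (.v 0))]⟩,
  ⟨0, 108, 0, (.v 2), (.v 0), (.v 0), (.m (.v 1) (.v 0)), (.v 0), (.v 0), [(.v 3), (.v 0), (.v 1)]⟩,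
  ⟨0, 432, 0, (.v 2), (.v 0), (.v 0), (.m (.v 1) (.v 0)), (.v 0), (.v 0), [(.v 3), (.v 1), (.v 0)]⟩,
  ⟨0, 24, 0, (.v 2), (.v 0), (.v 0), (.m (.v 1) (.v 0)), (.v 0), (.v 0), [(.v 3), (.m (.v 1) (.v 0))]⟩,
  ⟨48, 0, 0, (.v 2), (.v 0), (.v 0), (.m (.v 1) (.v 0)), (.v 0), (.v 0), [(.m (.v 3) (.v 1)), (.v 0)]⟩,
  ⟨0, 252, 0, (.v 2), (.v 0), (.v 0), (.m (.v 1) (.v 0)), (.v 0), (.v 0), [(.m (.v 3) (.v 0)), (.v 1)]⟩,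
  ⟨0, 156, 0, (.v 2), (.v 0), (.v 0), (.m (.v 1) (.v 0)), (.v 0), (.v 0), [(.m (.v 1) (.v 0)), (.v 3)]⟩,
  ⟨0, 120, 0, (.v 2), (.v 0), (.v 0), (.m (.v 1) (.v 0)), (.v 0), (.v 0), [(.m (.m (.v 1) (.v 0)) (.v 3))]⟩,
  ⟨0, 48, 0, (.v 2), (.v 0), (.v 0), (.m (.v 1) (.v 0)), (.v 0), (.v 0), [(.m (.m (.v 3) (.v 0)) (.v 1))]⟩,
  ⟨72, 0, 0, (.v 2), (.v 0), (.v 0), (.m (.v 1) (.v 0)), (.v 0), (.v 0), [(.m (.m (.v 3) (.v 1)) (.v 0))]⟩,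
  ⟨24, 0, 0, (.v 2), (.v 0), (.v 0), (.m (.m (.v 3) (.v 1)) (.v 1)), (.v 0), (.v 0), [(.v 0), (.v 0)]⟩,
  ⟨0, 192, 0, (.v 2), (.v 0), (.v 0), (.m (.m (.v 1) (.v 0)) (.v 1)), (.v 0), (.v 0), [(.v 0), (.v 3)]⟩,
  ⟨0, 240, 0, (.v 2), (.v 0), (.v 0), (.m (.m (.v 1) (.v 0)) (.v 1)), (.v 0), (.v 0), [(.v 3), (.v 0)]⟩,
  ⟨0, 72, 0, (.v 2), (.v 0), (.v 0), (.m (.m (.v 1) (.v 0)) (.v 1)), (.v 0), (.v 0), [(.m (.v 3) (.v 0))]⟩,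
  ⟨96, 0, 0, (.v 2), (.v 0), (.v 0), (.m (.m (.v 3) (.v 1)) (.m (.v 1) (.v 0))), (.v 0), (.v 0), [(.v 0)]⟩,
  ⟨144, 0, 0, (.v 2), (.v 0), (.v 0), (.m (.m (.m (.v 1) (.v 0)) (.v 3)) (.v 0)), (.v 0), (.v 0), [(.v 1)]⟩,
  ⟨96, 0, 0, (.v 2), (.v 0), (.v 0), (.m (.m (.v 3) (.v 0)) (.m (.v 1) (.v 0))), (.v 0), (.v 0), [(.v 1)]⟩,
  ⟨0, 12, 0, (.v 2), (.v 0), (.v 0), (.m (.m (.m (.v 1) (.v 0)) (.v 0)) (.v 1)), (.v 0), (.v 0), [(.v 3)]⟩,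
  ⟨0, 96, 0, (.v 2), (.v 0), (.v 0), (.m (.m (.m (.m (.v 3) (.v 0)) (.v 0)) (.v 1)) (.v 1)), (.v 0), (.v 0), []⟩,
  ⟨192, 0, 0, (.v 2), (.v 0), (.v 0), (.m (.m (.m (.v 3) (.v 0)) (.m (.v 1) (.v 0))) (.v 1)), (.v 0), (.v 0), []⟩,
  ⟨48, 0, 0, (.v 2), (.v 0), (.v 0), (.m (.m (.m (.v 1) (.v 0)) (.v 3)) (.m (.v 1) (.v 0))), (.v 0), (.v 0), []⟩,
  ⟨0, 420, 0, (.v 2), (.v 0), (.v 1), (.v 1), (.v 0), (.v 0), [(.v 0), (.v 0), (.v 0), (.v 3)]⟩,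
  ⟨0, 96, 0, (.v 2), (.v 0), (.v 1), (.v 1), (.v 0), (.v 0), [(.v 0), (.v 0), (.v 3), (.v 0)]⟩,
  ⟨0, 72, 0, (.v 2), (.v 0), (.v 1), (.v 1), (.v 0), (.v 0), [(.v 0), (.v 0), (.m (.v 3) (.v 0))]⟩,
  ⟨0, 264, 0, (.v 2), (.v 0), (.v 1), (.v 1), (.v 0), (.v 0), [(.v 0), (.v 3), (.v 0), (.v 0)]⟩,
  ⟨120, 0, 0, (.v 2), (.v 0), (.v 1), (.v 1), (.v 0), (.v 0), [(.v 0), (.m (.m (.v 3) (.v 0)) (.v 0))]⟩,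
  ⟨0, 120, 0, (.v 2), (.v 0), (.v 1), (.v 1), (.v 0), (.v 0), [(.v 3), (.v 0), (.v 0), (.v 0)]⟩,
  ⟨96, 0, 0, (.v 2), (.v 0), (.v 1), (.v 1), (.v 0), (.v 0), [(.m (.m (.v 3) (.v 0)) (.v 0)), (.v 0)]⟩,
  ⟨0, 216, 0, (.v 2), (.v 0), (.v 1), (.v 3), (.v 0), (.v 0), [(.v 0), (.v 0), (.v 0), (.v 1)]⟩,
  ⟨0, 192, 0, (.v 2), (.v 0), (.v 1), (.v 3), (.v 0), (.v 0), [(.v 0), (.v 0), (.v 1), (.v 0)]⟩,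
  ⟨0, 192, 0, (.v 2), (.v 0), (.v 1), (.v 3), (.v 0), (.v 0), [(.v 0), (.v 1), (.v 0), (.v 0)]⟩,
  ⟨0, 48, 0, (.v 2), (.v 0), (.v 1), (.v 3), (.v 0), (.v 0), [(.v 0), (.m (.m (.v 1) (.v 0)) (.v 0))]⟩,
  ⟨0, 24, 0, (.v 2), (.v 0), (.v 1), (.v 3), (.v 0), (.v 0), [(.v 0), (.m (.m (.v 0) (.v 0)) (.v 1))]⟩,
  ⟨0, 24, 0, (.v 2), (.v 0), (.v 1), (.v 3), (.v 0), (.v 0), [(.v 0), (.m (.m (.v 0) (.v 1)) (.v 0))]⟩,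
  ⟨0, 144, 0, (.v 2), (.v 0), (.v 1), (.v 3), (.v 0), (.v 0), [(.v 1), (.v 0), (.v 0), (.v 0)]⟩,
  ⟨96, 0, 0, (.v 2), (.v 0), (.v 1), (.v 3), (.v 0), (.v 0), [(.m (.m (.v 1) (.v 0)) (.v 0)), (.v 0)]⟩,
  ⟨0, 288, 0, (.v 2), (.v 0), (.v 1), (.v 3), (.v 0), (.v 0), [(.m (.m (.m (.v 1) (.v 0)) (.v 0)) (.v 0))]⟩,
  ⟨0, 216, 0, (.v 2), (.v 0), (.v 1), (.v 3), (.v 0), (.v 0), [(.m (.m (.v 0) (.v 0)) (.v 0)), (.v 1)]⟩,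
  ⟨144, 0, 0, (.v 2), (.v 0), (.v 1), (.m (.m (.v 3) (.v 0)) (.m (.v 1) (.v 0))), (.v 0), (.v 0), [(.v 0)]⟩,
  ⟨696, 0, 0, (.v 2), (.v 0), (.v 3), (.m (.v 1) (.v 0)), (.v 0), (.v 0), [(.v 0), (.v 0), (.v 1)]⟩,
  ⟨0, 144, 0, (.v 2), (.v 0), (.v 3), (.m (.v 1) (.v 0)), (.v 0), (.v 0), [(.v 0), (.v 1), (.v 0)]⟩,
  ⟨0, 144, 0, (.v 2), (.v 0), (.v 3), (.m (.v 1) (.v 0)), (.v 0), (.v 0), [(.v 1), (.v 0), (.v 0)]⟩,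
  ⟨0, 96, 0, (.v 2), (.v 0), (.v 3), (.m (.v 1) (.v 0)), (.v 0), (.v 0), [(.m (.m (.v 1) (.v 0)) (.v 0))]⟩,
  ⟨0, 624, 0, (.v 2), (.v 0), (.v 3), (.m (.m (.v 1) (.v 0)) (.v 1)), (.v 0), (.v 0), [(.v 0), (.v 0)]⟩,
  ⟨0, 336, 0, (.v 2), (.v 0), (.v 3), (.m (.m (.m (.v 1) (.v 0)) (.v 0)) (.v 1)), (.v 0), (.v 0), [(.v 0)]⟩,
  ⟨72, 0, 0, (.v 2), (.v 0), (.m (.v 1) (.v 0)), (.m (.v 1) (.v 0)), (.v 0), (.v 0), [(.v 0), (.v 3)]⟩,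
  ⟨192, 0, 0, (.v 2), (.v 0), (.m (.v 1) (.v 0)), (.m (.v 1) (.v 0)), (.v 0), (.v 0), [(.v 3), (.v 0)]⟩,
  ⟨0, 24, 0, (.v 2), (.v 0), (.m (.v 1) (.v 0)), (.m (.v 1) (.v 0)), (.v 0), (.v 0), [(.m (.v 3) (.v 0))]⟩,
  ⟨0, 120, 0, (.v 2), (.v 1), (.v 1), (.v 3), (.v 0), (.v 0), [(.v 0), (.v 0), (.v 0), (.v 0)]⟩,
  ⟨120, 0, 0, (.v 2), (.v 1), (.v 1), (.m (.m (.v 3) (.v 0)) (.v 0)), (.v 0), (.v 0), [(.v 0), (.v 0)]⟩,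
  ⟨0, 48, 0, (.v 2), (.v 1), (.v 3), (.m (.v 1) (.v 0)), (.v 0), (.v 0), [(.v 0), (.v 0), (.v 0)]⟩,
  ⟨240, 0, 0, (.v 2), (.v 1), (.v 3), (.m (.m (.v 1) (.v 0)) (.v 0)), (.v 0), (.v 0), [(.v 0), (.v 0)]⟩,
  ⟨216, 0, 0, (.v 2), (.v 3), (.m (.v 1) (.v 0)), (.m (.v 1) (.v 0)), (.v 0), (.v 0), [(.v 0), (.v 0)]⟩,
  ⟨0, 60, 0, (.v 2), (.v 3), (.m (.m (.v 1) (.v 0)) (.v 0)), (.m (.m (.v 1) (.v 0)) (.v 0)), (.v 0), (.v 0), []⟩,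
  ⟨0, 24, 0, (.v 3), (.v 0), (.v 0), (.v 0), (.v 0), (.v 0), [(.v 0), (.m (.m (.v 2) (.v 1)) (.v 1))]⟩,
  ⟨32, 0, 0, (.v 3), (.v 0), (.v 0), (.v 0), (.v 0), (.v 0), [(.v 1), (.v 0), (.v 1), (.v 2)]⟩,
  ⟨36, 0, 0, (.v 3), (.v 0), (.v 0), (.v 0), (.v 0), (.v 0), [(.v 1), (.v 0), (.v 2), (.v 1)]⟩,
  ⟨0, 32, 0, (.v 3), (.v 0), (.v 0), (.v 0), (.v 0), (.v 0), [(.v 1), (.v 1), (.v 0), (.v 2)]⟩,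
  ⟨0, 56, 0, (.v 3), (.v 0), (.v 0), (.v 0), (.v 0), (.v 0), [(.v 1), (.v 1), (.v 2), (.v 0)]⟩,
  ⟨0, 8, 0, (.v 3), (.v 0), (.v 0), (.v 0), (.v 0), (.v 0), [(.v 1), (.v 1), (.m (.v 2) (.v 0))]⟩,
  ⟨0, 32, 0, (.v 3), (.v 0), (.v 0), (.v 0), (.v 0), (.v 0), [(.v 1), (.v 2), (.v 1), (.v 0)]⟩,
  ⟨48, 0, 0, (.v 3), (.v 0), (.v 0), (.v 0), (.v 0), (.v 0), [(.v 1), (.m (.v 2) (.v 0)), (.v 1)]⟩,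
  ⟨68, 0, 0, (.v 3), (.v 0), (.v 0), (.v 0), (.v 0), (.v 0), [(.v 1), (.m (.v 1) (.v 0)), (.v 2)]⟩,
  ⟨44, 0, 0, (.v 3), (.v 0), (.v 0), (.v 0), (.v 0), (.v 0), [(.v 1), (.m (.m (.v 1) (.v 0)) (.v 2))]⟩,
  ⟨40, 0, 0, (.v 3), (.v 0), (.v 0), (.v 0), (.v 0), (.v 0), [(.v 1), (.m (.m (.v 2) (.v 0)) (.v 1))]⟩,
  ⟨0, 4, 0, (.v 3), (.v 0), (.v 0), (.v 0), (.v 0), (.v 0), [(.v 1), (.m (.m (.v 2) (.v 1)) (.v 0))]⟩,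
  ⟨12, 0, 0, (.v 3), (.v 0), (.v 0), (.v 0), (.v 0), (.v 0), [(.v 2), (.v 0), (.v 1), (.v 1)]⟩,
  ⟨8, 0, 0, (.v 3), (.v 0), (.v 0), (.v 0), (.v 0), (.v 0), [(.v 2), (.v 1), (.v 1), (.v 0)]⟩,
  ⟨88, 0, 0, (.v 3), (.v 0), (.v 0), (.v 0), (.v 0), (.v 0), [(.v 2), (.m (.v 1) (.v 0)), (.v 1)]⟩,
  ⟨104, 0, 0, (.v 3), (.v 0), (.v 0), (.v 0), (.v 0), (.v 0), [(.v 2), (.m (.m (.v 1) (.v 0)) (.v 1))]⟩,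
  ⟨16, 0, 0, (.v 3), (.v 0), (.v 0), (.v 0), (.v 0), (.v 0), [(.v 2), (.m (.m (.v 0) (.v 1)) (.v 1))]⟩,
  ⟨4, 0, 0, (.v 3), (.v 0), (.v 0), (.v 0), (.v 0), (.v 0), [(.m (.v 2) (.v 0)), (.v 1), (.v 1)]⟩,
  ⟨24, 0, 0, (.v 3), (.v 0), (.v 0), (.v 0), (.v 0), (.v 0), [(.m (.v 1) (.v 0)), (.v 1), (.v 2)]⟩,
  ⟨12, 0, 0, (.v 3), (.v 0), (.v 0), (.v 0), (.v 0), (.v 0), [(.m (.v 1) (.v 0)), (.v 2), (.v 1)]⟩,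
  ⟨36, 0, 0, (.v 3), (.v 0), (.v 0), (.v 0), (.v 0), (.v 0), [(.m (.m (.v 2) (.v 0)) (.v 1)), (.v 1)]⟩,
  ⟨36, 0, 0, (.v 3), (.v 0), (.v 0), (.v 0), (.v 0), (.v 0), [(.m (.m (.v 2) (.v 1)) (.v 0)), (.v 1)]⟩,
  ⟨8, 0, 0, (.v 3), (.v 0), (.v 0), (.v 0), (.v 0), (.v 0), [(.m (.m (.v 1) (.v 0)) (.v 1)), (.v 2)]⟩,
  ⟨228, 0, 0, (.v 3), (.v 0), (.v 0), (.v 1), (.v 0), (.v 0), [(.v 0), (.v 0), (.v 1), (.v 2)]⟩,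
  ⟨240, 0, 0, (.v 3), (.v 0), (.v 0), (.v 1), (.v 0), (.v 0), [(.v 0), (.v 0), (.v 2), (.v 1)]⟩,
  ⟨120, 0, 0, (.v 3), (.v 0), (.v 0), (.v 1), (.v 0), (.v 0), [(.v 2), (.v 0), (.v 1), (.v 0)]⟩,
  ⟨264, 0, 0, (.v 3), (.v 0), (.v 0), (.v 2), (.v 0), (.v 0), [(.v 0), (.v 0), (.v 1), (.v 1)]⟩,
  ⟨120, 0, 0, (.v 3), (.v 0), (.v 0), (.v 2), (.v 0), (.v 0), [(.v 0), (.v 1), (.v 1), (.v 0)]⟩,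
  ⟨120, 0, 0, (.v 3), (.v 0), (.v 0), (.v 2), (.v 0), (.v 0), [(.v 1), (.v 0), (.v 1), (.v 0)]⟩,
  ⟨120, 0, 0, (.v 3), (.v 0), (.v 0), (.v 2), (.v 0), (.v 0), [(.v 1), (.v 1), (.v 0), (.v 0)]⟩,
  ⟨0, 24, 0, (.v 3), (.v 0), (.v 0), (.v 2), (.v 0), (.v 0), [(.m (.m (.v 1) (.v 0)) (.v 0)), (.v 1)]⟩,
  ⟨0, 144, 0, (.v 3), (.v 0), (.v 0), (.v 2), (.v 0), (.v 0), [(.m (.m (.m (.v 1) (.v 0)) (.v 0)) (.v 1))]⟩,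
  ⟨0, 144, 0, (.v 3), (.v 0), (.v 0), (.v 2), (.v 0), (.v 0), [(.m (.m (.m (.v 1) (.v 0)) (.v 1)) (.v 0))]⟩,
  ⟨0, 108, 0, (.v 3), (.v 0), (.v 0), (.v 2), (.v 0), (.v 0), [(.m (.m (.v 0) (.v 0)) (.v 1)), (.v 1)]⟩,
  ⟨0, 108, 0, (.v 3), (.v 0), (.v 0), (.v 2), (.v 0), (.v 0), [(.m (.m (.v 0) (.v 1)) (.v 0)), (.v 1)]⟩,
  ⟨120, 0, 0, (.v 3), (.v 0), (.v 0), (.m (.v 2) (.v 1)), (.v 0), (.v 0), [(.v 1), (.v 0), (.v 0)]⟩,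
  ⟨12, 0, 0, (.v 3), (.v 0), (.v 0), (.m (.v 2) (.v 1)), (.v 0), (.v 0), [(.m (.m (.v 1) (.v 0)) (.v 0))]⟩,
  ⟨12, 0, 0, (.v 3), (.v 0), (.v 0), (.m (.v 2) (.v 1)), (.v 0), (.v 0), [(.m (.m (.v 0) (.v 0)) (.v 1))]⟩,
  ⟨12, 0, 0, (.v 3), (.v 0), (.v 0), (.m (.v 2) (.v 1)), (.v 0), (.v 0), [(.m (.m (.v 0) (.v 1)) (.v 0))]⟩,
  ⟨96, 0, 0, (.v 3), (.v 0), (.v 0), (.m (.v 2) (.v 0)), (.v 0), (.v 0), [(.v 1), (.v 1), (.v 0)]⟩,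
  ⟨0, 156, 0, (.v 3), (.v 0), (.v 0), (.m (.v 2) (.v 0)), (.v 0), (.v 0), [(.m (.v 1) (.v 0)), (.v 1)]⟩,
  ⟨0, 96, 0, (.v 3), (.v 0), (.v 0), (.m (.v 2) (.v 0)), (.v 0), (.v 0), [(.m (.m (.v 1) (.v 0)) (.v 1))]⟩,
  ⟨12, 0, 0, (.v 3), (.v 0), (.v 0), (.m (.v 2) (.v 0)), (.v 0), (.v 0), [(.m (.m (.v 0) (.v 1)) (.v 1))]⟩,
  ⟨36, 0, 0, (.v 3), (.v 0), (.v 0), (.m (.v 1) (.v 0)), (.v 0), (.v 0), [(.v 1), (.v 0), (.v 2)]⟩,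
  ⟨168, 0, 0, (.v 3), (.v 0), (.v 0), (.m (.v 1) (.v 0)), (.v 0), (.v 0), [(.v 1), (.v 2), (.v 0)]⟩,
  ⟨0, 72, 0, (.v 3), (.v 0), (.v 0), (.m (.v 1) (.v 0)), (.v 0), (.v 0), [(.v 1), (.m (.v 2) (.v 0))]⟩,
  ⟨96, 0, 0, (.v 3), (.v 0), (.v 0), (.m (.v 1) (.v 0)), (.v 0), (.v 0), [(.v 2), (.v 1), (.v 0)]⟩,
  ⟨0, 24, 0, (.v 3), (.v 0), (.v 0), (.m (.v 1) (.v 0)), (.v 0), (.v 0), [(.v 2), (.m (.v 1) (.v 0))]⟩,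
  ⟨0, 228, 0, (.v 3), (.v 0), (.v 0), (.m (.v 1) (.v 0)), (.v 0), (.v 0), [(.m (.v 2) (.v 0)), (.v 1)]⟩,
  ⟨0, 84, 0, (.v 3), (.v 0), (.v 0), (.m (.v 1) (.v 0)), (.v 0), (.v 0), [(.m (.v 1) (.v 0)), (.v 2)]⟩,
  ⟨12, 0, 0, (.v 3), (.v 0), (.v 0), (.m (.v 1) (.v 0)), (.v 0), (.v 0), [(.m (.m (.v 2) (.v 0)) (.v 1))]⟩,
  ⟨84, 0, 0, (.v 3), (.v 0), (.v 0), (.m (.v 1) (.v 0)), (.v 0), (.v 0), [(.m (.m (.v 2) (.v 1)) (.v 0))]⟩,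
  ⟨0, 108, 0, (.v 3), (.v 0), (.v 0), (.m (.m (.v 1) (.v 0)) (.v 2)), (.v 0), (.v 0), [(.v 0), (.v 1)]⟩,
  ⟨24, 0, 0, (.v 3), (.v 0), (.v 0), (.m (.m (.v 1) (.v 0)) (.v 2)), (.v 0), (.v 0), [(.v 1), (.v 0)]⟩,
  ⟨48, 0, 0, (.v 3), (.v 0), (.v 0), (.m (.m (.v 1) (.v 0)) (.v 2)), (.v 0), (.v 0), [(.m (.v 1) (.v 0))]⟩,
  ⟨0, 108, 0, (.v 3), (.v 0), (.v 0), (.m (.m (.v 2) (.v 0)) (.v 1)), (.v 0), (.v 0), [(.v 0), (.v 1)]⟩,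
  ⟨0, 96, 0, (.v 3), (.v 0), (.v 0), (.m (.m (.v 2) (.v 0)) (.v 1)), (.v 0), (.v 0), [(.v 1), (.v 0)]⟩,
  ⟨0, 120, 0, (.v 3), (.v 0), (.v 0), (.m (.m (.v 2) (.v 1)) (.v 0)), (.v 0), (.v 0), [(.v 1), (.v 0)]⟩,
  ⟨192, 0, 0, (.v 3), (.v 0), (.v 0), (.m (.m (.v 1) (.v 0)) (.v 1)), (.v 0), (.v 0), [(.v 0), (.v 2)]⟩,
  ⟨192, 0, 0, (.v 3), (.v 0), (.v 0), (.m (.m (.v 1) (.v 0)) (.v 1)), (.v 0), (.v 0), [(.v 2), (.v 0)]⟩,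
  ⟨0, 72, 0, (.v 3), (.v 0), (.v 0), (.m (.m (.v 1) (.v 0)) (.v 1)), (.v 0), (.v 0), [(.m (.v 2) (.v 0))]⟩,
  ⟨0, 96, 0, (.v 3), (.v 0), (.v 0), (.m (.m (.m (.v 1) (.v 0)) (.v 1)) (.v 2)), (.v 0), (.v 0), [(.v 0)]⟩,
  ⟨0, 96, 0, (.v 3), (.v 0), (.v 0), (.m (.m (.m (.v 1) (.v 0)) (.v 2)) (.v 1)), (.v 0), (.v 0), [(.v 0)]⟩,
  ⟨0, 96, 0, (.v 3), (.v 0), (.v 0), (.m (.m (.m (.v 1) (.v 0)) (.v 2)) (.v 0)), (.v 0), (.v 0), [(.v 1)]⟩,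
  ⟨96, 0, 0, (.v 3), (.v 0), (.v 0), (.m (.m (.v 2) (.v 0)) (.m (.v 1) (.v 0))), (.v 0), (.v 0), [(.v 1)]⟩,
  ⟨60, 0, 0, (.v 3), (.v 0), (.v 0), (.m (.m (.m (.v 1) (.v 0)) (.v 0)) (.v 1)), (.v 0), (.v 0), [(.v 2)]⟩,
  ⟨72, 0, 0, (.v 3), (.v 0), (.v 0), (.m (.m (.m (.m (.v 1) (.v 0)) (.v 2)) (.v 0)) (.v 1)), (.v 0), (.v 0), []⟩,
  ⟨0, 24, 0, (.v 3), (.v 0), (.v 0), (.m (.m (.m (.v 1) (.v 0)) (.v 2)) (.m (.v 1) (.v 0))), (.v 0), (.v 0), []⟩,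
  ⟨0, 276, 0, (.v 3), (.v 0), (.v 1), (.v 1), (.v 0), (.v 0), [(.v 0), (.v 0), (.v 0), (.v 2)]⟩,
  ⟨0, 24, 0, (.v 3), (.v 0), (.v 1), (.v 1), (.v 0), (.v 0), [(.v 0), (.v 0), (.v 2), (.v 0)]⟩,
  ⟨0, 72, 0, (.v 3), (.v 0), (.v 1), (.v 1), (.v 0), (.v 0), [(.v 0), (.v 0), (.m (.v 2) (.v 0))]⟩,
  ⟨0, 96, 0, (.v 3), (.v 0), (.v 1), (.v 1), (.v 0), (.v 0), [(.v 0), (.v 2), (.v 0), (.v 0)]⟩,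
  ⟨144, 0, 0, (.v 3), (.v 0), (.v 1), (.v 1), (.v 0), (.v 0), [(.v 0), (.m (.v 2) (.v 0)), (.v 0)]⟩,
  ⟨144, 0, 0, (.v 3), (.v 0), (.v 1), (.v 1), (.v 0), (.v 0), [(.v 0), (.m (.m (.v 2) (.v 0)) (.v 0))]⟩,
  ⟨0, 24, 0, (.v 3), (.v 0), (.v 1), (.v 1), (.v 0), (.v 0), [(.v 2), (.v 0), (.v 0), (.v 0)]⟩,
  ⟨48, 0, 0, (.v 3), (.v 0), (.v 1), (.v 1), (.v 0), (.v 0), [(.m (.v 2) (.v 0)), (.v 0), (.v 0)]⟩,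
  ⟨0, 240, 0, (.v 3), (.v 0), (.v 1), (.v 1), (.v 0), (.v 0), [(.m (.m (.v 2) (.v 0)) (.v 0)), (.v 0)]⟩,
  ⟨240, 0, 0, (.v 3), (.v 0), (.v 1), (.v 2), (.v 0), (.v 0), [(.v 0), (.v 0), (.v 1), (.v 0)]⟩,
  ⟨0, 288, 0, (.v 3), (.v 0), (.v 1), (.v 2), (.v 0), (.v 0), [(.m (.m (.m (.v 1) (.v 0)) (.v 0)) (.v 0))]⟩,
  ⟨0, 216, 0, (.v 3), (.v 0), (.v 1), (.v 2), (.v 0), (.v 0), [(.m (.m (.v 0) (.v 0)) (.v 0)), (.v 1)]⟩,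
  ⟨96, 0, 0, (.v 3), (.v 0), (.v 1), (.m (.v 2) (.v 0)), (.v 0), (.v 0), [(.v 1), (.v 0), (.v 0)]⟩,
  ⟨48, 0, 0, (.v 3), (.v 0), (.v 1), (.m (.v 2) (.v 0)), (.v 0), (.v 0), [(.m (.v 1) (.v 0)), (.v 0)]⟩,
  ⟨0, 48, 0, (.v 3), (.v 0), (.v 1), (.m (.v 2) (.v 0)), (.v 0), (.v 0), [(.m (.m (.v 1) (.v 0)) (.v 0))]⟩,
  ⟨48, 0, 0, (.v 3), (.v 0), (.v 1), (.m (.m (.v 1) (.v 0)) (.v 2)), (.v 0), (.v 0), [(.v 0), (.v 0)]⟩,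
  ⟨0, 192, 0, (.v 3), (.v 0), (.v 1), (.m (.m (.v 2) (.v 0)) (.v 1)), (.v 0), (.v 0), [(.v 0), (.v 0)]⟩,
  ⟨0, 192, 0, (.v 3), (.v 0), (.v 1), (.m (.m (.m (.v 1) (.v 0)) (.v 0)) (.v 2)), (.v 0), (.v 0), [(.v 0)]⟩,
  ⟨144, 0, 0, (.v 3), (.v 0), (.v 1), (.m (.m (.v 2) (.v 0)) (.m (.v 1) (.v 0))), (.v 0), (.v 0), [(.v 0)]⟩,
  ⟨0, 48, 0, (.v 3), (.v 0), (.v 1), (.m (.m (.m (.m (.v 1) (.v 0)) (.v 0)) (.v 2)) (.v 0)), (.v 0), (.v 0), []⟩,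
  ⟨48, 0, 0, (.v 3), (.v 0), (.v 1), (.m (.m (.m (.v 2) (.v 0)) (.m (.v 1) (.v 0))) (.v 0)), (.v 0), (.v 0), []⟩,
  ⟨0, 240, 0, (.v 3), (.v 0), (.v 2), (.m (.v 1) (.v 0)), (.v 0), (.v 0), [(.v 1), (.v 0), (.v 0)]⟩,
  ⟨0, 192, 0, (.v 3), (.v 0), (.v 2), (.m (.m (.v 1) (.v 0)) (.v 1)), (.v 0), (.v 0), [(.v 0), (.v 0)]⟩,
  ⟨0, 696, 0, (.v 3), (.v 0), (.v 2), (.m (.m (.v 1) (.v 0)) (.v 0)), (.v 0), (.v 0), [(.v 0), (.v 1)]⟩,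
  ⟨0, 48, 0, (.v 3), (.v 0), (.v 2), (.m (.m (.v 1) (.v 0)) (.v 0)), (.v 0), (.v 0), [(.v 1), (.v 0)]⟩,
  ⟨0, 192, 0, (.v 3), (.v 0), (.v 2), (.m (.m (.m (.v 1) (.v 0)) (.v 0)) (.v 1)), (.v 0), (.v 0), [(.v 0)]⟩,
  ⟨0, 144, 0, (.v 3), (.v 0), (.m (.v 2) (.v 0)), (.m (.v 1) (.v 0)), (.v 0), (.v 0), [(.v 1), (.v 0)]⟩,
  ⟨0, 384, 0, (.v 3), (.v 0), (.m (.v 2) (.v 0)), (.m (.m (.v 1) (.v 0)) (.v 1)), (.v 0), (.v 0), [(.v 0)]⟩,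
  ⟨0, 48, 0, (.v 3), (.v 0), (.m (.v 1) (.v 0)), (.m (.v 1) (.v 0)), (.v 0), (.v 0), [(.v 0), (.v 2)]⟩,
  ⟨120, 0, 0, (.v 3), (.v 0), (.m (.v 1) (.v 0)), (.m (.v 1) (.v 0)), (.v 0), (.v 0), [(.v 2), (.v 0)]⟩,
  ⟨96, 0, 0, (.v 3), (.v 0), (.m (.v 1) (.v 0)), (.m (.m (.v 1) (.v 0)) (.v 2)), (.v 0), (.v 0), [(.v 0)]⟩,
  ⟨0, 96, 0, (.v 3), (.v 1), (.v 1), (.v 2), (.v 0), (.v 0), [(.v 0), (.v 0), (.v 0), (.v 0)]⟩,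
  ⟨24, 0, 0, (.v 3), (.v 1), (.v 1), (.m (.v 2) (.v 0)), (.v 0), (.v 0), [(.v 0), (.v 0), (.v 0)]⟩,
  ⟨0, 144, 0, (.v 3), (.v 1), (.v 2), (.m (.v 1) (.v 0)), (.v 0), (.v 0), [(.v 0), (.v 0), (.v 0)]⟩,
  ⟨0, 48, 0, (.v 3), (.v 1), (.v 2), (.m (.m (.v 1) (.v 0)) (.v 0)), (.v 0), (.v 0), [(.v 0), (.v 0)]⟩,
  ⟨0, 240, 0, (.v 3), (.v 1), (.m (.v 2) (.v 0)), (.m (.m (.v 1) (.v 0)) (.v 0)), (.v 0), (.v 0), [(.v 0)]⟩,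
  ⟨120, 0, 0, (.v 3), (.v 2), (.m (.v 1) (.v 0)), (.m (.v 1) (.v 0)), (.v 0), (.v 0), [(.v 0), (.v 0)]⟩,
  ⟨0, 12, 0, (.v 3), (.v 2), (.m (.m (.v 1) (.v 0)) (.v 0)), (.m (.m (.v 1) (.v 0)) (.v 0)), (.v 0), (.v 0), []⟩,
  ⟨24, 0, 0, (.v 3), (.m (.v 2) (.v 0)), (.m (.v 1) (.v 0)), (.m (.v 1) (.v 0)), (.v 0), (.v 0), [(.v 0)]⟩,
  ⟨144, 0, 0, (.v 3), (.m (.v 2) (.v 0)), (.m (.v 1) (.v 0)), (.m (.m (.v 1) (.v 0)) (.v 0)), (.v 0), (.v 0), []⟩,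
  ⟨0, 188, 0, (.m (.v 3) (.v 2)), (.v 0), (.v 0), (.v 0), (.v 0), (.v 0), [(.v 0), (.v 1), (.v 1)]⟩,
  ⟨0, 152, 0, (.m (.v 3) (.v 2)), (.v 0), (.v 0), (.v 0), (.v 0), (.v 0), [(.v 1), (.v 0), (.v 1)]⟩,
  ⟨0, 48, 0, (.m (.v 3) (.v 2)), (.v 0), (.v 0), (.v 0), (.v 0), (.v 0), [(.v 1), (.v 1), (.v 0)]⟩,
  ⟨24, 0, 0, (.m (.v 3) (.v 2)), (.v 0), (.v 0), (.v 0), (.v 0), (.v 0), [(.v 1), (.m (.v 1) (.v 0))]⟩,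
  ⟨0, 28, 0, (.m (.v 3) (.v 2)), (.v 0), (.v 0), (.v 0), (.v 0), (.v 0), [(.m (.v 1) (.v 0)), (.v 1)]⟩,
  ⟨0, 132, 0, (.m (.v 3) (.v 2)), (.v 0), (.v 0), (.v 0), (.v 0), (.v 0), [(.m (.m (.v 1) (.v 0)) (.v 1))]⟩,
  ⟨4, 0, 0, (.m (.v 3) (.v 2)), (.v 0), (.v 0), (.v 0), (.v 0), (.v 0), [(.m (.m (.v 0) (.v 1)) (.v 1))]⟩,
  ⟨0, 108, 0, (.m (.v 3) (.v 2)), (.v 0), (.v 0), (.v 1), (.v 0), (.v 0), [(.v 0), (.v 0), (.v 1)]⟩,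
  ⟨0, 120, 0, (.m (.v 3) (.v 2)), (.v 0), (.v 0), (.v 1), (.v 0), (.v 0), [(.v 0), (.v 1), (.v 0)]⟩,
  ⟨0, 72, 0, (.m (.v 3) (.v 2)), (.v 0), (.v 0), (.v 1), (.v 0), (.v 0), [(.m (.m (.v 1) (.v 0)) (.v 0))]⟩,
  ⟨0, 12, 0, (.m (.v 3) (.v 2)), (.v 0), (.v 0), (.v 1), (.v 0), (.v 0), [(.m (.m (.v 0) (.v 0)) (.v 1))]⟩,
  ⟨0, 12, 0, (.m (.v 3) (.v 2)), (.v 0), (.v 0), (.v 1), (.v 0), (.v 0), [(.m (.m (.v 0) (.v 1)) (.v 0))]⟩,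
  ⟨0, 360, 0, (.m (.v 3) (.v 2)), (.v 0), (.v 0), (.m (.m (.v 1) (.v 0)) (.v 1)), (.v 0), (.v 0), [(.v 0)]⟩,
  ⟨0, 72, 0, (.m (.v 3) (.v 2)), (.v 0), (.v 0), (.m (.m (.m (.v 1) (.v 0)) (.v 0)) (.v 1)), (.v 0), (.v 0), []⟩,
  ⟨24, 0, 0, (.m (.v 3) (.v 2)), (.v 0), (.v 1), (.v 1), (.v 0), (.v 0), [(.v 0), (.v 0), (.v 0)]⟩,
  ⟨0, 24, 0, (.m (.v 3) (.v 1)), (.v 0), (.v 0), (.v 0), (.v 0), (.v 0), [(.v 0), (.v 1), (.v 2)]⟩,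
  ⟨0, 100, 0, (.m (.v 3) (.v 1)), (.v 0), (.v 0), (.v 0), (.v 0), (.v 0), [(.v 0), (.v 2), (.v 1)]⟩,
  ⟨32, 0, 0, (.m (.v 3) (.v 1)), (.v 0), (.v 0), (.v 0), (.v 0), (.v 0), [(.v 1), (.v 0), (.v 2)]⟩,
  ⟨56, 0, 0, (.m (.v 3) (.v 1)), (.v 0), (.v 0), (.v 0), (.v 0), (.v 0), [(.v 1), (.v 2), (.v 0)]⟩,
  ⟨8, 0, 0, (.m (.v 3) (.v 1)), (.v 0), (.v 0), (.v 0), (.v 0), (.v 0), [(.v 1), (.m (.v 2) (.v 0))]⟩,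
  ⟨88, 0, 0, (.m (.v 3) (.v 1)), (.v 0), (.v 0), (.v 0), (.v 0), (.v 0), [(.v 2), (.v 1), (.v 0)]⟩,
  ⟨0, 16, 0, (.m (.v 3) (.v 1)), (.v 0), (.v 0), (.v 0), (.v 0), (.v 0), [(.v 2), (.m (.v 1) (.v 0))]⟩,
  ⟨0, 32, 0, (.m (.v 3) (.v 1)), (.v 0), (.v 0), (.v 0), (.v 0), (.v 0), [(.m (.v 2) (.v 1)), (.v 0)]⟩,
  ⟨0, 44, 0, (.m (.v 3) (.v 1)), (.v 0), (.v 0), (.v 0), (.v 0), (.v 0), [(.m (.v 2) (.v 0)), (.v 1)]⟩,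
  ⟨0, 20, 0, (.m (.v 3) (.v 1)), (.v 0), (.v 0), (.v 0), (.v 0), (.v 0), [(.m (.v 1) (.v 0)), (.v 2)]⟩,
  ⟨0, 20, 0, (.m (.v 3) (.v 1)), (.v 0), (.v 0), (.v 0), (.v 0), (.v 0), [(.m (.m (.v 1) (.v 0)) (.v 2))]⟩,
  ⟨0, 28, 0, (.m (.v 3) (.v 1)), (.v 0), (.v 0), (.v 0), (.v 0), (.v 0), [(.m (.m (.v 2) (.v 0)) (.v 1))]⟩,
  ⟨180, 0, 0, (.m (.v 3) (.v 1)), (.v 0), (.v 0), (.v 1), (.v 0), (.v 0), [(.v 0), (.v 0), (.v 2)]⟩,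
  ⟨0, 72, 0, (.m (.v 3) (.v 1)), (.v 0), (.v 0), (.v 1), (.v 0), (.v 0), [(.v 0), (.v 2), (.v 0)]⟩,
  ⟨72, 0, 0, (.m (.v 3) (.v 1)), (.v 0), (.v 0), (.v 1), (.v 0), (.v 0), [(.v 0), (.m (.v 2) (.v 0))]⟩,
  ⟨96, 0, 0, (.m (.v 3) (.v 1)), (.v 0), (.v 0), (.v 1), (.v 0), (.v 0), [(.v 2), (.v 0), (.v 0)]⟩,
  ⟨0, 144, 0, (.m (.v 3) (.v 1)), (.v 0), (.v 0), (.v 1), (.v 0), (.v 0), [(.m (.v 2) (.v 0)), (.v 0)]⟩,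
  ⟨0, 144, 0, (.m (.v 3) (.v 1)), (.v 0), (.v 0), (.v 1), (.v 0), (.v 0), [(.m (.m (.v 2) (.v 0)) (.v 0))]⟩,
  ⟨216, 0, 0, (.m (.v 3) (.v 1)), (.v 0), (.v 0), (.v 2), (.v 0), (.v 0), [(.v 0), (.v 0), (.v 1)]⟩,
  ⟨72, 0, 0, (.m (.v 3) (.v 1)), (.v 0), (.v 0), (.v 2), (.v 0), (.v 0), [(.v 0), (.v 1), (.v 0)]⟩,
  ⟨0, 48, 0, (.m (.v 3) (.v 1)), (.v 0), (.v 0), (.v 2), (.v 0), (.v 0), [(.v 0), (.m (.v 1) (.v 0))]⟩,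
  ⟨24, 0, 0, (.m (.v 3) (.v 1)), (.v 0), (.v 0), (.v 2), (.v 0), (.v 0), [(.v 1), (.v 0), (.v 0)]⟩,
  ⟨0, 48, 0, (.m (.v 3) (.v 1)), (.v 0), (.v 0), (.v 2), (.v 0), (.v 0), [(.m (.v 1) (.v 0)), (.v 0)]⟩,
  ⟨0, 36, 0, (.m (.v 3) (.v 1)), (.v 0), (.v 0), (.v 2), (.v 0), (.v 0), [(.m (.m (.v 1) (.v 0)) (.v 0))]⟩,
  ⟨0, 192, 0, (.m (.v 3) (.v 1)), (.v 0), (.v 0), (.m (.m (.v 2) (.v 0)) (.v 1)), (.v 0), (.v 0), [(.v 0)]⟩,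
  ⟨0, 24, 0, (.m (.v 3) (.v 1)), (.v 0), (.v 0), (.m (.m (.m (.v 1) (.v 0)) (.v 0)) (.v 2)), (.v 0), (.v 0), []⟩,
  ⟨0, 24, 0, (.m (.v 3) (.v 1)), (.v 0), (.v 0), (.m (.m (.m (.v 2) (.v 0)) (.v 0)) (.v 1)), (.v 0), (.v 0), []⟩,
  ⟨0, 48, 0, (.m (.v 3) (.v 1)), (.v 0), (.m (.v 2) (.v 0)), (.m (.v 1) (.v 0)), (.v 0), (.v 0), [(.v 0)]⟩,
  ⟨96, 0, 0, (.m (.v 2) (.v 1)), (.v 0), (.v 0), (.v 0), (.v 0), (.v 0), [(.v 0), (.v 1), (.v 3)]⟩,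
  ⟨100, 0, 0, (.m (.v 2) (.v 1)), (.v 0), (.v 0), (.v 0), (.v 0), (.v 0), [(.v 0), (.v 3), (.v 1)]⟩,
  ⟨0, 32, 0, (.m (.v 2) (.v 1)), (.v 0), (.v 0), (.v 0), (.v 0), (.v 0), [(.v 0), (.m (.v 3) (.v 1))]⟩,
  ⟨0, 96, 0, (.m (.v 2) (.v 1)), (.v 0), (.v 0), (.v 0), (.v 0), (.v 0), [(.v 1), (.v 3), (.v 0)]⟩,
  ⟨180, 0, 0, (.m (.v 2) (.v 1)), (.v 0), (.v 0), (.v 0), (.v 0), (.v 0), [(.v 3), (.v 0), (.v 1)]⟩,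
  ⟨0, 32, 0, (.m (.v 2) (.v 1)), (.v 0), (.v 0), (.v 0), (.v 0), (.v 0), [(.v 3), (.v 1), (.v 0)]⟩,
  ⟨0, 16, 0, (.m (.v 2) (.v 1)), (.v 0), (.v 0), (.v 0), (.v 0), (.v 0), [(.v 3), (.m (.v 1) (.v 0))]⟩,
  ⟨0, 8, 0, (.m (.v 2) (.v 1)), (.v 0), (.v 0), (.v 0), (.v 0), (.v 0), [(.m (.v 3) (.v 1)), (.v 0)]⟩,
  ⟨0, 52, 0, (.m (.v 2) (.v 1)), (.v 0), (.v 0), (.v 0), (.v 0), (.v 0), [(.m (.v 3) (.v 0)), (.v 1)]⟩,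
  ⟨0, 44, 0, (.m (.v 2) (.v 1)), (.v 0), (.v 0), (.v 0), (.v 0), (.v 0), [(.m (.v 1) (.v 0)), (.v 3)]⟩,
  ⟨0, 44, 0, (.m (.v 2) (.v 1)), (.v 0), (.v 0), (.v 0), (.v 0), (.v 0), [(.m (.m (.v 1) (.v 0)) (.v 3))]⟩,
  ⟨0, 52, 0, (.m (.v 2) (.v 1)), (.v 0), (.v 0), (.v 0), (.v 0), (.v 0), [(.m (.m (.v 3) (.v 0)) (.v 1))]⟩,
  ⟨0, 24, 0, (.m (.v 2) (.v 1)), (.v 0), (.v 0), (.v 0), (.v 0), (.v 0), [(.m (.m (.v 3) (.v 1)) (.v 0))]⟩,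
  ⟨324, 0, 0, (.m (.v 2) (.v 1)), (.v 0), (.v 0), (.v 1), (.v 0), (.v 0), [(.v 0), (.v 0), (.v 3)]⟩,
  ⟨0, 24, 0, (.m (.v 2) (.v 1)), (.v 0), (.v 0), (.v 1), (.v 0), (.v 0), [(.v 0), (.v 3), (.v 0)]⟩,
  ⟨72, 0, 0, (.m (.v 2) (.v 1)), (.v 0), (.v 0), (.v 1), (.v 0), (.v 0), [(.v 0), (.m (.v 3) (.v 0))]⟩,
  ⟨264, 0, 0, (.m (.v 2) (.v 1)), (.v 0), (.v 0), (.v 1), (.v 0), (.v 0), [(.v 3), (.v 0), (.v 0)]⟩,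
  ⟨0, 108, 0, (.m (.v 2) (.v 1)), (.v 0), (.v 0), (.v 1), (.v 0), (.v 0), [(.m (.m (.v 3) (.v 0)) (.v 0))]⟩,
  ⟨900, 0, 0, (.m (.v 2) (.v 1)), (.v 0), (.v 0), (.v 3), (.v 0), (.v 0), [(.v 0), (.v 0), (.v 1)]⟩,
  ⟨168, 0, 0, (.m (.v 2) (.v 1)), (.v 0), (.v 0), (.v 3), (.v 0), (.v 0), [(.v 0), (.v 1), (.v 0)]⟩,
  ⟨0, 48, 0, (.m (.v 2) (.v 1)), (.v 0), (.v 0), (.v 3), (.v 0), (.v 0), [(.v 0), (.m (.v 1) (.v 0))]⟩,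
  ⟨168, 0, 0, (.m (.v 2) (.v 1)), (.v 0), (.v 0), (.v 3), (.v 0), (.v 0), [(.v 1), (.v 0), (.v 0)]⟩,
  ⟨0, 48, 0, (.m (.v 2) (.v 1)), (.v 0), (.v 0), (.v 3), (.v 0), (.v 0), [(.m (.v 1) (.v 0)), (.v 0)]⟩,
  ⟨0, 36, 0, (.m (.v 2) (.v 1)), (.v 0), (.v 0), (.v 3), (.v 0), (.v 0), [(.m (.m (.v 1) (.v 0)) (.v 0))]⟩,
  ⟨24, 0, 0, (.m (.v 2) (.v 1)), (.v 0), (.v 0), (.v 3), (.v 0), (.v 0), [(.m (.m (.v 0) (.v 0)) (.v 1))]⟩,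
  ⟨24, 0, 0, (.m (.v 2) (.v 1)), (.v 0), (.v 0), (.v 3), (.v 0), (.v 0), [(.m (.m (.v 0) (.v 1)) (.v 0))]⟩,
  ⟨48, 0, 0, (.m (.v 3) (.v 0)), (.v 0), (.v 2), (.m (.m (.v 1) (.v 0)) (.v 0)), (.v 0), (.v 0), [(.v 1)]⟩,
  ⟨240, 0, 0, (.m (.v 3) (.v 0)), (.v 0), (.m (.v 2) (.v 0)), (.m (.v 1) (.v 0)), (.v 0), (.v 0), [(.v 1)]⟩,
  ⟨0, 72, 0, (.m (.v 3) (.v 0)), (.v 0), (.m (.v 1) (.v 0)), (.m (.v 1) (.v 0)), (.v 0), (.v 0), [(.v 2)]⟩,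
  ⟨240, 0, 0, (.m (.v 3) (.v 0)), (.v 1), (.v 1), (.m (.m (.v 2) (.v 0)) (.v 0)), (.v 0), (.v 0), [(.v 0)]⟩,
  ⟨0, 48, 0, (.m (.v 3) (.v 0)), (.v 1), (.m (.v 2) (.v 0)), (.m (.v 1) (.v 0)), (.v 0), (.v 0), [(.v 0)]⟩,
  ⟨24, 0, 0, (.m (.v 3) (.v 0)), (.m (.v 2) (.v 0)), (.m (.v 1) (.v 0)), (.m (.v 1) (.v 0)), (.v 0), (.v 0), []⟩,
  ⟨240, 0, 0, (.m (.v 2) (.v 0)), (.v 0), (.m (.v 3) (.v 0)), (.m (.v 1) (.v 0)), (.v 0), (.v 0), [(.v 1)]⟩,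
  ⟨0, 48, 0, (.m (.v 2) (.v 0)), (.v 0), (.m (.v 1) (.v 0)), (.m (.v 1) (.v 0)), (.v 0), (.v 0), [(.v 3)]⟩,
  ⟨0, 144, 0, (.m (.v 2) (.v 0)), (.v 0), (.m (.v 1) (.v 0)), (.m (.m (.v 1) (.v 0)) (.v 3)), (.v 0), (.v 0), []⟩,
  ⟨0, 24, 0, (.m (.v 2) (.v 0)), (.v 1), (.v 1), (.v 3), (.v 0), (.v 0), [(.v 0), (.v 0), (.v 0)]⟩,
  ⟨0, 12, 0, (.m (.v 2) (.v 0)), (.v 1), (.v 1), (.v 3), (.v 0), (.v 0), [(.m (.m (.v 0) (.v 0)) (.v 0))]⟩,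
  ⟨0, 96, 0, (.m (.v 2) (.v 0)), (.v 1), (.v 3), (.m (.m (.v 1) (.v 0)) (.v 0)), (.v 0), (.v 0), [(.v 0)]⟩,
  ⟨0, 48, 0, (.m (.v 2) (.v 0)), (.v 3), (.m (.v 1) (.v 0)), (.m (.v 1) (.v 0)), (.v 0), (.v 0), [(.v 0)]⟩,
  ⟨24, 0, 0, (.m (.v 2) (.v 0)), (.m (.v 3) (.v 0)), (.m (.v 1) (.v 0)), (.m (.v 1) (.v 0)), (.v 0), (.v 0), []⟩,
  ⟨0, 120, 0, (.m (.v 1) (.v 0)), (.v 0), (.v 1), (.m (.v 3) (.v 0)), (.v 0), (.v 0), [(.v 0), (.v 2)]⟩,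
  ⟨24, 0, 0, (.m (.v 1) (.v 0)), (.v 0), (.v 1), (.m (.v 2) (.v 0)), (.v 0), (.v 0), [(.v 0), (.v 3)]⟩,
  ⟨0, 144, 0, (.m (.v 1) (.v 0)), (.v 0), (.v 1), (.m (.v 2) (.v 0)), (.v 0), (.v 0), [(.v 3), (.v 0)]⟩,
  ⟨0, 336, 0, (.m (.v 1) (.v 0)), (.v 0), (.v 1), (.m (.m (.v 2) (.v 0)) (.v 3)), (.v 0), (.v 0), [(.v 0)]⟩,
  ⟨0, 48, 0, (.m (.v 1) (.v 0)), (.v 0), (.v 2), (.m (.v 3) (.v 1)), (.v 0), (.v 0), [(.v 0), (.v 0)]⟩,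
  ⟨0, 192, 0, (.m (.v 1) (.v 0)), (.v 0), (.v 2), (.m (.v 3) (.v 0)), (.v 0), (.v 0), [(.v 1), (.v 0)]⟩,
  ⟨0, 96, 0, (.m (.v 1) (.v 0)), (.v 0), (.v 2), (.m (.m (.v 1) (.v 0)) (.v 3)), (.v 0), (.v 0), [(.v 0)]⟩,
  ⟨0, 48, 0, (.m (.v 1) (.v 0)), (.v 0), (.v 2), (.m (.m (.m (.v 1) (.v 0)) (.v 0)) (.v 3)), (.v 0), (.v 0), []⟩,
  ⟨0, 48, 0, (.m (.v 1) (.v 0)), (.v 0), (.v 2), (.m (.m (.v 3) (.v 0)) (.m (.v 1) (.v 0))), (.v 0), (.v 0), []⟩,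
  ⟨432, 0, 0, (.m (.v 1) (.v 0)), (.v 0), (.v 3), (.m (.v 2) (.v 0)), (.v 0), (.v 0), [(.v 0), (.v 1)]⟩,
  ⟨0, 384, 0, (.m (.v 1) (.v 0)), (.v 0), (.v 3), (.m (.v 2) (.v 0)), (.v 0), (.v 0), [(.v 1), (.v 0)]⟩,
  ⟨0, 384, 0, (.m (.v 1) (.v 0)), (.v 0), (.v 3), (.m (.m (.v 1) (.v 0)) (.v 2)), (.v 0), (.v 0), [(.v 0)]⟩,
  ⟨0, 144, 0, (.m (.v 1) (.v 0)), (.v 0), (.m (.v 3) (.v 1)), (.m (.v 2) (.v 0)), (.v 0), (.v 0), [(.v 0)]⟩,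
  ⟨192, 0, 0, (.m (.v 1) (.v 0)), (.v 0), (.m (.v 3) (.v 0)), (.m (.v 2) (.v 0)), (.v 0), (.v 0), [(.v 1)]⟩,
  ⟨144, 0, 0, (.m (.v 1) (.v 0)), (.v 0), (.m (.v 3) (.v 0)), (.m (.m (.v 1) (.v 0)) (.v 2)), (.v 0), (.v 0), []⟩,
  ⟨0, 48, 0, (.m (.v 1) (.v 0)), (.v 0), (.m (.v 2) (.v 0)), (.m (.m (.v 1) (.v 0)) (.v 3)), (.v 0), (.v 0), []⟩,
  ⟨0, 48, 0, (.m (.v 1) (.v 0)), (.v 0), (.m (.v 1) (.v 0)), (.m (.m (.v 2) (.v 0)) (.v 3)), (.v 0), (.v 0), []⟩,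
  ⟨0, 192, 0, (.m (.v 1) (.v 0)), (.v 1), (.v 2), (.m (.v 3) (.v 0)), (.v 0), (.v 0), [(.v 0), (.v 0)]⟩,
  ⟨0, 192, 0, (.m (.v 1) (.v 0)), (.v 1), (.v 3), (.m (.v 2) (.v 0)), (.v 0), (.v 0), [(.v 0), (.v 0)]⟩,
  ⟨0, 48, 0, (.m (.v 1) (.v 0)), (.v 1), (.m (.v 3) (.v 0)), (.m (.v 2) (.v 0)), (.v 0), (.v 0), [(.v 0)]⟩,
  ⟨0, 480, 0, (.m (.v 1) (.v 0)), (.v 1), (.m (.v 3) (.v 0)), (.m (.m (.v 2) (.v 0)) (.v 0)), (.v 0), (.v 0), []⟩,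
  ⟨0, 192, 0, (.m (.v 1) (.v 0)), (.v 1), (.m (.v 2) (.v 0)), (.m (.m (.v 3) (.v 0)) (.v 0)), (.v 0), (.v 0), []⟩,
  ⟨0, 240, 0, (.m (.v 1) (.v 0)), (.v 2), (.v 3), (.m (.m (.v 1) (.v 0)) (.v 0)), (.v 0), (.v 0), [(.v 0)]⟩,
  ⟨0, 48, 0, (.m (.v 1) (.v 0)), (.v 2), (.m (.v 1) (.v 0)), (.m (.m (.v 3) (.v 0)) (.v 0)), (.v 0), (.v 0), []⟩,
  ⟨0, 48, 0, (.m (.v 1) (.v 0)), (.v 3), (.m (.v 2) (.v 0)), (.m (.m (.v 1) (.v 0)) (.v 0)), (.v 0), (.v 0), []⟩,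
  ⟨0, 48, 0, (.m (.v 1) (.v 0)), (.v 3), (.m (.v 1) (.v 0)), (.m (.m (.v 2) (.v 0)) (.v 0)), (.v 0), (.v 0), []⟩,
  ⟨0, 192, 0, (.m (.m (.v 2) (.v 1)) (.v 3)), (.v 0), (.v 0), (.v 0), (.v 0), (.v 0), [(.v 0), (.v 1)]⟩,
  ⟨40, 0, 0, (.m (.m (.v 2) (.v 1)) (.v 3)), (.v 0), (.v 0), (.v 0), (.v 0), (.v 0), [(.v 1), (.v 0)]⟩,
  ⟨48, 0, 0, (.m (.m (.v 3) (.v 1)) (.v 2)), (.v 0), (.v 0), (.v 1), (.v 0), (.v 0), [(.v 0), (.v 0)]⟩,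
  ⟨0, 32, 0, (.m (.m (.v 3) (.v 2)) (.v 1)), (.v 0), (.v 0), (.v 0), (.v 0), (.v 0), [(.v 1), (.v 0)]⟩,
  ⟨0, 96, 0, (.m (.m (.v 3) (.v 2)) (.v 1)), (.v 0), (.v 0), (.v 1), (.v 0), (.v 0), [(.v 0), (.v 0)]⟩,
  ⟨32, 0, 0, (.m (.m (.v 3) (.v 1)) (.v 1)), (.v 0), (.v 0), (.v 0), (.v 0), (.v 0), [(.v 0), (.v 2)]⟩,
  ⟨32, 0, 0, (.m (.m (.v 3) (.v 1)) (.v 1)), (.v 0), (.v 0), (.v 0), (.v 0), (.v 0), [(.v 2), (.v 0)]⟩,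
  ⟨24, 0, 0, (.m (.m (.v 3) (.v 1)) (.v 1)), (.v 0), (.v 0), (.v 2), (.v 0), (.v 0), [(.v 0), (.v 0)]⟩,
  ⟨32, 0, 0, (.m (.m (.v 2) (.v 1)) (.v 1)), (.v 0), (.v 0), (.v 0), (.v 0), (.v 0), [(.v 0), (.v 3)]⟩,
  ⟨40, 0, 0, (.m (.m (.v 2) (.v 1)) (.v 1)), (.v 0), (.v 0), (.v 0), (.v 0), (.v 0), [(.v 3), (.v 0)]⟩,
  ⟨120, 0, 0, (.m (.m (.v 2) (.v 1)) (.v 1)), (.v 0), (.v 0), (.v 3), (.v 0), (.v 0), [(.v 0), (.v 0)]⟩,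
  ⟨348, 0, 0, (.m (.m (.v 2) (.v 0)) (.v 3)), (.v 0), (.v 0), (.v 1), (.v 0), (.v 0), [(.v 0), (.v 1)]⟩,
  ⟨96, 0, 0, (.m (.m (.v 2) (.v 0)) (.v 3)), (.v 0), (.v 0), (.v 1), (.v 0), (.v 0), [(.v 1), (.v 0)]⟩,
  ⟨0, 24, 0, (.m (.m (.v 2) (.v 0)) (.v 3)), (.v 0), (.v 0), (.v 1), (.v 0), (.v 0), [(.m (.v 1) (.v 0))]⟩,
  ⟨144, 0, 0, (.m (.m (.v 2) (.v 0)) (.v 3)), (.v 0), (.v 1), (.v 1), (.v 0), (.v 0), [(.v 0), (.v 0)]⟩,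
  ⟨0, 120, 0, (.m (.m (.v 3) (.v 0)) (.v 2)), (.v 0), (.v 0), (.v 1), (.v 0), (.v 0), [(.v 1), (.v 0)]⟩,
  ⟨0, 60, 0, (.m (.m (.v 1) (.v 0)) (.v 3)), (.v 0), (.v 0), (.v 1), (.v 0), (.v 0), [(.v 0), (.v 2)]⟩,
  ⟨96, 0, 0, (.m (.m (.v 1) (.v 0)) (.v 3)), (.v 0), (.v 0), (.v 1), (.v 0), (.v 0), [(.v 2), (.v 0)]⟩,
  ⟨96, 0, 0, (.m (.m (.v 1) (.v 0)) (.v 3)), (.v 0), (.v 0), (.m (.v 2) (.v 1)), (.v 0), (.v 0), [(.v 0)]⟩,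
  ⟨0, 72, 0, (.m (.m (.v 1) (.v 0)) (.v 3)), (.v 0), (.v 0), (.m (.v 2) (.v 0)), (.v 0), (.v 0), [(.v 1)]⟩,
  ⟨288, 0, 0, (.m (.m (.v 1) (.v 0)) (.v 3)), (.v 0), (.v 1), (.m (.v 2) (.v 0)), (.v 0), (.v 0), [(.v 0)]⟩,
  ⟨0, 48, 0, (.m (.m (.v 1) (.v 0)) (.v 3)), (.v 0), (.m (.v 2) (.v 0)), (.m (.v 1) (.v 0)), (.v 0), (.v 0), []⟩,
  ⟨0, 324, 0, (.m (.m (.v 1) (.v 0)) (.v 2)), (.v 0), (.v 0), (.v 1), (.v 0), (.v 0), [(.v 0), (.v 3)]⟩,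
  ⟨0, 24, 0, (.m (.m (.v 1) (.v 0)) (.v 2)), (.v 0), (.v 0), (.v 1), (.v 0), (.v 0), [(.v 3), (.v 0)]⟩,
  ⟨0, 648, 0, (.m (.m (.v 1) (.v 0)) (.v 2)), (.v 0), (.v 0), (.v 3), (.v 0), (.v 0), [(.v 0), (.v 1)]⟩,
  ⟨0, 240, 0, (.m (.m (.v 1) (.v 0)) (.v 2)), (.v 0), (.v 0), (.v 3), (.v 0), (.v 0), [(.v 1), (.v 0)]⟩,
  ⟨48, 0, 0, (.m (.m (.v 1) (.v 0)) (.v 2)), (.v 0), (.v 0), (.v 3), (.v 0), (.v 0), [(.m (.v 1) (.v 0))]⟩,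
  ⟨72, 0, 0, (.m (.m (.v 1) (.v 0)) (.v 2)), (.v 0), (.v 0), (.m (.v 3) (.v 1)), (.v 0), (.v 0), [(.v 0)]⟩,
  ⟨0, 96, 0, (.m (.m (.v 1) (.v 0)) (.v 2)), (.v 0), (.v 0), (.m (.v 3) (.v 0)), (.v 0), (.v 0), [(.v 1)]⟩,
  ⟨0, 240, 0, (.m (.m (.v 1) (.v 0)) (.v 2)), (.v 0), (.v 1), (.v 3), (.v 0), (.v 0), [(.v 0), (.v 0)]⟩,
  ⟨96, 0, 0, (.m (.m (.v 1) (.v 0)) (.v 2)), (.v 0), (.v 3), (.m (.v 1) (.v 0)), (.v 0), (.v 0), [(.v 0)]⟩,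
  ⟨96, 0, 0, (.m (.m (.v 1) (.v 0)) (.v 2)), (.v 0), (.m (.v 3) (.v 0)), (.m (.v 1) (.v 0)), (.v 0), (.v 0), []⟩,
  ⟨36, 0, 0, (.m (.m (.v 1) (.v 0)) (.v 1)), (.v 0), (.v 0), (.v 2), (.v 0), (.v 0), [(.v 0), (.v 3)]⟩,
  ⟨144, 0, 0, (.m (.m (.v 1) (.v 0)) (.v 1)), (.v 0), (.v 0), (.v 2), (.v 0), (.v 0), [(.v 3), (.v 0)]⟩,
  ⟨0, 72, 0, (.m (.m (.v 1) (.v 0)) (.v 1)), (.v 0), (.v 0), (.v 2), (.v 0), (.v 0), [(.m (.v 3) (.v 0))]⟩,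
  ⟨0, 60, 0, (.m (.m (.v 1) (.v 0)) (.v 1)), (.v 0), (.v 0), (.v 3), (.v 0), (.v 0), [(.v 0), (.v 2)]⟩,
  ⟨168, 0, 0, (.m (.m (.v 1) (.v 0)) (.v 1)), (.v 0), (.v 0), (.v 3), (.v 0), (.v 0), [(.v 2), (.v 0)]⟩,
  ⟨0, 72, 0, (.m (.m (.v 1) (.v 0)) (.v 1)), (.v 0), (.v 0), (.v 3), (.v 0), (.v 0), [(.m (.v 2) (.v 0))]⟩,
  ⟨0, 288, 0, (.m (.m (.v 1) (.v 0)) (.v 1)), (.v 0), (.v 2), (.v 3), (.v 0), (.v 0), [(.v 0), (.v 0)]⟩,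
  ⟨0, 96, 0, (.m (.m (.v 1) (.v 0)) (.v 1)), (.v 0), (.v 3), (.m (.m (.v 2) (.v 0)) (.v 0)), (.v 0), (.v 0), []⟩,
  ⟨0, 144, 0, (.m (.m (.v 1) (.v 0)) (.v 1)), (.v 0), (.m (.v 3) (.v 0)), (.m (.v 2) (.v 0)), (.v 0), (.v 0), []⟩,
  ⟨216, 0, 0, (.m (.m (.v 3) (.v 0)) (.v 0)), (.v 0), (.v 1), (.v 2), (.v 0), (.v 0), [(.v 0), (.v 1)]⟩,
  ⟨0, 48, 0, (.m (.m (.v 3) (.v 0)) (.v 0)), (.v 0), (.v 1), (.v 2), (.v 0), (.v 0), [(.v 1), (.v 0)]⟩,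
  ⟨96, 0, 0, (.m (.m (.v 3) (.v 0)) (.v 0)), (.v 1), (.v 1), (.v 2), (.v 0), (.v 0), [(.v 0), (.v 0)]⟩,
  ⟨96, 0, 0, (.m (.m (.v 3) (.v 0)) (.v 0)), (.v 1), (.v 2), (.m (.m (.v 1) (.v 0)) (.v 0)), (.v 0), (.v 0), []⟩,
  ⟨48, 0, 0, (.m (.m (.v 2) (.v 0)) (.v 0)), (.v 1), (.v 1), (.v 3), (.v 0), (.v 0), [(.v 0), (.v 0)]⟩,
  ⟨0, 96, 0, (.m (.m (.v 2) (.v 0)) (.v 0)), (.v 1), (.v 1), (.m (.v 3) (.v 0)), (.v 0), (.v 0), [(.v 0)]⟩,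
  ⟨432, 0, 0, (.m (.m (.v 1) (.v 0)) (.v 0)), (.v 0), (.v 1), (.m (.m (.v 3) (.v 2)) (.v 0)), (.v 0), (.v 0), []⟩,
  ⟨0, 1128, 0, (.m (.m (.v 1) (.v 0)) (.v 0)), (.v 0), (.v 2), (.v 3), (.v 0), (.v 0), [(.v 0), (.v 1)]⟩,
  ⟨0, 432, 0, (.m (.m (.v 1) (.v 0)) (.v 0)), (.v 0), (.v 2), (.v 3), (.v 0), (.v 0), [(.v 1), (.v 0)]⟩,
  ⟨96, 0, 0, (.m (.m (.v 1) (.v 0)) (.v 0)), (.v 0), (.v 2), (.v 3), (.v 0), (.v 0), [(.m (.v 1) (.v 0))]⟩,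
  ⟨0, 48, 0, (.m (.m (.v 1) (.v 0)) (.v 0)), (.v 0), (.v 3), (.m (.m (.v 2) (.v 0)) (.v 1)), (.v 0), (.v 0), []⟩,
  ⟨0, 192, 0, (.m (.m (.v 1) (.v 0)) (.v 0)), (.v 0), (.v 3), (.m (.m (.v 2) (.v 1)) (.v 0)), (.v 0), (.v 0), []⟩,
  ⟨0, 192, 0, (.m (.m (.v 1) (.v 0)) (.v 0)), (.v 1), (.v 2), (.v 3), (.v 0), (.v 0), [(.v 0), (.v 0)]⟩,
  ⟨192, 0, 0, (.m (.m (.v 1) (.v 0)) (.v 0)), (.v 1), (.v 2), (.m (.m (.v 3) (.v 0)) (.v 0)), (.v 0), (.v 0), []⟩,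
  ⟨48, 0, 0, (.m (.m (.v 1) (.v 0)) (.v 0)), (.v 1), (.v 3), (.m (.m (.v 2) (.v 0)) (.v 0)), (.v 0), (.v 0), []⟩,
  ⟨96, 0, 0, (.m (.m (.v 1) (.v 0)) (.v 0)), (.v 2), (.v 3), (.m (.v 1) (.v 0)), (.v 0), (.v 0), [(.v 0)]⟩,
  ⟨144, 0, 0, (.m (.m (.v 1) (.v 0)) (.v 0)), (.v 2), (.m (.v 3) (.v 0)), (.m (.v 1) (.v 0)), (.v 0), (.v 0), []⟩,
  ⟨144, 0, 0, (.m (.m (.v 1) (.v 0)) (.v 0)), (.v 3), (.m (.v 2) (.v 0)), (.m (.v 1) (.v 0)), (.v 0), (.v 0), []⟩,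
  ⟨32, 0, 0, (.m (.m (.m (.v 3) (.v 1)) (.v 1)) (.v 2)), (.v 0), (.v 0), (.v 0), (.v 0), (.v 0), [(.v 0)]⟩,
  ⟨168, 0, 0, (.m (.m (.m (.v 1) (.v 0)) (.v 2)) (.v 3)), (.v 0), (.v 0), (.v 1), (.v 0), (.v 0), [(.v 0)]⟩,
  ⟨48, 0, 0, (.m (.m (.m (.v 1) (.v 0)) (.v 2)) (.v 3)), (.v 0), (.v 0), (.m (.v 1) (.v 0)), (.v 0), (.v 0), []⟩,
  ⟨0, 192, 0, (.m (.m (.m (.v 1) (.v 0)) (.v 3)) (.v 2)), (.v 0), (.v 0), (.v 1), (.v 0), (.v 0), [(.v 0)]⟩,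
  ⟨48, 0, 0, (.m (.m (.m (.v 1) (.v 0)) (.v 3)) (.v 2)), (.v 0), (.v 0), (.m (.v 1) (.v 0)), (.v 0), (.v 0), []⟩,
  ⟨24, 0, 0, (.m (.m (.m (.v 2) (.v 0)) (.v 3)) (.v 1)), (.v 0), (.v 0), (.m (.v 1) (.v 0)), (.v 0), (.v 0), []⟩,
  ⟨0, 120, 0, (.m (.m (.v 3) (.v 0)) (.m (.v 2) (.v 1))), (.v 0), (.v 0), (.v 1), (.v 0), (.v 0), [(.v 0)]⟩,
  ⟨0, 96, 0, (.m (.m (.m (.v 1) (.v 0)) (.v 3)) (.v 1)), (.v 0), (.v 0), (.v 2), (.v 0), (.v 0), [(.v 0)]⟩,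
  ⟨0, 24, 0, (.m (.m (.v 3) (.v 1)) (.m (.v 1) (.v 0))), (.v 0), (.v 0), (.v 2), (.v 0), (.v 0), [(.v 0)]⟩,
  ⟨0, 120, 0, (.m (.m (.m (.v 1) (.v 0)) (.v 1)) (.v 2)), (.v 0), (.v 0), (.v 3), (.v 0), (.v 0), [(.v 0)]⟩,
  ⟨168, 0, 0, (.m (.m (.m (.v 1) (.v 0)) (.v 2)) (.v 1)), (.v 0), (.v 0), (.v 3), (.v 0), (.v 0), [(.v 0)]⟩,
  ⟨120, 0, 0, (.m (.m (.v 2) (.v 1)) (.m (.v 1) (.v 0))), (.v 0), (.v 0), (.v 3), (.v 0), (.v 0), [(.v 0)]⟩,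
  ⟨456, 0, 0, (.m (.m (.m (.v 2) (.v 0)) (.v 0)) (.v 3)), (.v 0), (.v 0), (.v 1), (.v 0), (.v 0), [(.v 1)]⟩,
  ⟨24, 0, 0, (.m (.m (.m (.v 2) (.v 0)) (.v 0)) (.v 3)), (.v 0), (.v 1), (.v 1), (.v 0), (.v 0), [(.v 0)]⟩,
  ⟨0, 108, 0, (.m (.m (.v 3) (.v 0)) (.m (.v 2) (.v 0))), (.v 0), (.v 0), (.v 1), (.v 0), (.v 0), [(.v 1)]⟩,
  ⟨0, 96, 0, (.m (.m (.v 3) (.v 0)) (.m (.v 2) (.v 0))), (.v 0), (.v 1), (.v 1), (.v 0), (.v 0), [(.v 0)]⟩,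
  ⟨0, 12, 0, (.m (.m (.v 3) (.v 0)) (.m (.v 1) (.v 0))), (.v 0), (.v 0), (.v 2), (.v 0), (.v 0), [(.v 1)]⟩,
  ⟨144, 0, 0, (.m (.m (.v 3) (.v 0)) (.m (.v 1) (.v 0))), (.v 0), (.v 1), (.m (.v 2) (.v 0)), (.v 0), (.v 0), []⟩,
  ⟨576, 0, 0, (.m (.m (.m (.v 1) (.v 0)) (.v 0)) (.v 2)), (.v 0), (.v 1), (.v 3), (.v 0), (.v 0), [(.v 0)]⟩,
  ⟨12, 0, 0, (.m (.m (.v 2) (.v 0)) (.m (.v 1) (.v 0))), (.v 0), (.v 0), (.v 3), (.v 0), (.v 0), [(.v 1)]⟩,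
  ⟨0, 96, 0, (.m (.m (.v 2) (.v 0)) (.m (.v 1) (.v 0))), (.v 0), (.v 0), (.m (.v 3) (.v 1)), (.v 0), (.v 0), []⟩,
  ⟨144, 0, 0, (.m (.m (.v 2) (.v 0)) (.m (.v 1) (.v 0))), (.v 0), (.v 1), (.m (.v 3) (.v 0)), (.v 0), (.v 0), []⟩,
  ⟨0, 336, 0, (.m (.m (.m (.m (.v 1) (.v 0)) (.v 0)) (.v 2)) (.v 3)), (.v 0), (.v 0), (.v 1), (.v 0), (.v 0), []⟩,
  ⟨96, 0, 0, (.m (.m (.m (.v 1) (.v 0)) (.v 2)) (.m (.v 3) (.v 0))), (.v 0), (.v 0), (.v 1), (.v 0), (.v 0), []⟩,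
  ⟨0, 144, 0, (.m (.m (.m (.v 1) (.v 0)) (.v 3)) (.m (.v 2) (.v 0))), (.v 0), (.v 0), (.v 1), (.v 0), (.v 0), []⟩,
  ⟨0, 240, 0, (.m (.m (.m (.v 2) (.v 0)) (.v 3)) (.m (.v 1) (.v 0))), (.v 0), (.v 0), (.v 1), (.v 0), (.v 0), []⟩,
  ⟨96, 0, 0, (.m (.m (.m (.m (.v 1) (.v 0)) (.v 0)) (.v 3)) (.v 1)), (.v 0), (.v 0), (.v 2), (.v 0), (.v 0), []⟩,
  ⟨0, 192, 0, (.m (.m (.m (.m (.v 3) (.v 0)) (.v 0)) (.v 1)) (.v 1)), (.v 0), (.v 0), (.v 2), (.v 0), (.v 0), []⟩,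
  ⟨288, 0, 0, (.m (.m (.m (.v 3) (.v 0)) (.m (.v 1) (.v 0))) (.v 1)), (.v 0), (.v 0), (.v 2), (.v 0), (.v 0), []⟩,
  ⟨0, 48, 0, (.m (.m (.m (.v 1) (.v 0)) (.v 3)) (.m (.v 1) (.v 0))), (.v 0), (.v 0), (.v 2), (.v 0), (.v 0), []⟩,
  ⟨96, 0, 0, (.m (.m (.m (.m (.v 1) (.v 0)) (.v 0)) (.v 1)) (.v 2)), (.v 0), (.v 0), (.v 3), (.v 0), (.v 0), []⟩,
  ⟨0, 96, 0, (.m (.m (.m (.m (.v 1) (.v 0)) (.v 0)) (.v 2)) (.v 1)), (.v 0), (.v 0), (.v 3), (.v 0), (.v 0), []⟩,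
  ⟨192, 0, 0, (.m (.m (.m (.m (.v 2) (.v 0)) (.v 0)) (.v 1)) (.v 1)), (.v 0), (.v 0), (.v 3), (.v 0), (.v 0), []⟩,
  ⟨72, 0, 0, (.m (.m (.m (.v 2) (.v 0)) (.m (.v 1) (.v 0))) (.v 1)), (.v 0), (.v 0), (.v 3), (.v 0), (.v 0), []⟩,
  ⟨144, 0, 0, (.m (.m (.m (.v 1) (.v 0)) (.v 2)) (.m (.v 1) (.v 0))), (.v 0), (.v 0), (.v 3), (.v 0), (.v 0), []⟩,
  ⟨0, 192, 0, (.m (.m (.m (.v 3) (.v 0)) (.m (.v 1) (.v 0))) (.v 0)), (.v 0), (.v 1), (.v 2), (.v 0), (.v 0), []⟩,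
  ⟨672, 0, 0, (.m (.m (.m (.v 2) (.v 0)) (.m (.v 1) (.v 0))) (.v 0)), (.v 0), (.v 1), (.v 3), (.v 0), (.v 0), []⟩,
  ⟨192, 0, 0, (.m (.m (.m (.m (.v 1) (.v 0)) (.v 0)) (.v 1)) (.v 0)), (.v 0), (.v 2), (.v 3), (.v 0), (.v 0), []⟩,
  ⟨0, 12, 1, (.v 1), (.v 0), (.v 0), (.v 0), (.v 1), (.m (.m (.v 2) (.v 0)) (.v 3)), []⟩,
  ⟨0, 8, 1, (.v 1), (.m (.v 3) (.v 1)), (.v 0), (.v 0), (.v 0), (.v 0), [(.v 2)]⟩,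
  ⟨0, 32, 1, (.v 1), (.m (.v 3) (.v 1)), (.v 0), (.v 0), (.v 0), (.v 2), [(.v 0)]⟩,
  ⟨0, 1, 1, (.v 1), (.m (.m (.v 2) (.v 1)) (.v 3)), (.v 0), (.v 0), (.v 0), (.v 0), []⟩,
  ⟨2, 0, 1, (.v 1), (.m (.m (.v 3) (.v 1)) (.v 2)), (.v 0), (.v 0), (.v 0), (.v 0), []⟩,
  ⟨0, 4, 1, (.v 1), (.m (.m (.v 3) (.v 2)) (.v 1)), (.v 0), (.v 0), (.v 0), (.v 0), []⟩,
  ⟨0, 20, 1, (.v 1), (.m (.m (.v 1) (.v 0)) (.v 3)), (.v 0), (.v 0), (.v 0), (.v 2), []⟩,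
  ⟨0, 4, 1, (.v 1), (.m (.m (.v 1) (.v 0)) (.v 2)), (.v 0), (.v 0), (.v 0), (.v 3), []⟩,
  ⟨60, 0, 1, (.v 1), (.m (.m (.v 3) (.v 0)) (.v 0)), (.v 0), (.v 0), (.v 1), (.v 2), []⟩,
  ⟨12, 0, 1, (.v 1), (.m (.m (.v 2) (.v 0)) (.v 0)), (.v 0), (.v 0), (.v 1), (.v 3), []⟩,
  ⟨0, 108, 1, (.v 2), (.v 0), (.v 0), (.v 0), (.v 1), (.m (.v 3) (.v 0)), [(.v 1)]⟩,
  ⟨12, 0, 1, (.v 2), (.v 0), (.v 0), (.v 1), (.v 1), (.m (.m (.v 3) (.v 0)) (.v 0)), []⟩,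
  ⟨0, 32, 1, (.v 2), (.v 1), (.v 0), (.v 0), (.v 0), (.v 0), [(.v 1), (.v 3)]⟩,
  ⟨0, 27, 1, (.v 2), (.v 1), (.v 0), (.v 0), (.v 0), (.v 0), [(.v 3), (.v 1)]⟩,
  ⟨2, 0, 1, (.v 2), (.v 1), (.v 0), (.v 0), (.v 0), (.v 0), [(.m (.v 3) (.v 1))]⟩,
  ⟨0, 64, 1, (.v 2), (.v 1), (.v 0), (.v 0), (.v 0), (.v 1), [(.v 0), (.v 3)]⟩,
  ⟨0, 72, 1, (.v 2), (.v 1), (.v 0), (.v 0), (.v 0), (.v 1), [(.v 3), (.v 0)]⟩,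
  ⟨0, 24, 1, (.v 2), (.v 1), (.v 0), (.v 0), (.v 0), (.v 1), [(.m (.v 3) (.v 0))]⟩,
  ⟨0, 36, 1, (.v 2), (.v 1), (.v 0), (.v 0), (.v 0), (.v 3), [(.v 0), (.v 1)]⟩,
  ⟨0, 80, 1, (.v 2), (.v 1), (.v 0), (.v 0), (.v 0), (.v 3), [(.v 1), (.v 0)]⟩,
  ⟨16, 0, 1, (.v 2), (.v 1), (.v 0), (.v 0), (.v 0), (.m (.v 3) (.v 1)), [(.v 0)]⟩,
  ⟨32, 0, 1, (.v 2), (.v 1), (.v 0), (.v 0), (.v 0), (.m (.v 1) (.v 0)), [(.v 3)]⟩,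
  ⟨0, 120, 1, (.v 2), (.v 1), (.v 0), (.v 0), (.v 1), (.v 3), [(.v 0), (.v 0)]⟩,
  ⟨96, 0, 1, (.v 2), (.v 1), (.v 0), (.v 0), (.v 3), (.m (.v 1) (.v 0)), [(.v 0)]⟩,
  ⟨0, 13, 1, (.v 2), (.m (.v 3) (.v 1)), (.v 0), (.v 0), (.v 0), (.v 0), [(.v 1)]⟩,
  ⟨0, 64, 1, (.v 2), (.m (.v 3) (.v 1)), (.v 0), (.v 0), (.v 0), (.v 1), [(.v 0)]⟩,
  ⟨0, 144, 1, (.v 2), (.m (.v 1) (.v 0)), (.v 0), (.v 0), (.v 1), (.m (.v 3) (.v 0)), []⟩,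
  ⟨0, 48, 1, (.v 2), (.m (.m (.v 1) (.v 0)) (.v 3)), (.v 0), (.v 0), (.v 0), (.v 1), []⟩,
  ⟨0, 36, 1, (.v 2), (.m (.m (.v 1) (.v 0)) (.v 1)), (.v 0), (.v 0), (.v 0), (.v 3), []⟩,
  ⟨12, 0, 1, (.v 3), (.v 0), (.v 0), (.v 0), (.v 1), (.m (.v 2) (.v 0)), [(.v 1)]⟩,
  ⟨0, 96, 1, (.v 3), (.v 0), (.v 0), (.v 1), (.v 1), (.m (.v 2) (.v 0)), [(.v 0)]⟩,
  ⟨0, 48, 1, (.v 3), (.v 0), (.v 0), (.v 1), (.v 1), (.m (.m (.v 2) (.v 0)) (.v 0)), []⟩,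
  ⟨6, 0, 1, (.v 3), (.v 1), (.v 0), (.v 0), (.v 0), (.v 0), [(.v 1), (.v 2)]⟩,
  ⟨23, 0, 1, (.v 3), (.v 1), (.v 0), (.v 0), (.v 0), (.v 0), [(.v 2), (.v 1)]⟩,
  ⟨0, 32, 1, (.v 3), (.v 1), (.v 0), (.v 0), (.v 0), (.v 1), [(.v 0), (.v 2)]⟩,
  ⟨0, 8, 1, (.v 3), (.v 1), (.v 0), (.v 0), (.v 0), (.v 1), [(.v 2), (.v 0)]⟩,
  ⟨0, 24, 1, (.v 3), (.v 1), (.v 0), (.v 0), (.v 0), (.v 1), [(.m (.v 2) (.v 0))]⟩,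
  ⟨36, 0, 1, (.v 3), (.v 1), (.v 0), (.v 0), (.v 0), (.v 2), [(.v 0), (.v 1)]⟩,
  ⟨24, 0, 1, (.v 3), (.v 1), (.v 0), (.v 0), (.v 0), (.v 2), [(.v 1), (.v 0)]⟩,
  ⟨0, 24, 1, (.v 3), (.v 1), (.v 0), (.v 0), (.v 0), (.v 2), [(.m (.v 1) (.v 0))]⟩,
  ⟨0, 4, 1, (.v 3), (.v 1), (.v 0), (.v 0), (.v 0), (.m (.m (.v 2) (.v 0)) (.v 1)), []⟩,
  ⟨0, 4, 1, (.v 3), (.v 1), (.v 0), (.v 0), (.v 0), (.m (.m (.v 2) (.v 1)) (.v 0)), []⟩,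
  ⟨0, 24, 1, (.v 3), (.v 1), (.v 0), (.v 0), (.v 1), (.v 2), [(.v 0), (.v 0)]⟩,
  ⟨0, 7, 1, (.v 3), (.v 2), (.v 0), (.v 0), (.v 0), (.v 0), [(.v 1), (.v 1)]⟩,
  ⟨36, 0, 1, (.v 3), (.v 2), (.v 0), (.v 0), (.v 0), (.v 1), [(.v 0), (.v 1)]⟩,
  ⟨64, 0, 1, (.v 3), (.v 2), (.v 0), (.v 0), (.v 0), (.v 1), [(.v 1), (.v 0)]⟩,
  ⟨0, 12, 1, (.v 3), (.v 2), (.v 0), (.v 0), (.v 0), (.m (.v 1) (.v 0)), [(.v 1)]⟩,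
  ⟨0, 12, 1, (.v 3), (.v 2), (.v 0), (.v 0), (.v 0), (.m (.m (.v 1) (.v 0)) (.v 1)), []⟩,
  ⟨48, 0, 1, (.v 3), (.v 2), (.v 0), (.v 0), (.v 1), (.v 1), [(.v 0), (.v 0)]⟩,
  ⟨5, 0, 1, (.v 3), (.m (.v 2) (.v 1)), (.v 0), (.v 0), (.v 0), (.v 0), [(.v 1)]⟩,
  ⟨32, 0, 1, (.v 3), (.m (.v 2) (.v 1)), (.v 0), (.v 0), (.v 0), (.v 1), [(.v 0)]⟩,
  ⟨0, 108, 1, (.v 3), (.m (.v 1) (.v 0)), (.v 0), (.v 0), (.v 1), (.m (.v 2) (.v 0)), []⟩,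
  ⟨0, 36, 1, (.v 3), (.m (.m (.v 1) (.v 0)) (.v 2)), (.v 0), (.v 0), (.v 0), (.v 1), []⟩,
  ⟨0, 44, 1, (.v 3), (.m (.m (.v 1) (.v 0)) (.v 1)), (.v 0), (.v 0), (.v 0), (.v 2), []⟩,
  ⟨0, 14, 1, (.m (.v 3) (.v 2)), (.v 1), (.v 0), (.v 0), (.v 0), (.v 0), [(.v 1)]⟩,
  ⟨16, 0, 1, (.m (.v 3) (.v 2)), (.v 1), (.v 0), (.v 0), (.v 0), (.v 1), [(.v 0)]⟩]

end Pool.Agent.H12.Eng
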