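import Pool.Agent.H12.Eng.Ids
import Pool.Agent.H12.Eng.DatPsi

/-! Kernel evaluation of a certificate. -/

namespace Pool.Agent.H12.Eng
set_option maxRecDepth 1000000

theorem kPsi : chk idsV 288 tPsi cPsi = true := by decide +kernel

end Pool.Agent.H12.Eng
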