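import Pool.Agent.H12.Alt.Zero
import Pool.Agent.H66.Eng.Defs

/-! A small certificate checker for identities of anticommutative 3-Engel rings. -/

set_option autoImplicit false

namespace Pool.Agent.H12.Eng

open Pool.Agent.H12.Alt (BT frc frc_eq)

noncomputable section

/-- expressions -/
inductive Ex | v (i : ℕ) | m (a b : Ex)

variable {A : Type*} [NonUnitalNonAssocRing A]

def val (u : ℕ → A) : Ex → A
  | .v i => u i
  | .m a b => val u a * val u b

/-- pairing function written for the kernel -/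
def pr (a b : ℕ) : ℕ :=
  cond (Nat.blt a b) (Nat.add (Nat.mul b b) a) (Nat.add (Nat.add (Nat.mul a a) a) b)

theorem pr_eq (a b : ℕ) : pr a b = Nat.pair a b := by
  unfold pr Nat.pair
  by_cases h : a < b
  · have : Nat.blt a b = true := Nat.blt_eq.mpr h
    simp [this, h]
  · have : Nat.blt a b = false := by
      cases h' : Nat.blt a b with
      | false => rfl
      | true => exact absurd (Nat.blt_eq.mp h') h
    simp [this, h]

theorem pr_inj {a b c d : ℕ} (h : pr a b = pr c d) : a = c ∧ b = d := by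
  rw [pr_eq, pr_eq] at h
  exact Nat.pair_eq_pair.mp h

/-- keys of expressions, positive -/
def key (E : Ex) : ℕ :=
  Ex.rec (fun i => Nat.add (Nat.mul 2 i) 2) (fun _ _ x y => Nat.add (Nat.mul 2 (pr x y)) 1) E

theorem key_v (i : ℕ) : key (.v i) = 2 * i + 2 := rfl
theorem key_m (a b : Ex) : key (.m a b) = 2 * pr (key a) (key b) + 1 := rfl

theorem key_inj : ∀ {E F : Ex}, key E = key F → E = F := by
  intro E
  induction E with
  | v i =>
    intro F h
    cases F with
    | v j => simp only [key_v] at h; congr 1; omega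
    | m a b => simp only [key_v, key_m] at h; omega
  | m a b ha hb =>
    intro F h
    cases F with
    | v j => simp only [key_v, key_m] at h; omega
    | m a' b' =>
      simp only [key_m] at h
      obtain ⟨h1, h2⟩ := pr_inj (show pr (key a) (key b) = pr (key a') (key b') by omega)
      rw [ha h1, hb h2]

theorem key_pos (E : Ex) : 0 < key E := by
  cases E <;> simp [key_v, key_m]

/-- evaluate through keys -/
def kv {M : Type*} [AddCommGroup M] (f : Ex → M) (k : ℕ) : M :=
  open Classical in if h : ∃ E, key E = k then f h.choose else 0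

theorem kv_key {M : Type*} [AddCommGroup M] (f : Ex → M) (E : Ex) : kv f (key E) = f E := by
  have h : ∃ F, key F = key E := ⟨E, rfl⟩
  unfold kv
  rw [dif_pos h]
  rw [key_inj h.choose_spec]

/-- the signed key `a` represents the element `x` -/
def Rep (u : ℕ → A) (a : ℕ) (x : A) : Prop :=
  (a = 0 ∧ x = 0) ∨ (∃ E, a = 2 * key E ∧ x = val u E) ∨ (∃ E, a = 2 * key E + 1 ∧ x = - val u E)

/-- product of signed keys -/
def mk (a b : ℕ) : ℕ :=
  cond (Nat.beq a 0) 0 (cond (Nat.beq b 0) 0
    (frc (Nat.div a 2) fun x => frc (Nat.div b 2) fun y =>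
      cond (Nat.blt x y)
        (Nat.add (Nat.mul 2 (Nat.add (Nat.mul 2 (Nat.add (Nat.mul y y) x)) 1))
          (Nat.mod (Nat.add a b) 2))
        (cond (Nat.blt y x)
          (Nat.add (Nat.mul 2 (Nat.add (Nat.mul 2 (Nat.add (Nat.mul x x) y)) 1))
            (Nat.mod (Nat.succ (Nat.add a b)) 2)) 0)))

theorem beq_false_of {a : ℕ} (h : 0 < a) : Nat.beq a 0 = false := by
  cases a with
  | zero => omega
  | succ n => rfl

theorem blt_false_of {a b : ℕ} (h : b ≤ a) : Nat.blt a b = false := by
  cases h' : Nat.blt a b with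
  | false => rfl
  | true => exact absurd (Nat.blt_eq.mp h') (by omega)

theorem pr_lt {a b : ℕ} (h : a < b) : pr a b = b * b + a := by
  unfold pr
  rw [Nat.blt_eq.mpr h]
  rfl

theorem mk_spec (a b x y : ℕ) (ha : a / 2 = x) (hb : b / 2 = y) (hx : 0 < x) (hy : 0 < y) :
    (x < y ∧ mk a b = 2 * (2 * pr x y + 1) + (a + b) % 2) ∨
    (y < x ∧ mk a b = 2 * (2 * pr y x + 1) + (a + b + 1) % 2) ∨
    (x = y ∧ mk a b = 0) := by
  have ha0 : Nat.beq a 0 = false := beq_false_of (by omega)
  have hb0 : Nat.beq b 0 = false := beq_false_of (by omega)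
  have hm : mk a b = cond (Nat.blt x y)
        (2 * (2 * (y * y + x) + 1) + (a + b) % 2)
        (cond (Nat.blt y x) (2 * (2 * (x * x + y) + 1) + (a + b + 1) % 2) 0) := by
    unfold mk
    rw [ha0, hb0, cond_false, cond_false, frc_eq, frc_eq]
    have e1 : Nat.div a 2 = x := ha
    have e2 : Nat.div b 2 = y := hb
    rw [e1, e2]
    rfl
  rcases lt_trichotomy x y with h | h | h
  · left
    refine ⟨h, ?_⟩
    rw [hm, Nat.blt_eq.mpr h, cond_true, pr_lt h]
  · right; right
    refine ⟨h, ?_⟩
    rw [hm, blt_false_of (le_of_eq h.symm), blt_false_of (le_of_eq h)]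
    rfl
  · right; left
    refine ⟨h, ?_⟩
    rw [hm, blt_false_of (le_of_lt h), Nat.blt_eq.mpr h, cond_false, cond_true, pr_lt h]

section
variable (hsq : ∀ x : A, x * x = 0)
include hsq

theorem anti (x y : A) : x * y = - (y * x) := by
  have h := hsq (x + y)
  rw [add_mul, mul_add, mul_add, hsq x, hsq y, zero_add, add_zero] at h
  exact eq_neg_of_add_eq_zero_left h

theorem mk_rep (u : ℕ → A) {a b : ℕ} {x y : A} (ha : Rep u a x) (hb : Rep u b y) :
    Rep u (mk a b) (x * y) := by
  rcases ha with ⟨h1, h2⟩ | ha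
  · subst h1; subst h2
    left
    rw [zero_mul]
    exact ⟨rfl, rfl⟩
  rcases hb with ⟨h1, h2⟩ | hb
  · subst h1; subst h2
    left
    rw [mul_zero]
    refine ⟨?_, rfl⟩
    unfold mk
    cases Nat.beq a 0 <;> rfl
  -- signs
  obtain ⟨s, E, hE, hs, hx⟩ : ∃ (s : ℕ) (E : Ex), a = 2 * key E + s ∧ s < 2 ∧
      x = (if s = 0 then (1 : ℤ) else -1) • val u E := by
    rcases ha with ⟨E, h1, h2⟩ | ⟨E, h1, h2⟩
    · exact ⟨0, E, by omega, by omega, by simp [h2]⟩
    · exact ⟨1, E, by omega, by omega, by simp [h2]⟩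
  obtain ⟨t, F, hF, ht, hy⟩ : ∃ (t : ℕ) (F : Ex), b = 2 * key F + t ∧ t < 2 ∧
      y = (if t = 0 then (1 : ℤ) else -1) • val u F := by
    rcases hb with ⟨E, h1, h2⟩ | ⟨E, h1, h2⟩
    · exact ⟨0, E, by omega, by omega, by simp [h2]⟩
    · exact ⟨1, E, by omega, by omega, by simp [h2]⟩
  have key1 : x * y = ((if s = 0 then (1 : ℤ) else -1) * (if t = 0 then (1 : ℤ) else -1)) •
      (val u E * val u F) := by
    rw [hx, hy, smul_mul_assoc, mul_smul_comm, smul_smul]
  rcases mk_spec a b (key E) (key F) (by omega) (by omega) (key_pos E) (key_pos F) with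
    ⟨_, hm⟩ | ⟨_, hm⟩ | ⟨he, hm⟩
  · rw [← key_m] at hm
    have hv : val u (.m E F) = val u E * val u F := rfl
    have hst : (s = 0 ∨ s = 1) ∧ (t = 0 ∨ t = 1) := ⟨by omega, by omega⟩
    rcases hst with ⟨rfl | rfl, rfl | rfl⟩
    · right; left; exact ⟨.m E F, by omega, by rw [key1, hv]; simp⟩
    · right; right; exact ⟨.m E F, by omega, by rw [key1, hv]; simp⟩
    · right; right; exact ⟨.m E F, by omega, by rw [key1, hv]; simp⟩
    · right; left; exact ⟨.m E F, by omega, by rw [key1, hv]; simp⟩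
  · rw [← key_m] at hm
    have hv : val u (.m F E) = - (val u E * val u F) := by
      rw [← anti hsq]; rfl
    have hst : (s = 0 ∨ s = 1) ∧ (t = 0 ∨ t = 1) := ⟨by omega, by omega⟩
    rcases hst with ⟨rfl | rfl, rfl | rfl⟩
    · right; right; exact ⟨.m F E, by omega, by rw [key1, hv]; simp⟩
    · right; left; exact ⟨.m F E, by omega, by rw [key1, hv]; simp⟩
    · right; left; exact ⟨.m F E, by omega, by rw [key1, hv]; simp⟩
    · right; right; exact ⟨.m F E, by omega, by rw [key1, hv]; simp⟩
  · left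
    refine ⟨hm, ?_⟩
    rw [key1, key_inj he, hsq, smul_zero]

/-- signed key of an expression whose variables have signed keys `σ` -/
def ek (σ : ℕ → ℕ) (E : Ex) : ℕ :=
  Ex.rec σ (fun _ _ x y => frc x fun a => frc y fun b => mk a b) E

theorem ek_rep (u : ℕ → A) (σ : ℕ → ℕ) (w : ℕ → A) (h : ∀ i, Rep u (σ i) (w i)) (E : Ex) :
    Rep u (ek σ E) (val w E) := by
  induction E with
  | v i => exact h i
  | m a b iha ihb =>
    have e : ek σ (.m a b) = mk (ek σ a) (ek σ b) := by
      change (frc (ek σ a) fun a => frc (ek σ b) fun b => mk a b) = _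
      rw [frc_eq, frc_eq]
    rw [e]
    exact mk_rep hsq u iha ihb

end

/-- signed keys of variables -/
def vk (i : ℕ) : ℕ := Nat.mul 2 (Nat.add (Nat.mul 2 i) 2)

theorem vk_rep (u : ℕ → A) (i : ℕ) : Rep u (vk i) (u i) := Or.inr (Or.inl ⟨.v i, rfl, rfl⟩)

/-- insertion of a signed key with coefficient `p - m` -/
def insS (a p m : ℕ) (t : BT) : BT :=
  cond (Nat.beq a 0) t (cond (Nat.beq (Nat.mod a 2) 0)
    (frc (Nat.div a 2) fun k => BT.ins k p m t) (frc (Nat.div a 2) fun k => BT.ins k m p t))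

theorem ev_insS (u : ℕ → A) {a : ℕ} {x : A} (h : Rep u a x) (p m : ℕ) (t : BT) :
    (insS a p m t).ev (kv (val u)) = t.ev (kv (val u)) + ((p : ℤ) - (m : ℤ)) • x := by
  rcases h with ⟨h1, h2⟩ | ⟨E, h1, h2⟩ | ⟨E, h1, h2⟩
  · subst h1; subst h2
    simp [insS]
  · have e : insS a p m t = BT.ins (key E) p m t := by
      unfold insS
      rw [beq_false_of (by have := key_pos E; omega), cond_false]
      have e1 : Nat.mod a 2 = 0 := by
        have : a % 2 = 0 := by omega
        exact this
      have e2 : Nat.div a 2 = key E := by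
        have : a / 2 = key E := by omega
        exact this
      rw [e1, frc_eq, e2]
      rfl
    rw [e, BT.ev_ins, kv_key, h2]
  · have e : insS a p m t = BT.ins (key E) m p t := by
      unfold insS
      rw [beq_false_of (by omega), cond_false]
      have e1 : Nat.mod a 2 = 1 := by
        have : a % 2 = 1 := by omega
        exact this
      have e2 : Nat.div a 2 = key E := by
        have : a / 2 = key E := by omega
        exact this
      rw [e1, frc_eq, frc_eq, e2]
      rfl
    rw [e, BT.ev_ins, kv_key, h2, smul_neg, ← neg_smul]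
    congr 2
    ring

/-- linear combinations of expressions -/
abbrev LC := List (ℕ × ℕ × Ex)

def evL (f : Ex → A) : LC → A
  | [] => 0
  | (a, b, E) :: t => ((a : ℤ) - (b : ℤ)) • f E + evL f t

theorem evL_cons (f : Ex → A) (a b : ℕ) (E : Ex) (t : LC) :
    evL f ((a, b, E) :: t) = ((a : ℤ) - (b : ℤ)) • f E + evL f t := rfl

/-- right multiplications by expressions, first element of the list first -/
def rms (l : List ℕ) (a : ℕ) : ℕ :=
  List.rec (motive := fun _ => ℕ → ℕ) (fun a => a)
    (fun x _ ih a => frc (mk a x) ih) l a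

def rmv (l : List A) (a : A) : A := l.foldl (fun x y => x * y) a

theorem rms_rep (hsq : ∀ x : A, x * x = 0) (u : ℕ → A) (l : List ℕ) (w : List A)
    (h : List.Forall₂ (Rep u) l w) :
    ∀ {a : ℕ} {x : A}, Rep u a x → Rep u (rms l a) (rmv w x) := by
  induction h with
  | nil => intro a x hx; exact hx
  | @cons b y l w h1 _ ih =>
    intro a x hx
    have e : rms (b :: l) a = rms l (mk a b) := by
      change frc (mk a b) (rms l) = _
      rw [frc_eq]
    rw [e]
    exact ih (mk_rep hsq u hx h1)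

theorem rmv_zero (w : List A) : rmv w (0 : A) = 0 := by
  induction w with
  | nil => rfl
  | cons y w ih => change rmv w (0 * y) = 0; rw [zero_mul, ih]

theorem rmv_add (w : List A) (x y : A) : rmv w (x + y) = rmv w x + rmv w y := by
  induction w generalizing x y with
  | nil => rfl
  | cons z w ih =>
    change rmv w ((x + y) * z) = rmv w (x * z) + rmv w (y * z)
    rw [add_mul, ih]

theorem rmv_smul (w : List A) (n : ℤ) (x : A) : rmv w (n • x) = n • rmv w x := by
  induction w generalizing x with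
  | nil => rfl
  | cons z w ih =>
    change rmv w ((n • x) * z) = n • rmv w (x * z)
    rw [smul_mul_assoc, ih]

/-- insert `p - m` times the linear combination `I` with variables replaced by signed keys `σ`,
multiplied on the right by the signed keys in `c` -/
def insI (σ : ℕ → ℕ) (c : List ℕ) (p m : ℕ) (I : LC) (t : BT) : BT :=
  List.rec (motive := fun _ => BT → BT) (fun t => t)
    (fun x _ ih t => ih (frc (rms c (ek σ x.2.2)) fun a =>
      insS a (Nat.add (Nat.mul p x.1) (Nat.mul m x.2.1))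
        (Nat.add (Nat.mul p x.2.1) (Nat.mul m x.1)) t)) I t

theorem ev_insI (hsq : ∀ x : A, x * x = 0) (u : ℕ → A) (σ : ℕ → ℕ) (w : ℕ → A)
    (hσ : ∀ i, Rep u (σ i) (w i))
    (c : List ℕ) (cw : List A) (hc : List.Forall₂ (Rep u) c cw) (p m : ℕ) (I : LC) (t : BT) :
    (insI σ c p m I t).ev (kv (val u)) =
      t.ev (kv (val u)) + ((p : ℤ) - (m : ℤ)) • rmv cw (evL (val w) I) := by
  induction I generalizing t with
  | nil =>
    change t.ev (kv (val u)) = _ + _ • rmv cw (0 : A)
    rw [rmv_zero, smul_zero, add_zero]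
  | cons x I ih =>
    obtain ⟨a, b, E⟩ := x
    have e : insI σ c p m ((a, b, E) :: I) t =
        insI σ c p m I (insS (rms c (ek σ E)) (Nat.add (Nat.mul p a) (Nat.mul m b))
          (Nat.add (Nat.mul p b) (Nat.mul m a)) t) := by
      change insI σ c p m I (frc (rms c (ek σ E)) _) = _
      rw [frc_eq]
    rw [e, ih, ev_insS u (rms_rep hsq u c cw hc (ek_rep hsq u σ w hσ E)), evL_cons, rmv_add,
      rmv_smul, smul_add, smul_smul]
    have : (((Nat.add (Nat.mul p a) (Nat.mul m b) : ℕ) : ℤ) -
      ((Nat.add (Nat.mul p b) (Nat.mul m a) : ℕ) : ℤ)) = ((p : ℤ) - m) * ((a : ℤ) - b) := by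
      simp only [Nat.add_eq, Nat.mul_eq, Nat.cast_add, Nat.cast_mul]
      ring
    rw [this]
    abel

/-- six values as a function -/
def uf {α : Type*} (b0 b1 b2 b3 b4 b5 : α) : ℕ → α
  | 0 => b0 | 1 => b1 | 2 => b2 | 3 => b3 | 4 => b4 | _ => b5

/-- certificate item: coefficient, identity number, arguments, right multiplications -/
structure It where
  p : ℕ
  m : ℕ
  i : ℕ
  a0 : Ex
  a1 : Ex
  a2 : Ex
  a3 : Ex
  a4 : Ex
  a5 : Ex
  c : List Ex

/-- signed keys of a list of expressions -/
def ekl (l : List Ex) : List ℕ :=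
  List.rec [] (fun x _ ih => frc (ek vk x) fun a => a :: ih) l

theorem ekl_rep (hsq : ∀ x : A, x * x = 0) (u : ℕ → A) (l : List Ex) :
    List.Forall₂ (Rep u) (ekl l) (l.map (val u)) := by
  induction l with
  | nil => exact List.Forall₂.nil
  | cons x l ih =>
    have e : ekl (x :: l) = ek vk x :: ekl l := by
      change (frc (ek vk x) fun a => a :: ekl l) = _
      rw [frc_eq]
    rw [e]
    exact List.Forall₂.cons (ek_rep hsq u vk u (vk_rep u) x) ih

/-- insert an item -/
def insT (ids : ℕ → LC) (x : It) (t : BT) : BT :=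
  frc (ek vk x.a0) fun k0 => frc (ek vk x.a1) fun k1 => frc (ek vk x.a2) fun k2 =>
  frc (ek vk x.a3) fun k3 => frc (ek vk x.a4) fun k4 => frc (ek vk x.a5) fun k5 =>
  insI (uf k0 k1 k2 k3 k4 k5) (ekl x.c) x.p x.m (ids x.i) t

/-- `I` is an identity of `A` in (at most) six variables -/
def Valid (A : Type*) [NonUnitalNonAssocRing A] (I : LC) : Prop :=
  ∀ x0 x1 x2 x3 x4 x5 : A, evL (val (uf x0 x1 x2 x3 x4 x5)) I = 0

theorem ev_insT (hsq : ∀ x : A, x * x = 0) (u : ℕ → A) (ids : ℕ → LC)
    (hids : ∀ i, Valid A (ids i)) (x : It) (t : BT) :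
    (insT ids x t).ev (kv (val u)) = t.ev (kv (val u)) := by
  unfold insT
  simp only [frc_eq]
  rw [ev_insI hsq u _ (uf (val u x.a0) (val u x.a1) (val u x.a2) (val u x.a3) (val u x.a4)
    (val u x.a5)) _ _ _ (ekl_rep hsq u x.c), hids x.i, rmv_zero, smul_zero, add_zero]
  intro i
  match i with
  | 0 => exact ek_rep hsq u vk u (vk_rep u) _
  | 1 => exact ek_rep hsq u vk u (vk_rep u) _
  | 2 => exact ek_rep hsq u vk u (vk_rep u) _
  | 3 => exact ek_rep hsq u vk u (vk_rep u) _
  | 4 => exact ek_rep hsq u vk u (vk_rep u) _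
  | _ + 5 => exact ek_rep hsq u vk u (vk_rep u) _

def insTs (ids : ℕ → LC) (l : List It) (t : BT) : BT :=
  List.rec (motive := fun _ => BT → BT) (fun t => t) (fun x _ ih t => ih (insT ids x t)) l t

theorem ev_insTs (hsq : ∀ x : A, x * x = 0) (u : ℕ → A) (ids : ℕ → LC)
    (hids : ∀ i, Valid A (ids i)) (l : List It) (t : BT) :
    (insTs ids l t).ev (kv (val u)) = t.ev (kv (val u)) := by
  induction l generalizing t with
  | nil => rfl
  | cons x l ih =>
    change (insTs ids l (insT ids x t)).ev (kv (val u)) = _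
    rw [ih, ev_insT hsq u ids hids]

/-- the check: `N` times the target plus the sum of the items is formally zero -/
def chk (ids : ℕ → LC) (N : ℕ) (tgt : LC) (l : List It) : Bool :=
  BT.z (insTs ids l (insI vk [] N 0 tgt .e))

theorem chk_sound (hsq : ∀ x : A, x * x = 0) (ids : ℕ → LC) (hids : ∀ i, Valid A (ids i))
    (N : ℕ) (tgt : LC) (l : List It) (h : chk ids N tgt l = true) (u : ℕ → A) :
    N • evL (val u) tgt = 0 := by
  have h2 := BT.z_ev (kv (val u)) _ h
  rw [ev_insTs hsq u ids hids, ev_insI hsq u vk u (vk_rep u) [] [] List.Forall₂.nil] at h2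
  simpa [BT.ev, rmv] using h2

end

end Pool.Agent.H12.Eng
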