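import Pool.Agent.H12.Eng.Core

/-! The identities used by the certificates. -/

set_option autoImplicit false

namespace Pool.Agent.H12.Eng

open Pool.Agent.H66.Eng (E3)

/-- full linearisation of the 3-Engel identity, variables 0; 1, 2, 3 -/
def rE : LC := [
  (1, 0, .m (.m (.m (.v 0) (.v 1)) (.v 2)) (.v 3)),
  (1, 0, .m (.m (.m (.v 0) (.v 1)) (.v 3)) (.v 2)),
  (1, 0, .m (.m (.m (.v 0) (.v 2)) (.v 1)) (.v 3)),
  (1, 0, .m (.m (.m (.v 0) (.v 2)) (.v 3)) (.v 1)),
  (1, 0, .m (.m (.m (.v 0) (.v 3)) (.v 1)) (.v 2)),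
  (1, 0, .m (.m (.m (.v 0) (.v 3)) (.v 2)) (.v 1))]

/-- one term of the linearisation of `((x a) a) ((y a) a)` -/
def tV (i j k l : ℕ) : ℕ × ℕ × Ex :=
  (1, 0, .m (.m (.m (.v 0) (.v i)) (.v j)) (.m (.m (.v 1) (.v k)) (.v l)))

/-- full linearisation of `((x a) a) ((y a) a)`, variables 0, 1; 2, 3, 4, 5 -/
def rV : LC := [
  tV 2 3 4 5, tV 2 3 5 4, tV 2 4 3 5, tV 2 4 5 3, tV 2 5 3 4, tV 2 5 4 3,
  tV 3 2 4 5, tV 3 2 5 4, tV 3 4 2 5, tV 3 4 5 2, tV 3 5 2 4, tV 3 5 4 2,
  tV 4 2 3 5, tV 4 2 5 3, tV 4 3 2 5, tV 4 3 5 2, tV 4 5 2 3, tV 4 5 3 2,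
  tV 5 2 3 4, tV 5 2 4 3, tV 5 3 2 4, tV 5 3 4 2, tV 5 4 2 3, tV 5 4 3 2]

def idsE : ℕ → LC := fun _ => rE

def idsV : ℕ → LC
  | 0 => rE
  | _ => rV

section
variable {A : Type*} [NonUnitalNonAssocRing A]

theorem valid_rE (hA : E3 A) : Valid A rE := by
  intro x a b c d e
  have h := hA.eng x (a + b + c)
  have h1 := hA.eng x (a + b)
  have h2 := hA.eng x (a + c)
  have h3 := hA.eng x (b + c)
  have h4 := hA.eng x a
  have h5 := hA.eng x b
  have h6 := hA.eng x c
  have key : evL (val (uf x a b c d e)) rE =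
      (x * (a + b + c)) * (a + b + c) * (a + b + c) - (x * (a + b)) * (a + b) * (a + b)
      - (x * (a + c)) * (a + c) * (a + c) - (x * (b + c)) * (b + c) * (b + c)
      + (x * a) * a * a + (x * b) * b * b + (x * c) * c * c := by
    simp only [rE, evL, val, uf, mul_add, add_mul]
    norm_num
    abel
  rw [key, h, h1, h2, h3, h4, h5, h6]
  simp

theorem valid_idsE (hA : E3 A) (i : ℕ) : Valid A (idsE i) := valid_rE hA

theorem pol4 (F : A → A → A → A → A) (h0 : ∀ a, F a a a a = 0)
    (l1 : ∀ a a' b c d, F (a + a') b c d = F a b c d + F a' b c d)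
    (l2 : ∀ a b b' c d, F a (b + b') c d = F a b c d + F a b' c d)
    (l3 : ∀ a b c c' d, F a b (c + c') d = F a b c d + F a b c' d)
    (l4 : ∀ a b c d d', F a b c (d + d') = F a b c d + F a b c d') (a b c d : A) :
    F a b c d + F a b d c + F a c b d + F a c d b + F a d b c + F a d c b
    + (F b a c d + F b a d c + F b c a d + F b c d a + F b d a c + F b d c a)
    + (F c a b d + F c a d b + F c b a d + F c b d a + F c d a b + F c d b a)
    + (F d a b c + F d a c b + F d b a c + F d b c a + F d c a b + F d c b a) = 0 := by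
  have key : F a b c d + F a b d c + F a c b d + F a c d b + F a d b c + F a d c b
    + (F b a c d + F b a d c + F b c a d + F b c d a + F b d a c + F b d c a)
    + (F c a b d + F c a d b + F c b a d + F c b d a + F c d a b + F c d b a)
    + (F d a b c + F d a c b + F d b a c + F d b c a + F d c a b + F d c b a) =
    F (a + b + c + d) (a + b + c + d) (a + b + c + d) (a + b + c + d)
    - F (a + b + c) (a + b + c) (a + b + c) (a + b + c)
    - F (a + b + d) (a + b + d) (a + b + d) (a + b + d)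
    - F (a + c + d) (a + c + d) (a + c + d) (a + c + d)
    - F (b + c + d) (b + c + d) (b + c + d) (b + c + d)
    + F (a + b) (a + b) (a + b) (a + b) + F (a + c) (a + c) (a + c) (a + c)
    + F (a + d) (a + d) (a + d) (a + d) + F (b + c) (b + c) (b + c) (b + c)
    + F (b + d) (b + d) (b + d) (b + d) + F (c + d) (c + d) (c + d) (c + d)
    - F a a a a - F b b b b - F c c c c - F d d d d := by
    simp only [l1, l2, l3, l4]
    abel
  rw [key]
  simp only [h0]
  simp

theorem valid_rV (hV : ∀ x y a : A, ((x * a) * a) * ((y * a) * a) = 0) : Valid A rV := by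
  intro x y a b c d
  have h := pol4 (fun a b c d => ((x * a) * b) * ((y * c) * d)) (fun a => hV x y a)
    (fun a a' b c d => by simp only [mul_add, add_mul])
    (fun a b b' c d => by simp only [mul_add, add_mul])
    (fun a b c c' d => by simp only [mul_add, add_mul])
    (fun a b c d d' => by simp only [mul_add]) a b c d
  rw [← h]
  simp only [rV, tV, evL, val, uf]
  norm_num
  abel

theorem valid_idsV (hA : E3 A) (hV : ∀ x y a : A, ((x * a) * a) * ((y * a) * a) = 0) (i : ℕ) :
    Valid A (idsV i) := by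
  unfold idsV
  split
  · exact valid_rE hA
  · exact valid_rV hV

end

end Pool.Agent.H12.Eng
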