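import Pool.Agent.H12.Eng.Chk1
import Pool.Agent.H12.Eng.Chk2

/-! Target (II): an anticommutative 3-Engel ring without nonzero sandwiches is zero. -/

set_option autoImplicit false

namespace Pool.Agent.H12.Eng

open Pool.Agent.H66.Eng (E3 Sandwich TargetII)

section
variable {A : Type*} [NonUnitalNonAssocRing A]

theorem nz (hA : E3 A) (n k : ℕ) {w : A} (h : (2 ^ n * 3 ^ k) • w = 0) : w = 0 := by
  induction n with
  | zero =>
    induction k with
    | zero => simpa using h
    | succ k ih =>
      apply ih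
      apply hA.h3
      rw [smul_smul, ← h]
      congr 1
      ring
  | succ n ih =>
    apply ih
    apply hA.h2
    rw [smul_smul, ← h]
    congr 1
    ring

/-- `(z c) a = 0` for `c = x_2 y_2` -/
theorem l1 (hA : E3 A) (z x y a : A) : (z * (((x * a) * a) * ((y * a) * a))) * a = 0 := by
  have h := chk_sound hA.sq idsE (valid_idsE hA) 6 tL1 cL1 kL1 (uf a x y z a a)
  have h' := nz hA 1 1 (by simpa using h)
  simpa [tL1, evL, val, uf] using h'

theorem l3 (hA : E3 A) (z x y a : A) :
    z * (((x * a) * a) * ((y * a) * a)) = ((z * a) * (x * a)) * ((y * a) * a)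
      + ((z * a) * ((y * a) * a)) * (x * a) - (z * ((x * a) * a)) * ((y * a) * a) := by
  have h := chk_sound hA.sq idsE (valid_idsE hA) 6 tL3 cL3 kL3 (uf a x y z a a)
  have h' := nz hA 1 1 (by simpa using h)
  have h2 : z * (((x * a) * a) * ((y * a) * a)) - (((z * a) * (x * a)) * ((y * a) * a)
      + ((z * a) * ((y * a) * a)) * (x * a) - (z * ((x * a) * a)) * ((y * a) * a)) = 0 := by
    rw [← h']
    simp only [tL3, evL, val, uf]
    norm_num
    abel
  exact sub_eq_zero.mp h2

theorem valid_of (hA : E3 A) {ids : ℕ → LC} (hids : ∀ i, Valid A (ids i)) {N n k : ℕ}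
    {tgt : LC} {l : List It} (h : chk ids N tgt l = true) (hN : N = 2 ^ n * 3 ^ k) :
    Valid A tgt := by
  intro x0 x1 x2 x3 x4 x5
  apply nz hA n k
  rw [← hN]
  exact chk_sound hA.sq ids hids N tgt l h _

theorem valid_idsL (hA : E3 A) (i : ℕ) : Valid A (idsL i) := by
  unfold idsL
  split
  · exact valid_rE hA
  · exact valid_of hA (n := 1) (k := 1) (valid_idsE hA) kL0 rfl
  · exact valid_of hA (n := 1) (k := 1) (valid_idsE hA) kL1 rfl
  · exact valid_of hA (n := 1) (k := 1) (valid_idsE hA) kL2 rfl

theorem l4 (hA : E3 A) (z x y t a : A) :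
    (z * (((x * a) * a) * ((y * a) * a))) * ((t * a) * a) = 0 := by
  have h' := valid_of hA (n := 1) (k := 0) (valid_idsL hA) kL4 rfl a x y z t a
  simpa [tL4, evL, val, uf] using h'

/-- step 0 -/
theorem sand0 (hA : E3 A) (x y a : A) : Sandwich (((x * a) * a) * ((y * a) * a)) := by
  intro z
  rw [l3 hA (z * (((x * a) * a) * ((y * a) * a))) x y a, l1 hA z x y a, l4 hA z x y x a]
  simp

section
variable (hA : E3 A) (hV : ∀ x y a : A, ((x * a) * a) * ((y * a) * a) = 0)
include hA hV

theorem w2 (z x y a : A) : (z * a) * (((x * a) * a) * (y * a)) +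
    (z * a) * ((x * a) * ((y * a) * a)) = 0 := by
  have h := chk_sound hA.sq idsV (valid_idsV hA hV) 24 tW2 cW2 kW2 (uf a x y z a a)
  have h' := nz hA 3 1 (by simpa using h)
  rw [← h']
  simp only [tW2, evL, val, uf]
  norm_num

theorem g1 (x y a : A) : (((x * a) * a) * (y * a)) * a = 0 := by
  have h := chk_sound hA.sq idsV (valid_idsV hA hV) 24 tG1 cG1 kG1 (uf a x y a a a)
  have h' := nz hA 3 1 (by simpa using h)
  simpa [tG1, evL, val, uf] using h'

theorem psi (z x y a : A) : ((z * a) * (((x * a) * a) * (y * a))) * x = 0 := by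
  have h := chk_sound hA.sq idsV (valid_idsV hA hV) 288 tPsi cPsi kPsi (uf a x y z a a)
  have h' := nz hA 5 2 (by simpa using h)
  simpa [tPsi, evL, val, uf] using h'

theorem psi_pol (z x e y a : A) : ((z * a) * (((x * a) * a) * (y * a))) * e =
    - (((z * a) * (((e * a) * a) * (y * a))) * x) := by
  have h := psi hA hV z (x + e) y a
  have h1 := psi hA hV z x y a
  have h2 := psi hA hV z e y a
  simp only [mul_add, add_mul] at h
  rw [h1, h2, zero_add, add_zero] at h
  exact eq_neg_of_add_eq_zero_right h

theorem phi_symm (z x y a : A) : (z * a) * (((x * a) * a) * (y * a)) =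
    (z * a) * (((y * a) * a) * (x * a)) := by
  have h := w2 hA hV z x y a
  rw [anti hA.sq (x * a) ((y * a) * a), mul_neg, ← sub_eq_add_neg] at h
  exact sub_eq_zero.mp h

theorem phi_mul (z x y e a : A) : ((z * a) * (((x * a) * a) * (y * a))) * e = 0 := by
  have h : ((z * a) * (((x * a) * a) * (y * a))) * e =
      - (((z * a) * (((x * a) * a) * (y * a))) * e) := by
    calc ((z * a) * (((x * a) * a) * (y * a))) * e
        = - (((z * a) * (((e * a) * a) * (y * a))) * x) := psi_pol hA hV z x e y a
      _ = - (((z * a) * (((y * a) * a) * (e * a))) * x) := by rw [phi_symm hA hV z e y a]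
      _ = ((z * a) * (((x * a) * a) * (e * a))) * y := by
          rw [psi_pol hA hV z y x e a, neg_neg]
      _ = ((z * a) * (((e * a) * a) * (x * a))) * y := by rw [phi_symm hA hV z x e a]
      _ = - (((z * a) * (((y * a) * a) * (x * a))) * e) := psi_pol hA hV z e y x a
      _ = - (((z * a) * (((x * a) * a) * (y * a))) * e) := by rw [phi_symm hA hV z y x a]
  apply hA.h2
  rw [two_nsmul]
  nth_rewrite 1 [h]
  exact neg_add_cancel _

theorem phi_sand (z x y a : A) : Sandwich ((z * a) * (((x * a) * a) * (y * a))) := by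
  intro t
  rw [anti hA.sq t, phi_mul hA hV, neg_zero, zero_mul]

end

section
variable (hA : E3 A) (hV : ∀ x y a : A, ((x * a) * a) * ((y * a) * a) = 0)
  (hW : ∀ z x y a : A, (z * a) * (((x * a) * a) * (y * a)) = 0)
include hA hV hW

theorem g_sand (x y a : A) : Sandwich (((x * a) * a) * (y * a)) := by
  intro z
  have hg := g1 hA hV x y a
  have h := pol4 (fun p q r s => ((((x * a) * a) * (y * a)) * p) * (((x * q) * r) * (y * s)))
    (fun a' => hW _ x y a')
    (fun a a' b c d => by simp only [mul_add, add_mul])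
    (fun a b b' c d => by simp only [mul_add, add_mul])
    (fun a b c c' d => by simp only [mul_add, add_mul])
    (fun a b c d d' => by simp only [mul_add]) z a a a
  simp only [hg, zero_mul, add_zero] at h
  have h6 : (2 ^ 1 * 3 ^ 1) • (((((x * a) * a) * (y * a)) * z) * (((x * a) * a) * (y * a))) =
      0 := by
    rw [← h]
    norm_num
    abel
  have h7 := nz hA 1 1 h6
  rw [anti hA.sq z, neg_mul, h7, neg_zero]

end

section
variable (hA : E3 A) (hU : ∀ x y a : A, ((x * a) * a) * (y * a) = 0)
include hA hU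

theorem x2_sand (x a : A) : Sandwich ((x * a) * a) := by
  intro w
  -- linearised Engel identity with base `x` and `a, a, w`
  have h := valid_rE hA x a a w a a
  have e : w * ((x * a) * a) = (((x * a) * w) + ((x * w) * a)) * a := by
    have h2 : (2 : ℕ) • (w * ((x * a) * a) - (((x * a) * w) + ((x * w) * a)) * a) = 0 := by
      have h3 : (2 : ℕ) • (((x * a) * a) * w + (((x * a) * w) + ((x * w) * a)) * a) = 0 := by
        rw [← h]
        simp only [rE, evL, val, uf, add_mul]
        norm_num
        abel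
      rw [anti hA.sq w ((x * a) * a), ← neg_add', smul_neg, h3, neg_zero]
    exact sub_eq_zero.mp (hA.h2 _ h2)
  rw [e, anti hA.sq, hU, neg_zero]

end

/-- Target (II). -/
theorem target_II (hA : E3 A) : TargetII A := by
  intro hS
  have hV : ∀ x y a : A, ((x * a) * a) * ((y * a) * a) = 0 := fun x y a =>
    hS _ (sand0 hA x y a)
  have hW : ∀ z x y a : A, (z * a) * (((x * a) * a) * (y * a)) = 0 := fun z x y a =>
    hS _ (phi_sand hA hV z x y a)
  have hU : ∀ x y a : A, ((x * a) * a) * (y * a) = 0 := fun x y a =>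
    hS _ (g_sand hA hV hW x y a)
  intro a
  apply hS
  intro x
  exact hS _ (x2_sand hA hU x a)

end

end Pool.Agent.H12.Eng
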